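import Pool.Agent.Lib.MP_2f3286_ag.Fer.Ty.TC

/-!
# Step zero at the places which do not divide `p`
-/

open IsDedekindDomain NumberField
open Pool.Agent.Lib.MP_2f3286_ag.Koe

namespace Pool.Agent.Lib.MP_2f3286_ag.Fer.Ty

section

variable {p : ℕ} [Fact p.Prime] {M : Type*} [Field M] {S : WS p M}
  {G : Type*} [Group G] [MulSemiringAction G M]

omit [Fact p.Prime] in
theorem WS.zpow_mem {u : M} (hu : u ∈ S.W) (a : ℤ) : u ^ a ∈ S.W := by
  obtain ⟨n, rfl | rfl⟩ := Int.eq_nat_or_neg a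
  · rw [zpow_natCast]
    exact S.pow_mem hu n
  · rw [zpow_neg, zpow_natCast]
    exact S.inv_mem _ (S.pow_mem hu n)

theorem WS.E.zpow {g : G} (hg : ∀ n, g • S.z n = S.z n) {u : M} (hu : u ∈ S.W) {x : ℤ_[p]}
    (h1 : S.E g u x) (a : ℤ) : S.E g (u ^ a) (a * x) := by
  obtain ⟨n, rfl | rfl⟩ := Int.eq_nat_or_neg a
  · rw [zpow_natCast, Int.cast_natCast]
    exact h1.pow hg hu n
  · rw [zpow_neg, zpow_natCast, Int.cast_neg, Int.cast_natCast, neg_mul]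
    exact (h1.pow hg hu n).inv hg (S.pow_mem hu n)

omit [Fact p.Prime] in
private theorem td_dvd [Fact p.Prime] {a : ℤ} (h : (p : ℤ_[p]) ∣ (a : ℤ_[p])) : (p : ℤ) ∣ a := by
  have h1 := (dvd_int (p := p) (n := 1) (a := a)).1 (by rwa [pow_one])
  rwa [pow_one] at h1

/-- arithmetic -/
theorem td_arith {a b : ℤ} (ha : ¬ (p : ℤ) ∣ a) (hb : ¬ (p : ℤ) ∣ b) (hab : ¬ (p : ℤ) ∣ a + b)
    {x y : ℤ_[p]} (h : x = 0 ∨ y = 0 ∨ x = y) (h1 : (p : ℤ_[p]) ∣ a * x + b * y) :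
    (p : ℤ_[p]) ∣ x ∧ (p : ℤ_[p]) ∣ y := by
  have hq : Prime (p : ℤ_[p]) := PadicInt.prime_p
  rcases h with rfl | rfl | rfl
  · rw [mul_zero, zero_add] at h1
    exact ⟨dvd_zero _, (hq.dvd_or_dvd h1).resolve_left fun h2 => hb (td_dvd h2)⟩
  · rw [mul_zero, add_zero] at h1
    exact ⟨(hq.dvd_or_dvd h1).resolve_left fun h2 => ha (td_dvd h2), dvd_zero _⟩
  · have h2 : (a : ℤ_[p]) * x + b * x = ((a + b : ℤ) : ℤ_[p]) * x := by
      rw [Int.cast_add, add_mul]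
    rw [h2] at h1
    have h3 := (hq.dvd_or_dvd h1).resolve_left fun h2 => hab (td_dvd h2)
    exact ⟨h3, h3⟩

end

section

variable {F kb K M : Type*} [Field F] [NumberField F] [Field kb] [Algebra F kb] [IsGalois F kb]
  [IsAlgClosed kb] [Field K] [Field M] [Algebra K M] [Algebra kb M] [Algebra.IsAlgebraic K M]
  (s : Gal(kb/F) →* Gal(M/K)) (hs : Continuous s)
  (hsec : ∀ σ a, s σ (algebraMap kb M a) = algebraMap kb M (σ a)) {p : ℕ} (hp : p.Prime)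
  (𝒱 : Set (ValuationSubring M)) (h𝒱 : ∀ V ∈ 𝒱, ∀ a : kb, algebraMap kb M a ∈ V)
  (hrad : ∀ ρ : M, UnV 𝒱 ρ → ∃ β : M, β ^ p = ρ)
  (h𝒱s : ∀ V ∈ 𝒱, ∀ σ, V.comap (s σ : M →+* M) ∈ 𝒱)

include hs hsec hp h𝒱 hrad h𝒱s in
/-- **Step zero at a place which does not divide `p`.** -/
theorem pv_zero {ζ : F} (hζ : IsPrimitiveRoot ζ p) (w : HeightOneSpectrum (𝓞 F))
    (hpw : (p : 𝓞 F) ∉ w.asIdeal) {A B x y : M} (hA : ∀ σ, s σ A = A) (hB : ∀ σ, s σ B = B)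
    (hx : ∀ σ, s σ x = x) (hy : ∀ σ, s σ y = y) (hAU : UnV 𝒱 A) (hAU' : UnV 𝒱 (1 - A))
    {c c' : F} (hc : c ≠ 0) (hc' : c' ≠ 0)
    (hAc : A = algebraMap kb M (algebraMap F kb c) * x ^ p)
    (hAc' : 1 - A = algebraMap kb M (algebraMap F kb c') * y ^ p) {a b : ℤ}
    (ha : ¬ (p : ℤ) ∣ a) (hb : ¬ (p : ℤ) ∣ b) (hab : ¬ (p : ℤ) ∣ a + b)
    (h : A ^ a * (1 - A) ^ b = B ^ p) : PV p w c ∧ PV p w c' := by
  have : Fact p.Prime := ⟨hp⟩
  have hA' : ∀ σ, s σ (1 - A) = 1 - A := fun σ => by rw [map_sub, map_one, hA]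
  have key : ∀ {d : F} (_ : d ≠ 0) (_ : ¬ PV p w d) {γ : kb} (_ : γ ^ p = algebraMap F kb d),
      ∃ (S : WS p M) (δ : Gal(kb/F)) (xc xc' : ℤ_[p]), δ γ ≠ γ ∧
        S.E (s δ) (algebraMap kb M (algebraMap F kb c)) xc ∧
        S.E (s δ) (algebraMap kb M (algebraMap F kb c')) xc' ∧ (p : ℤ_[p]) ∣ xc ∧
        (p : ℤ_[p]) ∣ xc' := by
    intro d hd hPd γ hγ
    obtain ⟨S, δ, Φ, q', hAct, hz1, hSW, hδγ, hfix⟩ :=
      exists_act s hs hsec hp 𝒱 h𝒱 hrad h𝒱s hζ w hpw hd hPd hγ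
    have hz := hAct.δz
    have hcst : ∀ a : F, a ≠ 0 → algebraMap kb M (algebraMap F kb a) ∈ S.W := by
      intro a ha
      rw [hSW]
      refine ⟨fixed_nF fun σ => by rw [hsec, AlgEquiv.commutes], ?_⟩
      exact UnV.of_const h𝒱 ((_root_.map_ne_zero _).2 ha)
    have hcfix : ∀ a : F, s δ (algebraMap kb M (algebraMap F kb a)) =
        algebraMap kb M (algebraMap F kb a) := by
      intro a
      rw [hsec, AlgEquiv.commutes]
    have hAW : A ∈ S.W := (hSW A).2 ⟨fixed_nF hA, hAU⟩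
    have hAW' : 1 - A ∈ S.W := (hSW _).2 ⟨fixed_nF hA', hAU'⟩
    obtain ⟨a0, ha0⟩ := WS.exists_E (g := s δ) hz hAW (hA δ)
    obtain ⟨b0, hb0⟩ := WS.exists_E (g := s δ) hz hAW' (hA' δ)
    have hBW : B ∈ S.W := by
      apply S.root_mem
      rw [← h]
      exact S.mul_mem _ (WS.zpow_mem hAW a) _ (WS.zpow_mem hAW' b)
    obtain ⟨xB, hxB⟩ := WS.exists_E (g := s δ) hz hBW (hB δ)
    have h1 := (ha0.zpow hz hAW a).mul hz (WS.zpow_mem hAW a) (WS.zpow_mem hAW' b)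
      (hb0.zpow hz hAW' b)
    rw [h] at h1
    have h2 := h1.unique (S.pow_mem hBW p) (hxB.pow hz hBW p)
    obtain ⟨h3, h4⟩ := td_arith ha hb hab (WS.types hAct hAW hAW' (hA Φ) ha0 hb0)
      (by rw [h2]; exact Dvd.intro _ rfl)
    -- the constants
    have hroot : ∀ {f u : M} {d : F} (_ : d ≠ 0) (_ : f ∈ S.W)
        (_ : f = algebraMap kb M (algebraMap F kb d) * u ^ p), u ∈ S.W := by
      intro f u d hd hf hfu
      apply S.root_mem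
      have h5 : u ^ p = f / algebraMap kb M (algebraMap F kb d) := by
        rw [hfu, mul_div_cancel_left₀ _ (S.ne_zero _ (hcst d hd))]
      rw [h5]
      exact S.div_mem hf (hcst d hd)
    have hxW := hroot hc hAW hAc
    have hyW := hroot hc' hAW' hAc'
    obtain ⟨xx, hxx⟩ := WS.exists_E (g := s δ) hz hxW (hx δ)
    obtain ⟨xy, hxy⟩ := WS.exists_E (g := s δ) hz hyW (hy δ)
    obtain ⟨xc, hxc⟩ := WS.exists_E (g := s δ) hz (hcst c hc) (hcfix c)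
    obtain ⟨xc', hxc'⟩ := WS.exists_E (g := s δ) hz (hcst c' hc') (hcfix c')
    have e1 := hxc.mul hz (hcst c hc) (S.pow_mem hxW p) (hxx.pow hz hxW p)
    have e2 := hxc'.mul hz (hcst c' hc') (S.pow_mem hyW p) (hxy.pow hz hyW p)
    rw [← hAc] at e1
    rw [← hAc'] at e2
    have e3 := ha0.unique hAW e1
    have e4 := hb0.unique hAW' e2
    refine ⟨S, δ, xc, xc', hδγ, hxc, hxc', ?_, ?_⟩
    · have h5 : xc = a0 - p * xx := by rw [e3]; ring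
      rw [h5]
      exact dvd_sub h3 (Dvd.intro _ rfl)
    · have h5 : xc' = b0 - p * xy := by rw [e4]; ring
      rw [h5]
      exact dvd_sub h4 (Dvd.intro _ rfl)
  constructor
  · by_contra hPc
    obtain ⟨γ, hγ⟩ := IsAlgClosed.exists_pow_nat_eq (algebraMap F kb c) hp.pos
    obtain ⟨S, δ, xc, xc', h1, h2, -, h3, -⟩ := key hc hPc hγ
    exact h1 (fix_of_dvd hsec h2 h3 hγ)
  · by_contra hPc
    obtain ⟨γ, hγ⟩ := IsAlgClosed.exists_pow_nat_eq (algebraMap F kb c') hp.pos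
    obtain ⟨S, δ, xc, xc', h1, -, h2, -, h3⟩ := key hc' hPc hγ
    exact h1 (fix_of_dvd hsec h2 h3 hγ)

end

end Pool.Agent.Lib.MP_2f3286_ag.Fer.Ty
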