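import Mathlib

/-!
# Roots of unity of `p`-power order with exponents in the `p`-adic integers
-/

namespace Pool.Agent.Lib.MP_2f3286_ag.Fer.Ty

/-- a compatible system of primitive roots of unity of orders `p ^ n` -/
structure Zet (p : ℕ) (M : Type*) [Field M] where
  z : ℕ → M
  prim : ∀ n, IsPrimitiveRoot (z n) (p ^ n)
  comp : ∀ n, z (n + 1) ^ p = z n

section

variable {p : ℕ} {M : Type*} [Field M] (Z : Zet p M)

theorem Zet.zero : Z.z 0 = 1 := by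
  have h := (Z.prim 0).pow_eq_one
  rwa [pow_zero, pow_one] at h

theorem Zet.comp_pow (n k : ℕ) : Z.z (n + k) ^ p ^ k = Z.z n := by
  induction k with
  | zero => rw [pow_zero, pow_one, add_zero]
  | succ k ih => rw [pow_succ', pow_mul, ← add_assoc, Z.comp, ih]

end

variable {p : ℕ} [Fact p.Prime] {M : Type*} [Field M] (Z : Zet p M)

/-- the power `z n ^ x` for a `p`-adic integer `x` -/
noncomputable def Zet.pw (n : ℕ) (x : ℤ_[p]) : M := Z.z n ^ x.appr n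

omit [Fact p.Prime] in
theorem Zet.ne_zero' (hp : p ≠ 0) (n : ℕ) : Z.z n ≠ 0 := (Z.prim n).ne_zero (pow_ne_zero _ hp)

/-- divisibility of integers in the `p`-adic integers -/
theorem dvd_int {n : ℕ} {a : ℤ} : (p : ℤ_[p]) ^ n ∣ (a : ℤ_[p]) ↔ (p : ℤ) ^ n ∣ a :=
  PadicInt.pow_p_dvd_int_iff n a

theorem dvd_nat {n a : ℕ} : (p : ℤ_[p]) ^ n ∣ (a : ℤ_[p]) ↔ p ^ n ∣ a := by
  have h := dvd_int (p := p) (n := n) (a := (a : ℤ))
  rw [Int.cast_natCast] at h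
  rw [h]
  exact_mod_cast Iff.rfl

theorem appr_dvd (n : ℕ) (x : ℤ_[p]) : (p : ℤ_[p]) ^ n ∣ x - x.appr n :=
  Ideal.mem_span_singleton.1 (PadicInt.appr_spec n x)

/-- powers with exponents which are congruent -/
theorem Zet.pow_congr {n a b : ℕ} (h : (p : ℤ_[p]) ^ n ∣ (a : ℤ_[p]) - b) :
    Z.z n ^ a = Z.z n ^ b := by
  have h1 : (p : ℤ) ^ n ∣ (a : ℤ) - b := by
    rw [← dvd_int]
    push_cast
    exact h
  have h2 : a ≡ b [MOD p ^ n] := by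
    rw [Nat.modEq_iff_dvd]
    rw [← dvd_neg, neg_sub]
    exact_mod_cast h1
  exact pow_eq_pow_of_modEq h2 (Z.prim n).pow_eq_one

theorem Zet.pw_eq {n a : ℕ} {x : ℤ_[p]} (h : (p : ℤ_[p]) ^ n ∣ x - a) : Z.pw n x = Z.z n ^ a := by
  apply Z.pow_congr
  have h1 := dvd_sub h (appr_dvd n x)
  have h2 : x - (a : ℤ_[p]) - (x - x.appr n) = (x.appr n : ℤ_[p]) - a := by ring
  rwa [h2] at h1

theorem Zet.pw_nat (n a : ℕ) : Z.pw n (a : ℤ_[p]) = Z.z n ^ a := by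
  apply Z.pw_eq
  rw [sub_self]
  exact dvd_zero _

@[simp] theorem Zet.pw_zero (n : ℕ) : Z.pw n 0 = 1 := by
  have h := Z.pw_nat (p := p) n 0
  rwa [Nat.cast_zero, pow_zero] at h

theorem Zet.pw_add (n : ℕ) (x y : ℤ_[p]) : Z.pw n (x + y) = Z.pw n x * Z.pw n y := by
  change Z.pw n (x + y) = Z.z n ^ x.appr n * Z.z n ^ y.appr n
  rw [← pow_add]
  apply Z.pw_eq
  have h := dvd_add (appr_dvd n x) (appr_dvd n y)
  push_cast
  have h2 : x + y - ((x.appr n : ℤ_[p]) + (y.appr n : ℤ_[p])) = x - x.appr n + (y - y.appr n) := by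
    ring
  rwa [h2]

theorem Zet.pw_ne_zero (n : ℕ) (x : ℤ_[p]) : Z.pw n x ≠ 0 :=
  pow_ne_zero _ (Z.ne_zero' (Fact.out : p.Prime).ne_zero n)

theorem Zet.pw_neg (n : ℕ) (x : ℤ_[p]) : Z.pw n (-x) = (Z.pw n x)⁻¹ := by
  apply eq_inv_of_mul_eq_one_left
  rw [← Z.pw_add, neg_add_cancel, Z.pw_zero]

theorem Zet.pw_sub (n : ℕ) (x y : ℤ_[p]) : Z.pw n (x - y) = Z.pw n x / Z.pw n y := by
  rw [sub_eq_add_neg, Z.pw_add, Z.pw_neg, div_eq_mul_inv]

theorem Zet.pw_nsmul (n m : ℕ) (x : ℤ_[p]) : Z.pw n (m * x) = Z.pw n x ^ m := by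
  induction m with
  | zero => rw [Nat.cast_zero, zero_mul, Z.pw_zero, pow_zero]
  | succ m ih => rw [Nat.cast_succ, add_mul, one_mul, Z.pw_add, ih, pow_succ]

theorem Zet.pw_eq_one_iff {n : ℕ} {x : ℤ_[p]} : Z.pw n x = 1 ↔ (p : ℤ_[p]) ^ n ∣ x := by
  rw [Zet.pw, (Z.prim n).pow_eq_one_iff_dvd, ← dvd_nat (p := p)]
  have h := appr_dvd n x
  constructor
  · intro h1
    have h2 := dvd_add h h1
    rwa [sub_add_cancel] at h2
  · intro h1
    have h2 := dvd_sub h1 h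
    rwa [sub_sub_cancel] at h2

theorem Zet.pw_eq_iff {n : ℕ} {x y : ℤ_[p]} : Z.pw n x = Z.pw n y ↔ (p : ℤ_[p]) ^ n ∣ x - y := by
  rw [← Z.pw_eq_one_iff, Z.pw_sub, div_eq_one_iff_eq (Z.pw_ne_zero n y)]

theorem eq_zero_of_dvd {x : ℤ_[p]} (h : ∀ n, (p : ℤ_[p]) ^ n ∣ x) : x = 0 := by
  by_contra hx
  have h1 := h (x.valuation + 1)
  rw [← Ideal.mem_span_singleton, PadicInt.mem_span_pow_iff_le_valuation x hx] at h1
  omega

theorem Zet.pw_inj {x y : ℤ_[p]} (h : ∀ n, Z.pw n x = Z.pw n y) : x = y :=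
  sub_eq_zero.1 (eq_zero_of_dvd fun n => Z.pw_eq_iff.1 (h n))

theorem Zet.pw_comp (n k : ℕ) (x : ℤ_[p]) : Z.pw (n + k) x ^ p ^ k = Z.pw n x := by
  rw [Zet.pw, ← pow_mul, mul_comm, pow_mul, Z.comp_pow]
  symm
  apply Z.pw_eq
  exact (pow_dvd_pow _ (by omega)).trans (appr_dvd (n + k) x)

theorem Zet.pw_succ (n : ℕ) (x : ℤ_[p]) : Z.pw (n + 1) x ^ p = Z.pw n x := by
  have h := Z.pw_comp n 1 x
  rwa [pow_one] at h

theorem Zet.pw_pmul (n k : ℕ) (x : ℤ_[p]) : Z.pw (n + k) ((p : ℤ_[p]) ^ k * x) = Z.pw n x := by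
  rw [← Z.pw_comp n k x, ← Z.pw_nsmul]
  push_cast
  rfl

theorem Zet.pw_pow (n : ℕ) (x : ℤ_[p]) : Z.pw n x ^ p ^ n = 1 := by
  have h := Z.pw_comp 0 n x
  rw [zero_add] at h
  rw [h, Zet.pw, Z.zero, one_pow]

/-- compatible sequences of roots of unity are the powers with a `p`-adic exponent -/
theorem Zet.exists_pw (c : ℕ → M) (h1 : ∀ n, c n ^ p ^ n = 1) (h2 : ∀ n, c (n + 1) ^ p = c n) :
    ∃ x : ℤ_[p], ∀ n, c n = Z.pw n x := by
  have hp := (Fact.out : p.Prime)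
  have h3 : ∀ n, ∃ a : ℕ, Z.z n ^ a = c n := by
    intro n
    have : NeZero (p ^ n) := ⟨pow_ne_zero _ hp.ne_zero⟩
    obtain ⟨a, -, ha⟩ := (Z.prim n).eq_pow_of_pow_eq_one (h1 n)
    exact ⟨a, ha⟩
  choose a ha using h3
  have h4 : ∀ n, (p : ℤ_[p]) ^ n ∣ (a (n + 1) : ℤ_[p]) - a n := by
    intro n
    have h5 : Z.z n ^ a (n + 1) = Z.z n ^ a n := by
      rw [ha, ← h2, ← ha, ← pow_mul, mul_comm, pow_mul, Z.comp]
    rw [← Z.pw_nat, ← Z.pw_nat, Z.pw_eq_iff] at h5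
    exact h5
  have h5 : ∀ n k, (p : ℤ_[p]) ^ n ∣ (a (n + k) : ℤ_[p]) - a n := by
    intro n k
    induction k with
    | zero => rw [add_zero, sub_self]; exact dvd_zero _
    | succ k ih =>
      have h6 := (pow_dvd_pow (p : ℤ_[p]) (Nat.le_add_right n k)).trans (h4 (n + k))
      have h7 := dvd_add h6 ih
      rwa [sub_add_sub_cancel] at h7
  obtain ⟨L, hL⟩ := IsPrecomplete.prec' (I := IsLocalRing.maximalIdeal ℤ_[p])
    (fun n => (a n : ℤ_[p])) (fun {m n} hmn => by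
      rw [SModEq.sub_mem, PadicInt.maximalIdeal_eq_span_p, Ideal.span_singleton_pow, smul_eq_mul,
        Ideal.mul_top, Ideal.mem_span_singleton]
      obtain ⟨k, rfl⟩ := Nat.exists_eq_add_of_le hmn
      have h6 := h5 m k
      rw [← dvd_neg, neg_sub] at h6
      exact h6)
  refine ⟨L, fun n => ?_⟩
  have h6 := hL n
  rw [SModEq.sub_mem, PadicInt.maximalIdeal_eq_span_p, Ideal.span_singleton_pow, smul_eq_mul,
    Ideal.mul_top, Ideal.mem_span_singleton] at h6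
  rw [← ha, ← Z.pw_nat, Z.pw_eq_iff]
  exact h6

end Pool.Agent.Lib.MP_2f3286_ag.Fer.Ty
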