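import Pool.Agent.Lib.MP_2f3286_ag.Fer.Ty.A

/-!
# Exponents of automorphisms on the roots of the elements of a `p`-divisible group
-/

namespace Pool.Agent.Lib.MP_2f3286_ag.Fer.Ty

/-- A field with primitive roots of unity of orders `p ^ n` and a `p`-divisible subgroup `W` of its
multiplicative group. -/
structure WS (p : ℕ) (M : Type*) [Field M] extends Zet p M where
  W : Set M
  ne_zero : ∀ u ∈ W, u ≠ 0
  mul_mem : ∀ u ∈ W, ∀ v ∈ W, u * v ∈ W
  inv_mem : ∀ u ∈ W, u⁻¹ ∈ W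
  neg_one_mem : (-1 : M) ∈ W
  z_mem : ∀ n, z n ∈ W
  root : ∀ u ∈ W, ∃ v ∈ W, v ^ p = u
  root_mem : ∀ v : M, v ^ p ∈ W → v ∈ W
  one_sub : ∀ x ∈ W, 1 - x ^ p ∈ W → 1 - x ∈ W
  diff : ∀ n i, z n ^ i ≠ 1 → 1 - z n ^ i ∈ W

section basic

variable {p : ℕ} {M : Type*} [Field M] (S : WS p M)

theorem WS.one_mem : (1 : M) ∈ S.W := by
  have h := S.z_mem 0
  rwa [S.toZet.zero] at h

theorem WS.pow_mem {u : M} (hu : u ∈ S.W) (n : ℕ) : u ^ n ∈ S.W := by
  induction n with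
  | zero => rw [pow_zero]; exact S.one_mem
  | succ n ih => rw [pow_succ]; exact S.mul_mem _ ih _ hu

theorem WS.div_mem {u v : M} (hu : u ∈ S.W) (hv : v ∈ S.W) : u / v ∈ S.W := by
  rw [div_eq_mul_inv]
  exact S.mul_mem _ hu _ (S.inv_mem _ hv)

theorem WS.root_mem_pow {v : M} (n : ℕ) (h : v ^ p ^ n ∈ S.W) : v ∈ S.W := by
  induction n generalizing v with
  | zero => rwa [pow_zero, pow_one] at h
  | succ n ih =>
    apply S.root_mem
    apply ih
    rwa [← pow_mul, ← pow_succ']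

theorem WS.one_sub_pow {x : M} (hx : x ∈ S.W) (n : ℕ) (h : 1 - x ^ p ^ n ∈ S.W) :
    1 - x ∈ S.W := by
  induction n generalizing x with
  | zero => rwa [pow_zero, pow_one] at h
  | succ n ih =>
    apply S.one_sub x hx
    apply ih (S.pow_mem hx p)
    rwa [← pow_mul, ← pow_succ']

/-- a compatible sequence of roots -/
theorem WS.exists_seq {u : M} (hu : u ∈ S.W) :
    ∃ f : ℕ → M, f 0 = u ∧ (∀ n, f n ∈ S.W) ∧ ∀ n, f (n + 1) ^ p = f n := by
  classical
  have h : ∀ v : {v : M // v ∈ S.W}, ∃ v' : {v : M // v ∈ S.W}, (v' : M) ^ p = v := by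
    rintro ⟨v, hv⟩
    obtain ⟨v', h1, h2⟩ := S.root v hv
    exact ⟨⟨v', h1⟩, h2⟩
  choose g hg using h
  refine ⟨fun n => (g^[n] ⟨u, hu⟩ : {v : M // v ∈ S.W}), rfl, fun n => (g^[n] ⟨u, hu⟩).2,
    fun n => ?_⟩
  change ((g^[n + 1] ⟨u, hu⟩ : {v : M // v ∈ S.W}) : M) ^ p = _
  rw [Function.iterate_succ_apply', hg]

theorem seq_pow {f : ℕ → M} (h : ∀ n, f (n + 1) ^ p = f n) (n k : ℕ) : f (n + k) ^ p ^ k = f n := by
  induction k with
  | zero => rw [pow_zero, pow_one, add_zero]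
  | succ k ih => rw [pow_succ', pow_mul, ← add_assoc, h, ih]

end basic

variable {p : ℕ} [Fact p.Prime] {M : Type*} [Field M] (S : WS p M)
  {G : Type*} [Group G] [MulSemiringAction G M]

/-- `g` fixes `u` and multiplies each `p ^ n`-th root of `u` by `z n ^ x` -/
def WS.E (g : G) (u : M) (x : ℤ_[p]) : Prop :=
  g • u = u ∧ ∀ (n : ℕ) (v : M), v ^ p ^ n = u → g • v = S.toZet.pw n x * v

variable {S} {g h : G} {u v : M} {x y : ℤ_[p]}

theorem smul_pw (hg : ∀ n, g • S.z n = S.z n) (n : ℕ) (x : ℤ_[p]) :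
    g • S.toZet.pw n x = S.toZet.pw n x := by
  rw [Zet.pw, smul_pow', hg]

theorem smul_pw' {q : ℕ} (hg : ∀ n, g • S.z n = S.z n ^ q) (n : ℕ) (x : ℤ_[p]) :
    g • S.toZet.pw n x = S.toZet.pw n (q * x) := by
  rw [S.toZet.pw_nsmul, Zet.pw, smul_pow', hg, ← pow_mul, ← pow_mul, mul_comm]

/-- it is enough to know the action on one compatible sequence of roots -/
theorem WS.E.of_seq (hg : ∀ n, g • S.z n = S.z n) {f : ℕ → M} (hf0 : ∀ n, f n ≠ 0)
    (hf : ∀ n, f (n + 1) ^ p = f n)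
    (h : ∀ n, g • f n = S.toZet.pw n x * f n) : S.E g (f 0) x := by
  have hp := (Fact.out : p.Prime)
  refine ⟨?_, fun n v hv => ?_⟩
  · have h1 := h 0
    rw [h1, Zet.pw, S.toZet.zero, one_pow, one_mul]
  · have hfn : f n ^ p ^ n = f 0 := by
      have h1 := seq_pow hf 0 n
      rwa [zero_add] at h1
    have hv0 : (v / f n) ^ p ^ n = 1 := by
      rw [div_pow, hv, hfn, div_self (hf0 0)]
    have : NeZero (p ^ n) := ⟨pow_ne_zero _ hp.ne_zero⟩
    obtain ⟨a, -, ha⟩ := (S.prim n).eq_pow_of_pow_eq_one hv0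
    have hv' : v = S.z n ^ a * f n := by
      rw [ha, div_mul_cancel₀ _ (hf0 n)]
    rw [hv', smul_mul', smul_pow', hg, h]
    ring

/-- existence -/
theorem WS.exists_E (hg : ∀ n, g • S.z n = S.z n) (hu : u ∈ S.W) (hgu : g • u = u) :
    ∃ x, S.E g u x := by
  obtain ⟨f, hf0, hfW, hf⟩ := S.exists_seq hu
  have hne : ∀ n, f n ≠ 0 := fun n => S.ne_zero _ (hfW n)
  have hfn : ∀ n, f n ^ p ^ n = u := by
    intro n
    have h1 := seq_pow hf 0 n
    rwa [zero_add, hf0] at h1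
  obtain ⟨x, hx⟩ := S.toZet.exists_pw (fun n => g • f n / f n) (fun n => by
    rw [div_pow, ← smul_pow', hfn, hgu, div_self (S.ne_zero u hu)]) (fun n => by
    rw [div_pow, ← smul_pow', hf])
  refine ⟨x, ?_⟩
  rw [← hf0]
  refine WS.E.of_seq hg hne hf fun n => ?_
  rw [← hx, div_mul_cancel₀ _ (hne n)]

/-- uniqueness -/
theorem WS.E.unique (hu : u ∈ S.W) (h1 : S.E g u x) (h2 : S.E g u y) : x = y := by
  obtain ⟨f, hf0, hfW, hf⟩ := S.exists_seq hu
  apply S.toZet.pw_inj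
  intro n
  have hfn : f n ^ p ^ n = u := by
    have h1 := seq_pow hf 0 n
    rwa [zero_add, hf0] at h1
  have h3 := h1.2 n _ hfn
  rw [h2.2 n _ hfn] at h3
  exact (mul_right_cancel₀ (S.ne_zero _ (hfW n)) h3).symm

theorem WS.E.smul (h1 : S.E g u x) : g • u = u := h1.1

/-- products -/
theorem WS.E.mul (hg : ∀ n, g • S.z n = S.z n) (hu : u ∈ S.W) (hv : v ∈ S.W) (h1 : S.E g u x)
    (h2 : S.E g v y) : S.E g (u * v) (x + y) := by
  obtain ⟨f, hf0, hfW, hf⟩ := S.exists_seq hu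
  obtain ⟨f', hf0', hfW', hf'⟩ := S.exists_seq hv
  have hfn : ∀ n, f n ^ p ^ n = u := by
    intro n
    have h1 := seq_pow hf 0 n
    rwa [zero_add, hf0] at h1
  have hfn' : ∀ n, f' n ^ p ^ n = v := by
    intro n
    have h1 := seq_pow hf' 0 n
    rwa [zero_add, hf0'] at h1
  have h3 : S.E g (f 0 * f' 0) (x + y) := by
    refine WS.E.of_seq (f := fun n => f n * f' n) hg
      (fun n => mul_ne_zero (S.ne_zero _ (hfW n)) (S.ne_zero _ (hfW' n))) (fun n => ?_) fun n => ?_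
    · rw [mul_pow, hf, hf']
    · rw [smul_mul', h1.2 n _ (hfn n), h2.2 n _ (hfn' n), S.toZet.pw_add]
      ring
  rwa [hf0, hf0'] at h3

theorem WS.E.one (hg : ∀ n, g • S.z n = S.z n) : S.E g 1 0 := by
  have h := WS.E.of_seq (S := S) (g := g) (x := 0) (f := fun _ => 1) hg
    (fun n => one_ne_zero) (fun n => one_pow p) (fun n => by
      rw [smul_one, S.toZet.pw_zero, one_mul])
  exact h

theorem WS.E.inv (hg : ∀ n, g • S.z n = S.z n) (hu : u ∈ S.W) (h1 : S.E g u x) :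
    S.E g u⁻¹ (-x) := by
  obtain ⟨y, hy⟩ := WS.exists_E (g := g) hg (S.inv_mem u hu) (by rw [smul_inv'', h1.1])
  have h2 := h1.mul hg hu (S.inv_mem u hu) hy
  rw [mul_inv_cancel₀ (S.ne_zero u hu)] at h2
  have h3 := h2.unique S.one_mem (WS.E.one hg)
  rwa [← eq_neg_of_add_eq_zero_right h3]

theorem WS.E.div (hg : ∀ n, g • S.z n = S.z n) (hu : u ∈ S.W) (hv : v ∈ S.W) (h1 : S.E g u x)
    (h2 : S.E g v y) : S.E g (u / v) (x - y) := by
  rw [div_eq_mul_inv, sub_eq_add_neg]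
  exact h1.mul hg hu (S.inv_mem v hv) (h2.inv hg hv)

theorem WS.E.pow (hg : ∀ n, g • S.z n = S.z n) (hu : u ∈ S.W) (h1 : S.E g u x) (m : ℕ) :
    S.E g (u ^ m) (m * x) := by
  induction m with
  | zero => rw [pow_zero, Nat.cast_zero, zero_mul]; exact WS.E.one hg
  | succ m ih =>
    rw [pow_succ, Nat.cast_succ, add_mul, one_mul]
    exact ih.mul hg (S.pow_mem hu m) hu h1

/-- finite products -/
theorem WS.E.prod (hg : ∀ n, g • S.z n = S.z n) {ι : Type*} (s : Finset ι) {f : ι → M}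
    {e : ι → ℤ_[p]} (hf : ∀ i ∈ s, f i ∈ S.W) (h : ∀ i ∈ s, S.E g (f i) (e i)) :
    S.E g (∏ i ∈ s, f i) (∑ i ∈ s, e i) ∧ ∏ i ∈ s, f i ∈ S.W := by
  classical
  induction s using Finset.induction_on with
  | empty => exact ⟨WS.E.one hg, S.one_mem⟩
  | insert a s ha ih =>
    rw [Finset.prod_insert ha, Finset.sum_insert ha]
    obtain ⟨h1, h2⟩ := ih (fun i hi => hf i (Finset.mem_insert_of_mem hi))
      (fun i hi => h i (Finset.mem_insert_of_mem hi))
    exact ⟨(h a (Finset.mem_insert_self a s)).mul hg (hf a (Finset.mem_insert_self a s)) h2 h1,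
      S.mul_mem _ (hf a (Finset.mem_insert_self a s)) _ h2⟩

/-- composition -/
theorem WS.E.comp (hg : ∀ n, g • S.z n = S.z n) (h1 : S.E g u x) (h2 : S.E h u y) :
    S.E (g * h) u (x + y) := by
  refine ⟨by rw [mul_smul, h2.1, h1.1], fun n v hv => ?_⟩
  rw [mul_smul, h2.2 n v hv, smul_mul', smul_pw hg, h1.2 n v hv, S.toZet.pw_add]
  ring

theorem WS.E.gpow (hg : ∀ n, g • S.z n = S.z n) (h1 : S.E g u x) (m : ℕ) :
    S.E (g ^ m) u (m * x) := by
  induction m with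
  | zero =>
    rw [pow_zero, Nat.cast_zero, zero_mul]
    exact ⟨one_smul G u, fun n v _ => by rw [one_smul, S.toZet.pw_zero, one_mul]⟩
  | succ m ih =>
    rw [pow_succ', Nat.cast_succ, add_mul, one_mul, add_comm]
    exact h1.comp hg ih

/-- roots -/
theorem WS.E.of_root (hg : ∀ n, g • S.z n = S.z n) (hv : v ∈ S.W) (h1 : S.E g v x) (n : ℕ) :
    S.E g (v ^ p ^ n) ((p : ℤ_[p]) ^ n * x) := by
  have h2 := h1.pow hg hv (p ^ n)
  push_cast at h2
  exact h2

/-- the exponent is zero if all the roots are fixed -/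
theorem WS.E.zero_iff (hu : u ∈ S.W) (h1 : S.E g u x) :
    x = 0 ↔ ∀ (n : ℕ) (v : M), v ^ p ^ n = u → g • v = v := by
  constructor
  · rintro rfl n v hv
    rw [h1.2 n v hv, S.toZet.pw_zero, one_mul]
  · intro h2
    refine h1.unique hu ⟨h1.1, fun n v hv => ?_⟩
    rw [h2 n v hv, S.toZet.pw_zero, one_mul]

omit [Fact p.Prime] in
theorem gpow_z (hg : ∀ n, g • S.z n = S.z n) (m n : ℕ) : g ^ m • S.z n = S.z n := by
  induction m with
  | zero => rw [pow_zero, one_smul]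
  | succ m ih => rw [pow_succ, mul_smul, hg, ih]

/-- conjugation: if `h g = g ^ q h` on `W`, then `u` and `h u` have the same exponents for `g` -/
theorem WS.E.conj {q : ℕ} (hq : q ≠ 0) (hg : ∀ n, g • S.z n = S.z n)
    (hh : ∀ n, h • S.z n = S.z n ^ q)
    (hhW : ∀ w ∈ S.W, h • w ∈ S.W)
    (hrel : ∀ w ∈ S.W, h • g • w = g ^ q • h • w) (hu : u ∈ S.W) (h1 : S.E g u x)
    (hhu : g • h • u = h • u) : S.E g (h • u) x := by
  obtain ⟨y, hy⟩ := WS.exists_E hg (hhW u hu) hhu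
  obtain ⟨f, hf0, hfW, hf⟩ := S.exists_seq hu
  have hfn : ∀ n, f n ^ p ^ n = u := by
    intro n
    have h1 := seq_pow hf 0 n
    rwa [zero_add, hf0] at h1
  have h2 : (q : ℤ_[p]) * x = q * y := by
    apply S.toZet.pw_inj
    intro n
    have h3 := hrel (f n) (hfW n)
    rw [h1.2 n _ (hfn n), smul_mul', smul_pw' hh,
      (hy.gpow hg q).2 n (h • f n) (by rw [← smul_pow', hfn])] at h3
    exact mul_right_cancel₀ (S.ne_zero _ (hhW _ (hfW n))) h3
  have h3 : x = y := mul_left_cancel₀ (Nat.cast_ne_zero.2 hq) h2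
  rwa [h3]

end Pool.Agent.Lib.MP_2f3286_ag.Fer.Ty
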