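import Pool.Agent.Lib.MP_2f3286_ag.Fer.Ty.B

/-!
# The exponent of `1 - P` if the exponent of `P` is zero and the class of `P` is not trivial
-/

namespace Pool.Agent.Lib.MP_2f3286_ag.Fer.Ty

/-- sums of functions which are constant on the orbits of a permutation with long orbits -/
theorem sum_dvd {X : Type*} [Fintype X] {R : Type*} [CommRing R] (τ : Equiv.Perm X)
    (g : X → R) (hg : ∀ i, g (τ i) = g i) (D : ℕ)
    (hD : ∀ i d, 0 < d → (τ ^ d) i = i → D ∣ d) : (D : R) ∣ ∑ i, g i := by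
  classical
  let H := Subgroup.zpowers τ
  have hn : ∀ (k : ℕ) i, g ((τ ^ k) i) = g i := by
    intro k
    induction k with
    | zero => intro i; rw [pow_zero, Equiv.Perm.one_apply]
    | succ k ih => intro i; rw [pow_succ', Equiv.Perm.mul_apply, hg, ih]
  have hz : ∀ (k : ℤ) i, g ((τ ^ k) i) = g i := by
    intro k i
    obtain ⟨m, rfl | rfl⟩ := Int.eq_nat_or_neg k
    · rw [zpow_natCast, hn]
    · have h1 := hn m ((τ ^ (-(m : ℤ))) i)
      rw [← h1, ← Equiv.Perm.mul_apply, ← zpow_natCast, ← zpow_add, add_neg_cancel, zpow_zero,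
        Equiv.Perm.one_apply]
  rw [← Finset.sum_fiberwise Finset.univ (fun i => (Quotient.mk (MulAction.orbitRel H X) i)) g]
  refine Finset.dvd_sum fun ω _ => ?_
  induction ω using Quotient.inductionOn with
  | h x =>
  have hmem : ∀ i, Quotient.mk (MulAction.orbitRel H X) i = Quotient.mk (MulAction.orbitRel H X) x ↔
      i ∈ MulAction.orbit H x := by
    intro i
    rw [Quotient.eq]
    exact MulAction.orbitRel_apply
  have h1 : ∀ i ∈ Finset.univ.filter (fun i => Quotient.mk (MulAction.orbitRel H X) i =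
      Quotient.mk (MulAction.orbitRel H X) x), g i = g x := by
    intro i hi
    rw [Finset.mem_filter] at hi
    obtain ⟨⟨_, k, rfl⟩, hk⟩ := (hmem i).1 hi.2
    rw [← hk]
    exact hz k x
  rw [Finset.sum_congr rfl h1, Finset.sum_const, nsmul_eq_mul]
  refine Dvd.dvd.mul_right (Nat.cast_dvd_cast ?_) _
  have h2 : (Finset.univ.filter (fun i => Quotient.mk (MulAction.orbitRel H X) i =
      Quotient.mk (MulAction.orbitRel H X) x)).card =
      Function.minimalPeriod (fun i => τ • i) x := by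
    rw [MulAction.minimalPeriod_eq_card, ← Set.toFinset_card]
    congr 1
    ext i
    rw [Finset.mem_filter, Set.mem_toFinset, hmem]
    exact ⟨fun h => h.2, fun h => ⟨Finset.mem_univ _, h⟩⟩
  rw [h2]
  have h3 : Function.IsPeriodicPt (fun i => τ • i) (Function.minimalPeriod (fun i => τ • i) x) x :=
    Function.isPeriodicPt_minimalPeriod _ _
  have h4 : 0 < Function.minimalPeriod (fun i => τ • i) x := by
    rw [MulAction.minimalPeriod_eq_card, Fintype.card_pos_iff]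
    exact ⟨⟨x, MulAction.mem_orbit_self x⟩⟩
  refine hD x _ h4 ?_
  have h5 : ∀ k, (fun i => τ • i)^[k] x = (τ ^ k) x := by
    intro k
    induction k with
    | zero => rfl
    | succ k ih =>
      rw [Function.iterate_succ_apply', ih, pow_succ', Equiv.Perm.mul_apply]
      rfl
  rw [← h5]
  exact h3

/-- divisibility of the index of a geometric sum -/
theorem geom_dvd {p Q : ℕ} (hp : p.Prime) (hQ2 : 2 ≤ Q) (hQ : (Q : ZMod p) = 1) (J K : ℕ)
    (hK : ∑ t ∈ Finset.range (p ^ J), Q ^ t < p ^ K) {d : ℕ} (hd : 0 < d)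
    (h : p ^ K ∣ ∑ t ∈ Finset.range d, Q ^ t) : p ^ J ∣ d := by
  obtain ⟨j, d', hd', rfl⟩ := Nat.exists_eq_pow_mul_and_not_dvd hd.ne' p hp.one_lt.ne'
  rcases le_or_gt J j with hJ | hJ
  · exact Dvd.dvd.mul_right (pow_dvd_pow p hJ) d'
  exfalso
  have e1 : ∑ t ∈ Finset.range (p ^ j * d'), Q ^ t =
      (∑ t ∈ Finset.range d', (Q ^ p ^ j) ^ t) * ∑ t ∈ Finset.range (p ^ j), Q ^ t := by
    have h1 := geom_sum_mul (Q : ℤ) (p ^ j * d')
    have h2 := geom_sum_mul (Q : ℤ) (p ^ j)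
    have h3 := geom_sum_mul ((Q : ℤ) ^ p ^ j) d'
    have h4 : (Q : ℤ) - 1 ≠ 0 := by
      have : (2 : ℤ) ≤ Q := by exact_mod_cast hQ2
      omega
    have h5 : ((∑ t ∈ Finset.range (p ^ j * d'), Q ^ t : ℕ) : ℤ) =
        ((∑ t ∈ Finset.range d', (Q ^ p ^ j) ^ t) * ∑ t ∈ Finset.range (p ^ j), Q ^ t : ℕ) := by
      push_cast
      apply mul_right_cancel₀ h4
      rw [h1, mul_assoc, h2, h3, ← pow_mul]
    exact_mod_cast h5
  rw [e1] at h
  have h6 : ¬ p ∣ ∑ t ∈ Finset.range d', (Q ^ p ^ j) ^ t := by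
    intro h7
    apply hd'
    rw [← ZMod.natCast_eq_zero_iff] at h7 ⊢
    rw [← h7]
    push_cast
    simp only [hQ, one_pow, Finset.sum_const, Finset.card_range, nsmul_eq_mul, mul_one]
  have h7 : p ^ K ∣ ∑ t ∈ Finset.range (p ^ j), Q ^ t :=
    (Nat.Coprime.pow_left K ((Nat.Prime.coprime_iff_not_dvd hp).2 h6)).dvd_of_dvd_mul_left h
  have h8 : 0 < ∑ t ∈ Finset.range (p ^ j), Q ^ t := by
    apply Finset.sum_pos (fun t _ => pow_pos (by omega) t)
    rw [Finset.nonempty_range_iff]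
    exact pow_ne_zero _ hp.ne_zero
  have h9 := Nat.le_of_dvd h8 h7
  have h10 : ∑ t ∈ Finset.range (p ^ j), Q ^ t ≤ ∑ t ∈ Finset.range (p ^ J), Q ^ t :=
    Finset.sum_le_sum_of_subset (Finset.range_mono (Nat.pow_le_pow_right hp.pos hJ.le))
  omega

variable {p : ℕ} [Fact p.Prime] {M : Type*} [Field M] {S : WS p M}
  {G : Type*} [Group G] [MulSemiringAction G M]

/-- `δ` fixes the roots of unity, `Φ` is the power with exponent `q` on them, `Φ δ = δ ^ q Φ` -/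
structure WS.Act (S : WS p M) (δ Φ : G) (q : ℕ) : Prop where
  δW : ∀ u ∈ S.W, δ • u ∈ S.W
  ΦW : ∀ u ∈ S.W, Φ • u ∈ S.W
  δz : ∀ n, δ • S.z n = S.z n
  Φz : ∀ n, Φ • S.z n = S.z n ^ q
  Φ1 : Φ • S.z 1 = S.z 1
  hq : 2 ≤ q
  rel : ∀ u ∈ S.W, Φ • δ • u = δ ^ q • Φ • u
  dz : ∀ n i, S.z n ^ i ≠ 1 → S.E δ (1 - S.z n ^ i) 0

theorem WS.Act.mod {δ Φ : G} {q : ℕ} (h : S.Act δ Φ q) : (q : ZMod p) = 1 := by
  have h1 := h.Φz 1
  rw [h.Φ1] at h1
  have hz := S.prim 1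
  rw [pow_one] at hz
  have hq := h.hq
  have h2 : S.z 1 ^ (q - 1) = 1 := by
    apply mul_right_cancel₀ (hz.ne_zero (Fact.out : p.Prime).ne_zero)
    rw [← pow_succ, Nat.sub_add_cancel (by omega), one_mul]
    exact h1.symm
  have h3 : ((q - 1 : ℕ) : ZMod p) = 0 := by
    rw [ZMod.natCast_eq_zero_iff]
    exact (hz.pow_eq_one_iff_dvd _).1 h2
  rw [Nat.cast_sub (by omega), Nat.cast_one, sub_eq_zero] at h3
  exact h3

theorem prod_one_sub {n : ℕ} (P : M) :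
    1 - P ^ p ^ n = ∏ i ∈ Finset.range (p ^ n), (1 - S.z n ^ i * P) := by
  have hp := (Fact.out : p.Prime)
  have h := X_pow_sub_C_eq_prod (S.prim n) (α := P) (a := P ^ p ^ n) (pow_pos hp.pos n) rfl
  have h1 := congrArg (Polynomial.eval 1) h
  simp only [Polynomial.eval_sub, Polynomial.eval_pow, Polynomial.eval_X, Polynomial.eval_C,
    Polynomial.eval_prod, one_pow] at h1
  exact h1

/-- the periods of the affine map `i ↦ Q i + a` -/
theorem affine_pow {N : ℕ} (τ : Equiv.Perm (ZMod N)) {Q a : ℕ}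
    (hτ : ∀ i, τ i = (Q : ZMod N) * i + a) (d : ℕ) (i : ZMod N) :
    (τ ^ d) i = (Q : ZMod N) ^ d * i + a * ∑ t ∈ Finset.range d, (Q : ZMod N) ^ t := by
  induction d with
  | zero => rw [pow_zero, Equiv.Perm.one_apply, pow_zero, one_mul, Finset.sum_range_zero, mul_zero,
      add_zero]
  | succ d ih =>
    rw [pow_succ', Equiv.Perm.mul_apply, ih, hτ, geom_sum_succ]
    ring

/-- `p ^ n` divides `x y` and `p ^ t` does not divide `x` -/
theorem dvd_of_mul {p : ℕ} (hp : p.Prime) {n t x y : ℕ} (hx : ¬ p ^ t ∣ x) (h : p ^ n ∣ x * y) :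
    p ^ (n - t) ∣ y := by
  obtain ⟨d₁, d₂, h1, h2, h3⟩ := exists_dvd_and_dvd_of_dvd_mul h
  obtain ⟨i, -, rfl⟩ := (Nat.dvd_prime_pow hp).1 (Dvd.intro _ h3.symm : d₁ ∣ p ^ n)
  obtain ⟨j, -, rfl⟩ := (Nat.dvd_prime_pow hp).1 (Dvd.intro_left _ h3.symm : d₂ ∣ p ^ n)
  have hi : i < t := by
    by_contra hcon
    exact hx ((pow_dvd_pow p (not_lt.1 hcon)).trans h1)
  rw [← pow_add] at h3
  have h4 := Nat.pow_right_injective hp.two_le h3
  exact (pow_dvd_pow p (by omega)).trans h2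

theorem affine_period {p : ℕ} (hp : p.Prime) {Q a t n J : ℕ} (hQ2 : 2 ≤ Q)
    (hQ : (Q : ZMod p) = 1) (ht : p ^ t ∣ Q - 1) (hc : ¬ p ^ t ∣ a)
    (hK : ∑ t ∈ Finset.range (p ^ J), Q ^ t < p ^ (n - t)) (τ : Equiv.Perm (ZMod (p ^ n)))
    (hτ : ∀ i, τ i = (Q : ZMod (p ^ n)) * i + a) (i : ZMod (p ^ n)) {d : ℕ} (hd : 0 < d)
    (h : (τ ^ d) i = i) : p ^ J ∣ d := by
  have : NeZero (p ^ n) := ⟨pow_ne_zero _ hp.ne_zero⟩
  refine geom_dvd hp hQ2 hQ J (n - t) hK hd ?_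
  rw [affine_pow τ hτ] at h
  have h1 := geom_sum_mul (Q : ZMod (p ^ n)) d
  have h2 : (((Q - 1) * i.val + a : ℕ) : ZMod (p ^ n)) * ∑ t ∈ Finset.range d, (Q : ZMod (p ^ n)) ^ t
      = 0 := by
    push_cast [Nat.cast_sub (show 1 ≤ Q by omega)]
    rw [ZMod.natCast_zmod_val]
    linear_combination h + i * h1
  have h3 : p ^ n ∣ ((Q - 1) * i.val + a) * ∑ t ∈ Finset.range d, Q ^ t := by
    rw [← ZMod.natCast_eq_zero_iff]
    rw [← h2]
    push_cast
    rfl
  refine dvd_of_mul hp ?_ h3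
  intro h4
  apply hc
  exact (Nat.dvd_add_right (Dvd.dvd.mul_right ht _)).1 h4

theorem prod_range_zmod {R : Type*} [CommMonoid R] (N : ℕ) [NeZero N] (f : ℕ → R) :
    ∏ i ∈ Finset.range N, f i = ∏ i : ZMod N, f i.val := by
  refine Finset.prod_bij' (fun i _ => (i : ZMod N)) (fun i _ => i.val)
    (fun i _ => Finset.mem_univ _) (fun i _ => Finset.mem_range.2 (ZMod.val_lt i))
    (fun i hi => ZMod.val_natCast_of_lt (Finset.mem_range.1 hi))
    (fun i _ => ZMod.natCast_zmod_val i) fun i hi => ?_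
  rw [ZMod.val_natCast_of_lt (Finset.mem_range.1 hi)]

/-- **Lemma (T').** -/
theorem WS.tprime {δ φ : G} {Q : ℕ} (h : S.Act δ φ Q) (P : ℕ → M)
    (hPW : ∀ n, P n ∈ S.W) (hP : ∀ n, P (n + 1) ^ p = P n) (hδ : ∀ n, δ • P n = P n) (c : ℤ_[p])
    (hφ : ∀ n, φ • P n = S.toZet.pw n c * P n) (hc : ¬ ((Q : ℤ_[p]) - 1) ∣ c)
    (h1 : 1 - P 0 ∈ S.W) : S.E δ (1 - P 0) 0 := by
  classical
  have hp := (Fact.out : p.Prime)
  have hQ2 := h.hq
  have hδ1 : δ • (1 - P 0) = 1 - P 0 := by rw [smul_sub, smul_one, hδ]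
  obtain ⟨b, hb⟩ := WS.exists_E h.δz h1 hδ1
  suffices hb0 : b = 0 by rwa [hb0] at hb
  -- the valuation of `Q - 1`
  have hQ0 : ((Q - 1 : ℕ) : ℤ_[p]) ≠ 0 := by
    rw [Nat.cast_ne_zero]
    omega
  obtain ⟨t, u, htu⟩ : ∃ (t : ℕ) (u : ℤ_[p]ˣ), ((Q - 1 : ℕ) : ℤ_[p]) = u * (p : ℤ_[p]) ^ t :=
    ⟨_, _, PadicInt.unitCoeff_spec hQ0⟩
  have ht : p ^ t ∣ Q - 1 := by
    rw [← dvd_nat (p := p), htu]
    exact Dvd.intro_left _ rfl
  have htc : ¬ (p : ℤ_[p]) ^ t ∣ c := by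
    intro h2
    apply hc
    have h3 : (Q : ℤ_[p]) - 1 = u * (p : ℤ_[p]) ^ t := by
      rw [← htu, Nat.cast_sub (by omega), Nat.cast_one]
    rw [h3]
    exact (Units.mul_left_dvd).2 h2
  apply eq_zero_of_dvd
  intro J
  obtain ⟨K, hK⟩ := pow_unbounded_of_one_lt (∑ t ∈ Finset.range (p ^ J), Q ^ t) hp.one_lt
  set n := t + K with hn
  have : NeZero (p ^ n) := ⟨pow_ne_zero _ hp.ne_zero⟩
  -- the factors
  set a := c.appr n with ha
  have hac : ¬ p ^ t ∣ a := by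
    intro h2
    apply htc
    rw [← dvd_nat (p := p)] at h2
    have h3 := (pow_dvd_pow (p : ℤ_[p]) (show t ≤ n by omega)).trans (appr_dvd n c)
    have h4 := dvd_add h3 h2
    rwa [sub_add_cancel] at h4
  have hPn : P n ^ p ^ n = P 0 := by
    have h2 := seq_pow hP 0 n
    rwa [zero_add] at h2
  let F : ZMod (p ^ n) → M := fun i => 1 - S.z n ^ i.val * P n
  have hFW : ∀ i, F i ∈ S.W := by
    intro i
    refine S.one_sub_pow (S.mul_mem _ (S.pow_mem (S.z_mem n) _) _ (hPW n)) n ?_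
    rw [mul_pow, ← pow_mul, mul_comm i.val, pow_mul, (S.prim n).pow_eq_one, one_pow, one_mul, hPn]
    exact h1
  have hFδ : ∀ i, δ • F i = F i := by
    intro i
    change δ • (1 - S.z n ^ i.val * P n) = _
    rw [smul_sub, smul_one, smul_mul', smul_pow', h.δz, hδ]
  have hE : ∀ i, ∃ x, S.E δ (F i) x := fun i => WS.exists_E h.δz (hFW i) (hFδ i)
  choose g hg using hE
  have hcop : Nat.Coprime Q (p ^ n) := by
    apply Nat.Coprime.pow_right
    rw [Nat.coprime_comm, Nat.Prime.coprime_iff_not_dvd hp]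
    intro h2
    have h3 := h.mod
    rw [(ZMod.natCast_eq_zero_iff Q p).2 h2] at h3
    have : Fact (1 < p) := ⟨hp.one_lt⟩
    exact zero_ne_one h3
  let e : (ZMod (p ^ n))ˣ := ZMod.unitOfCoprime Q hcop
  let τ : Equiv.Perm (ZMod (p ^ n)) := (Units.mulLeft e).trans (Equiv.addRight (a : ZMod (p ^ n)))
  have hτ : ∀ i, τ i = (Q : ZMod (p ^ n)) * i + a := fun i => rfl
  have hFφ : ∀ i, φ • F i = F (τ i) := by
    intro i
    change φ • (1 - S.z n ^ i.val * P n) = 1 - S.z n ^ (τ i).val * P n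
    rw [smul_sub, smul_one, smul_mul', smul_pow', h.Φz, hφ, Zet.pw, ← pow_mul, ← mul_assoc,
      ← pow_add]
    congr 2
    apply pow_eq_pow_of_modEq _ (S.prim n).pow_eq_one
    apply (ZMod.natCast_eq_natCast_iff _ _ _).1
    rw [ZMod.natCast_zmod_val, hτ]
    push_cast
    rw [ZMod.natCast_zmod_val]
  have hgτ : ∀ i, g (τ i) = g i := by
    intro i
    have h2 := (hg i).conj (q := Q) (by omega) h.δz h.Φz h.ΦW h.rel (hFW i) (by
      rw [hFφ, hFδ])
    rw [hFφ] at h2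
    exact (hg (τ i)).unique (hFW _) h2
  have hsum : S.E δ (1 - P 0) (∑ i, g i) := by
    have h2 := (WS.E.prod h.δz Finset.univ (fun i _ => hFW i) (fun i _ => hg i)).1
    have h3 : ∏ i : ZMod (p ^ n), F i = 1 - P 0 := by
      rw [← hPn, prod_one_sub (S := S), prod_range_zmod (p ^ n) fun i => 1 - S.z n ^ i * P n]
    rwa [h3] at h2
  rw [hb.unique h1 hsum]
  have h2 := sum_dvd τ g hgτ (p ^ J) fun i d hd hd' =>
    affine_period hp hQ2 h.mod ht hac (by
      rw [hn, Nat.add_sub_cancel_left]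
      exact hK) τ hτ i hd hd'
  rwa [Nat.cast_pow] at h2

end Pool.Agent.Lib.MP_2f3286_ag.Fer.Ty
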