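import Pool.Agent.Lib.MP_2f3286_ag.Fer.Ty.C

/-!
# The types lemma: the exponents `a`, `b` of `f`, `1 - f` satisfy `a = 0` or `b = 0` or `a = b`
-/

namespace Pool.Agent.Lib.MP_2f3286_ag.Fer.Ty

variable {p : ℕ} [Fact p.Prime] {M : Type*} [Field M] {S : WS p M}
  {G : Type*} [Group G] [MulSemiringAction G M]

theorem WS.Act.δW' {δ Φ : G} {q : ℕ} (h : S.Act δ Φ q) (a : ℕ) {u : M} (hu : u ∈ S.W) :
    δ ^ a • u ∈ S.W := by
  induction a with
  | zero => rwa [pow_zero, one_smul]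
  | succ a ih => rw [pow_succ', mul_smul]; exact h.δW _ ih

theorem WS.Act.ΦW' {δ Φ : G} {q : ℕ} (h : S.Act δ Φ q) (a : ℕ) {u : M} (hu : u ∈ S.W) :
    Φ ^ a • u ∈ S.W := by
  induction a with
  | zero => rwa [pow_zero, one_smul]
  | succ a ih => rw [pow_succ', mul_smul]; exact h.ΦW _ ih

theorem WS.Act.rel1 {δ Φ : G} {q : ℕ} (h : S.Act δ Φ q) (a : ℕ) {u : M} (hu : u ∈ S.W) :
    Φ • δ ^ a • u = δ ^ (a * q) • Φ • u := by
  induction a with
  | zero => rw [pow_zero, one_smul, zero_mul, pow_zero, one_smul]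
  | succ a ih =>
    rw [pow_succ', mul_smul, h.rel _ (h.δW' a hu), ih, smul_smul, ← pow_add]
    congr 2
    ring

theorem WS.Act.relm {δ Φ : G} {q : ℕ} (h : S.Act δ Φ q) (a m : ℕ) {u : M} (hu : u ∈ S.W) :
    Φ ^ m • δ ^ a • u = δ ^ (a * q ^ m) • Φ ^ m • u := by
  induction m generalizing a u with
  | zero => rw [pow_zero, one_smul, one_smul, pow_zero, mul_one]
  | succ m ih =>
    rw [pow_succ, mul_smul, h.rel1 a hu, ih _ (h.ΦW u hu), mul_smul, mul_assoc, ← pow_succ']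

theorem WS.Act.pow {δ Φ : G} {q : ℕ} (h : S.Act δ Φ q) (a m : ℕ) (hm : 1 ≤ m) :
    S.Act (δ ^ a) (Φ ^ m) (q ^ m) := by
  have hz : ∀ (m n : ℕ), Φ ^ m • S.z n = S.z n ^ q ^ m := by
    intro m n
    induction m with
    | zero => rw [pow_zero, one_smul, pow_zero, pow_one]
    | succ m ih => rw [pow_succ', mul_smul, ih, smul_pow', h.Φz, ← pow_mul, ← pow_succ']
  refine ⟨fun u hu => h.δW' a hu, fun u hu => h.ΦW' m hu, gpow_z h.δz a, hz m, ?_, ?_, ?_, ?_⟩
  · induction m with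
    | zero => omega
    | succ m ih =>
      rcases Nat.eq_zero_or_pos m with rfl | hm0
      · rw [zero_add, pow_one, h.Φ1]
      · rw [pow_succ', mul_smul, ih hm0, h.Φ1]
  · have h1 := h.hq
    calc 2 ≤ q := h1
      _ = q ^ 1 := (pow_one q).symm
      _ ≤ q ^ m := Nat.pow_le_pow_right (by omega) hm
  · intro u hu
    rw [h.relm a m hu, ← pow_mul]
  · intro n i hi
    have h1 := (h.dz n i hi).gpow h.δz a
    rwa [mul_zero] at h1

omit [Fact p.Prime] in
/-- some power fixes a root of a fixed element and a root of unity -/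
theorem exists_fix {Φ : G} (hp : p.Prime) {f x z : M} {n : ℕ} (hf : Φ • f = f)
    (hx : x ^ p ^ n = f) (hz : z ^ p ^ n = 1) : ∃ m : ℕ, 1 ≤ m ∧ Φ ^ m • x = x ∧ Φ ^ m • z = z := by
  classical
  have hpos : 0 < p ^ n := pow_pos hp.pos n
  have hfin : ∀ u : M, {y : M | y ^ p ^ n = u}.Finite := by
    intro u
    have h1 : {y : M | y ^ p ^ n = u} ⊆ (Polynomial.nthRoots (p ^ n) u).toFinset := by
      intro y hy
      rw [Finset.mem_coe, Multiset.mem_toFinset, Polynomial.mem_nthRoots hpos]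
      exact hy
    exact Set.Finite.subset (Finset.finite_toSet _) h1
  have hiter : ∀ (m : ℕ) (u : M), Φ • u = u → Φ ^ m • u = u := by
    intro m u hu
    induction m with
    | zero => rw [pow_zero, one_smul]
    | succ m ih => rw [pow_succ, mul_smul, hu, ih]
  let s : Set (M × M) := {y : M | y ^ p ^ n = f} ×ˢ {y : M | y ^ p ^ n = 1}
  have hs : s.Finite := (hfin f).prod (hfin 1)
  have : Finite s := hs
  obtain ⟨m₁, m₂, hne, heq⟩ := Finite.exists_ne_map_eq_of_infinite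
    (fun m : ℕ => (⟨(Φ ^ m • x, Φ ^ m • z), by
      change (Φ ^ m • x) ^ p ^ n = f
      rw [← smul_pow', hx, hiter m f hf], by
      change (Φ ^ m • z) ^ p ^ n = 1
      rw [← smul_pow', hz, smul_one]⟩ : s))
  have h1 : Φ ^ m₁ • x = Φ ^ m₂ • x := congrArg (fun y : s => (y : M × M).1) heq
  have h2 : Φ ^ m₁ • z = Φ ^ m₂ • z := congrArg (fun y : s => (y : M × M).2) heq
  have key : ∀ m₁ m₂ : ℕ, m₁ < m₂ → ∀ y : M, Φ ^ m₁ • y = Φ ^ m₂ • y →
      Φ ^ (m₂ - m₁) • y = y := by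
    intro m₁ m₂ hlt y hy
    have h3 : Φ ^ m₁ • (Φ ^ (m₂ - m₁) • y) = Φ ^ m₁ • y := by
      rw [smul_smul, ← pow_add, Nat.add_sub_cancel' hlt.le, hy]
    exact smul_left_cancel _ h3
  rcases lt_or_gt_of_ne hne with hlt | hlt
  · exact ⟨m₂ - m₁, by omega, key _ _ hlt _ h1, key _ _ hlt _ h2⟩
  · exact ⟨m₁ - m₂, by omega, key _ _ hlt _ h1.symm, key _ _ hlt _ h2.symm⟩

omit [Fact p.Prime] in
theorem seq_root {u : M} {f : ℕ → M} (h0 : f 0 = u) (hf : ∀ n, f (n + 1) ^ p = f n) (n : ℕ) :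
    f n ^ p ^ n = u := by
  have h1 := seq_pow hf 0 n
  rwa [zero_add, h0] at h1

/-- step (2): `w = F / δ F` -/
theorem WS.types_two {δ Φ : G} {q N : ℕ} (h : S.Act δ Φ q) {F x : M} {ν a : ℤ_[p]}
    (hFW : F ∈ S.W) (hδF : δ ^ p ^ N • F = F)
    (hF : S.E (δ ^ p ^ N) F ν) (h1W : 1 - F / (δ • F) ∈ S.W)
    (h1 : S.E (δ ^ p ^ N) (1 - F / (δ • F)) (a - ν))
    {f : M} (hf : Φ • f = f) (hx : x ^ p ^ N = f)
    (hxF : ∀ m : ℕ, Φ ^ m • x = x → Φ ^ m • S.z N = S.z N → Φ ^ m • F = F) :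
    ν = a ∨ (p : ℤ_[p]) ^ N ∣ ν := by
  have hp := (Fact.out : p.Prime)
  by_cases hνa : ν = a
  · exact Or.inl hνa
  right
  obtain ⟨m, hm, hmx, hmz⟩ := exists_fix (p := p) (Φ := Φ) hp hf hx (S.prim N).pow_eq_one
  have hA := h.pow (p ^ N) m hm
  have hA1 := h.pow 1 m hm
  rw [pow_one] at hA1
  have hφF := hxF m hmx hmz
  set φ := Φ ^ m with hφ
  set Q := q ^ m with hQ
  -- `p ^ N` divides `Q - 1`
  have hQ1 : p ^ N ∣ Q - 1 := by
    have h2 : S.z N ^ (Q - 1) = 1 := by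
      apply mul_right_cancel₀ ((S.prim N).ne_zero (pow_ne_zero _ hp.ne_zero))
      have h3 := hA.hq
      rw [← pow_succ, Nat.sub_add_cancel (by omega), one_mul, ← hA.Φz, hmz]
    exact ((S.prim N).pow_eq_one_iff_dvd _).1 h2
  obtain ⟨m', hm'⟩ := hQ1
  have hm'0 : m' ≠ 0 := by
    rintro rfl
    have h3 := hA.hq
    omega
  -- the roots of `F`
  obtain ⟨G', hG0, hGW, hGs⟩ := S.exists_seq hFW
  have hGn := seq_root hG0 hGs
  have hGne : ∀ n, G' n ≠ 0 := fun n => S.ne_zero _ (hGW n)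
  have hδG : ∀ n, δ • G' n ∈ S.W := fun n => h.δW _ (hGW n)
  have hδGne : ∀ n, δ • G' n ≠ 0 := fun n => S.ne_zero _ (hδG n)
  obtain ⟨d, hd⟩ := S.toZet.exists_pw (fun n => φ • G' n / G' n) (fun n => by
    rw [div_pow, ← smul_pow', hGn, hφF, div_self (S.ne_zero _ hFW)]) (fun n => by
    rw [div_pow, ← smul_pow', hGs])
  have hφG : ∀ n, φ • G' n = S.toZet.pw n d * G' n := by
    intro n
    rw [← hd, div_mul_cancel₀ _ (hGne n)]
  have hcomm : ∀ u : M, δ ^ p ^ N • δ • u = δ • δ ^ p ^ N • u := by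
    intro u
    rw [smul_smul, smul_smul, ← pow_succ, ← pow_succ']
  have hEδ : S.E (δ ^ p ^ N) (δ • F) ν := by
    refine hF.conj (q := 1) one_ne_zero hA.δz (fun n => by rw [pow_one, h.δz]) h.δW
      (fun u _ => by rw [pow_one, hcomm]) hFW ?_
    rw [hcomm, hδF]
  have hδNG : ∀ n, δ ^ p ^ N • G' n = S.toZet.pw n ν * G' n := fun n => hF.2 n _ (hGn n)
  have hδNδG : ∀ n, δ ^ p ^ N • δ • G' n = S.toZet.pw n ν * δ • G' n := fun n =>
    hEδ.2 n _ (by rw [← smul_pow', hGn])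
  have hφδG : ∀ n, φ • δ • G' n =
      S.toZet.pw n d * (S.toZet.pw n (m' * ν) * δ • G' n) := by
    intro n
    rw [hA1.rel _ (hGW n), hφG, smul_mul', smul_pw (gpow_z h.δz Q)]
    congr 1
    have e1 : δ ^ Q • G' n = (δ ^ p ^ N) ^ m' • δ • G' n := by
      have h3 := hA.hq
      rw [smul_smul, ← pow_mul, ← hm', ← pow_succ, Nat.sub_add_cancel (by omega)]
    rw [e1]
    exact (hEδ.gpow hA.δz m').2 n _ (by rw [← smul_pow', hGn])
  by_cases hdvd : ((Q : ℤ_[p]) - 1) ∣ -(m' * ν)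
  · have h2 : (Q : ℤ_[p]) - 1 = m' * (p : ℤ_[p]) ^ N := by
      have h3 := hA.hq
      have h4 : ((Q - 1 : ℕ) : ℤ_[p]) = (Q : ℤ_[p]) - 1 := by
        rw [Nat.cast_sub (by omega), Nat.cast_one]
      rw [← h4, hm']
      push_cast
      ring
    rw [h2, dvd_neg] at hdvd
    exact (mul_dvd_mul_iff_left (Nat.cast_ne_zero.2 hm'0)).1 hdvd
  exfalso
  have h2 := WS.tprime hA (fun n => G' n / (δ • G' n)) (fun n => S.div_mem (hGW n) (hδG n))
    (fun n => by rw [div_pow, ← smul_pow', hGs]) (fun n => by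
      rw [smul_div₀', hδNG, hδNδG, mul_div_mul_left _ _ (S.toZet.pw_ne_zero n ν)])
    (-(m' * ν)) (fun n => by
      rw [smul_div₀', hφG, hφδG, mul_div_mul_left _ _ (S.toZet.pw_ne_zero n d), S.toZet.pw_neg]
      have := S.toZet.pw_ne_zero n (m' * ν)
      have := hδGne n
      field_simp) hdvd (by
      rw [hG0]
      exact h1W)
  rw [hG0] at h2
  have h3 := h1.unique h1W h2
  exact hνa (sub_eq_zero.1 h3).symm

theorem WS.types_half {δ Φ : G} {q : ℕ} (h : S.Act δ Φ q) {f : M} (hf : f ∈ S.W)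
    (h1 : 1 - f ∈ S.W) (hΦ : Φ • f = f) {a b : ℤ_[p]} (ha : S.E δ f a)
    (hb : S.E δ (1 - f) b) (ha0 : a ≠ 0) :
    ∃ n m : ℕ, m ≤ p ^ n ∧ ((p ^ n : ℕ) : ℤ_[p]) * b = m * a := by
  classical
  have hp := (Fact.out : p.Prime)
  obtain ⟨x, hx0, hxW, hxs⟩ := S.exists_seq hf
  have hxn := seq_root hx0 hxs
  have hz := h.δz
  set α := a.valuation with hα
  have hαa : (p : ℤ_[p]) ^ α ∣ a := by
    rw [← Ideal.mem_span_singleton, PadicInt.mem_span_pow_iff_le_valuation a ha0]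
  have hαa' : ¬ (p : ℤ_[p]) ^ (α + 1) ∣ a := by
    rw [← Ideal.mem_span_singleton, PadicInt.mem_span_pow_iff_le_valuation a ha0]
    omega
  let F : ℕ → ℕ → M := fun N i => 1 - S.z N ^ i * x N
  have hFW : ∀ N i, F N i ∈ S.W := by
    intro N i
    refine S.one_sub_pow (S.mul_mem _ (S.pow_mem (S.z_mem N) _) _ (hxW N)) N ?_
    rw [mul_pow, ← pow_mul, mul_comm i, pow_mul, (S.prim N).pow_eq_one, one_pow, one_mul, hxn]
    exact h1
  -- the action of the powers of `δ`
  have hδx : ∀ k N, δ ^ k • x N = S.z N ^ (k * a.appr N) * x N := by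
    intro k N
    rw [(ha.gpow hz k).2 N _ (hxn N), S.toZet.pw_nsmul, Zet.pw, ← pow_mul, mul_comm k]
  have hδF : ∀ k N i, δ ^ k • F N i = F N (i + k * a.appr N) := by
    intro k N i
    change δ ^ k • (1 - S.z N ^ i * x N) = 1 - S.z N ^ (i + k * a.appr N) * x N
    rw [smul_sub, smul_one, smul_mul', smul_pow', gpow_z hz, hδx, pow_add]
    ring
  have hFcongr : ∀ N i j, i ≡ j [MOD p ^ N] → F N i = F N j := by
    intro N i j hij
    change 1 - S.z N ^ i * x N = 1 - S.z N ^ j * x N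
    rw [pow_eq_pow_of_modEq hij (S.prim N).pow_eq_one]
  have hδNF : ∀ N i, δ ^ p ^ N • F N i = F N i := by
    intro N i
    rw [hδF]
    apply hFcongr
    rw [Nat.ModEq, Nat.add_mul_mod_self_left]
  have hδNx : ∀ N, δ ^ p ^ N • x N = x N := by
    intro N
    rw [hδx, pow_mul, (S.prim N).pow_eq_one, one_pow, one_mul]
  have hE : ∀ N i, ∃ y, S.E (δ ^ p ^ N) (F N i) y := fun N i =>
    WS.exists_E (gpow_z hz _) (hFW N i) (hδNF N i)
  choose ν hν using hE
  -- the exponent of `x N`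
  have hEx : ∀ N, S.E (δ ^ p ^ N) (x N) a := by
    intro N
    obtain ⟨y, hy⟩ := WS.exists_E (gpow_z hz _) (hxW N) (hδNx N)
    have h2 := hy.of_root (gpow_z hz _) (hxW N) N
    rw [hxn] at h2
    have h3 := (ha.gpow hz (p ^ N)).unique hf h2
    push_cast at h3
    have h4 : a = y := mul_left_cancel₀ (pow_ne_zero _ (Nat.cast_ne_zero.2 hp.ne_zero)) h3
    rwa [h4]
  have hcomm : ∀ (k l : ℕ) (u : M), δ ^ k • δ ^ l • u = δ ^ l • δ ^ k • u := by
    intro k l u
    rw [smul_smul, smul_smul, ← pow_add, ← pow_add, add_comm]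
  have hνδ : ∀ N i k, ν N (i + k * a.appr N) = ν N i := by
    intro N i k
    have h2 := (hν N i).conj (q := 1) (h := δ ^ k) one_ne_zero (gpow_z hz _)
      (fun n => by rw [pow_one, gpow_z hz]) (fun u hu => h.δW' k hu)
      (fun u _ => by rw [pow_one, hcomm]) (hFW N i) (by rw [hcomm, hδNF])
    rw [hδF] at h2
    exact (hν N _).unique (hFW N _) h2
  have hνcongr : ∀ N i j, i ≡ j [MOD p ^ N] → ν N i = ν N j := by
    intro N i j hij
    have h2 := hν N i
    rw [hFcongr N i j hij] at h2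
    exact h2.unique (hFW N j) (hν N j)
  -- step (1)
  have step1 : ∀ N i, α ≤ N → ν N i = ν (N + 1) i := by
    intro N i hN
    have hall : ∀ t, ν (N + 1) (i + p ^ N * t) = ν (N + 1) i := by
      intro t
      -- solve `k a = p ^ N t`
      set a' := a.appr (N + 1) with ha'
      have h2 : p ^ α ∣ a' := by
        rw [← dvd_nat (p := p)]
        have h3 := (pow_dvd_pow (p : ℤ_[p]) (show α ≤ N + 1 by omega)).trans (appr_dvd (N + 1) a)
        have h4 := dvd_sub hαa h3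
        rwa [sub_sub_cancel] at h4
      obtain ⟨u, hu⟩ := h2
      have hpu : ¬ p ∣ u := by
        intro h3
        apply hαa'
        have h4 : p ^ (α + 1) ∣ a' := by
          rw [hu, pow_succ]
          exact mul_dvd_mul_left _ h3
        rw [← dvd_nat (p := p)] at h4
        have h5 := (pow_dvd_pow (p : ℤ_[p]) (show α + 1 ≤ N + 1 by omega)).trans
          (appr_dvd (N + 1) a)
        have h6 := dvd_add h5 h4
        rwa [sub_add_cancel] at h6
      obtain ⟨m, -, hm⟩ := Nat.exists_mul_mod_eq_of_coprime (k := p ^ (N + 1)) (n := u) 1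
        (Nat.Coprime.pow_right _ ((Nat.Prime.coprime_iff_not_dvd hp).2 hpu).symm)
        (pow_ne_zero _ hp.ne_zero)
      have h3 : i + p ^ N * t ≡ i + (m * p ^ (N - α) * t) * a' [MOD p ^ (N + 1)] := by
        apply Nat.ModEq.add_left
        have e1 : (m * p ^ (N - α) * t) * a' = (u * m) * (p ^ N * t) := by
          rw [hu]
          have e2 : p ^ N = p ^ (N - α) * p ^ α := by
            rw [← pow_add, Nat.sub_add_cancel hN]
          rw [e2]
          ring
        rw [e1]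
        have e3 : u * m ≡ 1 [MOD p ^ (N + 1)] := hm
        have e4 := Nat.ModEq.mul_right (p ^ N * t) e3
        rw [one_mul] at e4
        exact e4.symm
      rw [hνcongr _ _ _ h3, hνδ]
    have h2 : F N i = ∏ t ∈ Finset.range (p ^ 1), F (N + 1) (i + p ^ N * t) := by
      have h3 := prod_one_sub (S := S) (n := 1) (S.z (N + 1) ^ i * x (N + 1))
      have h4 : (S.z (N + 1) ^ i * x (N + 1)) ^ p ^ 1 = S.z N ^ i * x N := by
        rw [pow_one, mul_pow, ← pow_mul, mul_comm i, pow_mul, S.comp, hxs]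
      rw [h4] at h3
      change 1 - S.z N ^ i * x N = _
      rw [h3]
      refine Finset.prod_congr rfl fun t _ => ?_
      change 1 - S.z 1 ^ t * (S.z (N + 1) ^ i * x (N + 1)) =
        1 - S.z (N + 1) ^ (i + p ^ N * t) * x (N + 1)
      have h5 := S.toZet.comp_pow 1 N
      rw [add_comm 1 N] at h5
      rw [← h5, pow_add, pow_mul]
      ring
    have h3 := (hν N i).gpow (gpow_z hz _) p
    rw [← pow_mul, ← pow_succ, h2] at h3
    have h4 := (WS.E.prod (gpow_z hz (p ^ (N + 1))) (Finset.range (p ^ 1))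
      (fun t _ => hFW (N + 1) (i + p ^ N * t)) (fun t _ => hν (N + 1) (i + p ^ N * t)))
    have h5 := h3.unique h4.2 h4.1
    simp only [hall, Finset.sum_const, Finset.card_range, pow_one, nsmul_eq_mul] at h5
    exact mul_left_cancel₀ (Nat.cast_ne_zero.2 hp.ne_zero) h5
  -- step (2)
  have step2 : ∀ N i, α < N → ν N i = a ∨ (p : ℤ_[p]) ^ N ∣ ν N i := by
    intro N i hN
    have hza : S.z N ^ a.appr N ≠ 1 := by
      intro h2
      apply hαa'
      have h3 : S.toZet.pw N a = 1 := h2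
      rw [Zet.pw_eq_one_iff] at h3
      exact (pow_dvd_pow _ (by omega)).trans h3
    have hδF1 : δ • F N i = F N (i + a.appr N) := by
      have h2 := hδF 1 N i
      rwa [pow_one, one_mul] at h2
    have hδFne : F N (i + a.appr N) ≠ 0 := S.ne_zero _ (hFW _ _)
    have e1 : 1 - F N i / (δ • F N i) =
        S.z N ^ i * (1 - S.z N ^ a.appr N) * x N / F N (i + a.appr N) := by
      rw [hδF1, eq_div_iff hδFne, sub_mul, div_mul_cancel₀ _ hδFne]
      change 1 * (1 - S.z N ^ (i + a.appr N) * x N) - (1 - S.z N ^ i * x N) = _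
      rw [pow_add]
      ring
    have hW1 : S.z N ^ i * (1 - S.z N ^ a.appr N) ∈ S.W :=
      S.mul_mem _ (S.pow_mem (S.z_mem N) i) _ (S.diff N _ hza)
    have hgz := gpow_z hz (p ^ N)
    have hEzi : S.E (δ ^ p ^ N) (S.z N ^ i) 0 := by
      have h2 : S.E (δ ^ p ^ N) (S.z N ^ i) ((i : ℤ_[p]) * 0) := by
        refine WS.E.pow hgz (S.z_mem N) ⟨hgz N, fun n v hv => ?_⟩ i
        rw [S.toZet.pw_zero, one_mul]
        have h3 : v ^ p ^ (N + n) = 1 := by
          rw [add_comm, pow_add, pow_mul, hv, (S.prim N).pow_eq_one]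
        have : NeZero (p ^ (N + n)) := ⟨pow_ne_zero _ hp.ne_zero⟩
        obtain ⟨j, -, rfl⟩ := (S.prim (N + n)).eq_pow_of_pow_eq_one h3
        rw [smul_pow', hgz]
      rwa [mul_zero] at h2
    have hE1 : S.E (δ ^ p ^ N) (S.z N ^ i * (1 - S.z N ^ a.appr N)) 0 := by
      have h2 := (h.dz N _ hza).gpow hz (p ^ N)
      rw [mul_zero] at h2
      have h3 := hEzi.mul hgz (S.pow_mem (S.z_mem N) i) (S.diff N _ hza) h2
      rwa [add_zero] at h3
    have hE2 : S.E (δ ^ p ^ N) (1 - F N i / (δ • F N i)) (a - ν N i) := by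
      rw [e1]
      have h2 := (hE1.mul hgz hW1 (hxW N) (hEx N)).div hgz (S.mul_mem _ hW1 _ (hxW N))
        (hFW N (i + a.appr N)) (hν N (i + a.appr N))
      have h3 := hνδ N i 1
      rw [one_mul] at h3
      rwa [zero_add, h3] at h2
    refine WS.types_two h (hFW N i) (hδNF N i) (hν N i) ?_ hE2 hΦ (hxn N) ?_
    · rw [e1]
      exact S.div_mem (S.mul_mem _ hW1 _ (hxW N)) (hFW _ _)
    · intro m h2 h3
      change Φ ^ m • (1 - S.z N ^ i * x N) = 1 - S.z N ^ i * x N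
      rw [smul_sub, smul_one, smul_mul', smul_pow', h2, h3]
  -- step (3)
  have step1' : ∀ k N i, α ≤ N → ν N i = ν (N + k) i := by
    intro k N i hN
    induction k with
    | zero => rfl
    | succ k ih => rw [ih, ← add_assoc]; exact step1 (N + k) i (by omega)
  have step3 : ∀ N i, α < N → ν N i = a ∨ ν N i = 0 := by
    intro N i hN
    by_cases h2 : ν N i = a
    · exact Or.inl h2
    right
    apply eq_zero_of_dvd (p := p)
    intro k
    rcases step2 (N + k) i (by omega) with h3 | h3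
    · rw [← step1' k N i hN.le] at h3
      exact absurd h3 h2
    · rw [← step1' k N i hN.le] at h3
      exact (pow_dvd_pow _ (by omega)).trans h3
  -- the sum
  set n := α + 1 with hn
  refine ⟨n, ((Finset.range (p ^ n)).filter fun i => ν n i = a).card, ?_, ?_⟩
  · refine (Finset.card_filter_le _ _).trans ?_
    rw [Finset.card_range]
  · have h2 := hb.gpow hz (p ^ n)
    have h3 := WS.E.prod (gpow_z hz (p ^ n)) (Finset.range (p ^ n)) (fun i _ => hFW n i)
      (fun i _ => hν n i)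
    have h4 : ∏ i ∈ Finset.range (p ^ n), F n i = 1 - f := by
      have h5 := prod_one_sub (S := S) (n := n) (x n)
      rw [hxn] at h5
      exact h5.symm
    rw [h4] at h3
    rw [h2.unique h1 h3.1, Finset.card_filter, Nat.cast_sum, Finset.sum_mul]
    refine Finset.sum_congr rfl fun i _ => ?_
    rcases step3 n i (by omega) with h5 | h5
    · rw [if_pos h5, Nat.cast_one, one_mul, h5]
    · rw [if_neg (fun h6 => ha0 (by rw [← h6, h5])), Nat.cast_zero, zero_mul, h5]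

/-- **The types lemma.** -/
theorem WS.types {δ Φ : G} {q : ℕ} (h : S.Act δ Φ q) {f : M} (hf : f ∈ S.W)
    (h1 : 1 - f ∈ S.W) (hΦ : Φ • f = f) {a b : ℤ_[p]} (ha : S.E δ f a)
    (hb : S.E δ (1 - f) b) : a = 0 ∨ b = 0 ∨ a = b := by
  have hp := (Fact.out : p.Prime)
  by_cases ha0 : a = 0
  · exact Or.inl ha0
  by_cases hb0 : b = 0
  · exact Or.inr (Or.inl hb0)
  right
  right
  obtain ⟨n, m, hm, e1⟩ := WS.types_half h hf h1 hΦ ha hb ha0
  have h2 : 1 - (1 - f) = f := sub_sub_cancel 1 f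
  obtain ⟨n', m', hm', e2⟩ := WS.types_half h (f := 1 - f) h1 (by rwa [h2])
    (by rw [smul_sub, smul_one, hΦ]) hb (by rwa [h2]) hb0
  have h3 : m * m' = p ^ n * p ^ n' := by
    have h4 : ((m * m' : ℕ) : ℤ_[p]) * (a * b) = ((p ^ n * p ^ n' : ℕ) : ℤ_[p]) * (a * b) := by
      have e3 : ((m * m' : ℕ) : ℤ_[p]) * (a * b) = (m * a) * (m' * b) := by
        push_cast
        ring
      rw [e3, ← e1, ← e2]
      push_cast
      ring
    exact_mod_cast mul_right_cancel₀ (mul_ne_zero ha0 hb0) h4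
  have hpos := pow_pos hp.pos n
  have hpos' := pow_pos hp.pos n'
  have h4 : m = p ^ n := by
    by_contra h5
    have h6 : m < p ^ n := lt_of_le_of_ne hm h5
    have h7 : m * m' < p ^ n * p ^ n' :=
      lt_of_le_of_lt (Nat.mul_le_mul_left m hm') (Nat.mul_lt_mul_of_pos_right h6 hpos')
    omega
  rw [h4] at e1
  exact (mul_left_cancel₀ (Nat.cast_ne_zero.2 hpos.ne') e1).symm

end Pool.Agent.Lib.MP_2f3286_ag.Fer.Ty
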