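import Mathlib

/-!
# Lifts of automorphisms of the residue field and transitivity, for closed subgroups
-/

open IsDedekindDomain NumberField
open scoped Pointwise

namespace Pool.Agent.Lib.MP_2f3286_ag.Fer.Ty

section

variable {F : Type*} [Field F] {kb : Type*} [Field kb] [Algebra F kb] [IsGalois F kb]

/-- the action on the integral elements -/
noncomputable instance actB : MulSemiringAction Gal(kb/F) (integralClosure ℤ kb) := inferInstance

theorem actB_coe (g : Gal(kb/F)) (b : integralClosure ℤ kb) :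
    ((g • b : integralClosure ℤ kb) : kb) = g (b : kb) := rfl

theorem actB_cont (H : Subgroup Gal(kb/F)) :
    letI : TopologicalSpace (integralClosure ℤ kb) := ⊥
    ContinuousSMul H (integralClosure ℤ kb) := by
  letI : TopologicalSpace (integralClosure ℤ kb) := ⊥
  have _ : DiscreteTopology (integralClosure ℤ kb) := ⟨rfl⟩
  refine (continuousSMul_iff_stabilizer_isOpen (M := H) (X := integralClosure ℤ kb)).mpr ?_
  intro b
  have h1 := stabilizer_isOpen_of_isIntegral (K := F) (b : kb)
  have h2 := h1.preimage (continuous_subtype_val : Continuous (Subtype.val : H → Gal(kb/F)))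
  have h3 : (MulAction.stabilizer H b : Set H) =
      (Subtype.val : H → Gal(kb/F)) ⁻¹' (MulAction.stabilizer Gal(kb/F) (b : kb) : Set Gal(kb/F)) := by
    ext g
    constructor
    · intro h
      exact congrArg Subtype.val h
    · intro h
      exact Subtype.ext h
  rw [h3]
  exact h2

variable {H : Subgroup Gal(kb/F)} (hH : IsClosed (H : Set Gal(kb/F)))

include hH in
/-- automorphisms of the residue field lift -/
theorem lift_residue (Q : Ideal (integralClosure ℤ kb)) [Q.IsPrime]
    (τ : (integralClosure ℤ kb ⧸ Q) ≃+* (integralClosure ℤ kb ⧸ Q))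
    (hτ : ∀ b : integralClosure ℤ kb, (∀ h ∈ H, h • b = b) →
      τ (Ideal.Quotient.mk Q b) = Ideal.Quotient.mk Q b) :
    ∃ h ∈ H, (∀ b, h • b ∈ Q ↔ b ∈ Q) ∧
      ∀ b, Ideal.Quotient.mk Q (h • b) = τ (Ideal.Quotient.mk Q b) := by
  have _ : CompactSpace H := isCompact_iff_compactSpace.mp hH.isCompact
  let _ : TopologicalSpace (integralClosure ℤ kb) := ⊥
  have _ : DiscreteTopology (integralClosure ℤ kb) := ⟨rfl⟩
  have _ : ContinuousSMul H (integralClosure ℤ kb) := actB_cont H
  let A : Subring (integralClosure ℤ kb) := FixedPoints.subring (integralClosure ℤ kb) H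
  have hinv : Algebra.IsInvariant A (integralClosure ℤ kb) H := ⟨fun b hb => ⟨⟨b, hb⟩, rfl⟩⟩
  have htd : TotallyDisconnectedSpace H := inferInstance
  have hcomm : SMulCommClass H A (integralClosure ℤ kb) := ⟨fun g r b => by
    change g • ((r : integralClosure ℤ kb) * b) = (r : integralClosure ℤ kb) * (g • b)
    rw [smul_mul']
    congr 1
    exact r.2 g⟩
  let P : Ideal A := Q.under A
  have _ : Q.LiesOver P := ⟨rfl⟩
  let τ' : (integralClosure ℤ kb ⧸ Q) ≃ₐ[A ⧸ P] (integralClosure ℤ kb ⧸ Q) :=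
    { τ with
      commutes' := by
        intro r
        obtain ⟨r, rfl⟩ := Ideal.Quotient.mk_surjective r
        exact hτ r fun h hh => r.2 ⟨h, hh⟩ }
  obtain ⟨g, hg⟩ := Ideal.Quotient.stabilizerHom_surjective_of_profinite (G := H) P Q τ'
  have hgQ : ∀ b, Ideal.Quotient.mk Q ((g.1 : Gal(kb/F)) • b) = τ (Ideal.Quotient.mk Q b) := by
    intro b
    exact congrArg (fun f => f (Ideal.Quotient.mk Q b)) hg
  refine ⟨g.1, g.1.2, fun b => ?_, hgQ⟩
  rw [← Ideal.Quotient.eq_zero_iff_mem, ← Ideal.Quotient.eq_zero_iff_mem, hgQ,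
    EmbeddingLike.map_eq_zero_iff]

include hH in
/-- primes with the same invariant elements are conjugate -/
theorem trans_prime (Q Q' : Ideal (integralClosure ℤ kb)) [Q.IsPrime] [Q'.IsPrime]
    (hQ : ∀ b : integralClosure ℤ kb, (∀ h ∈ H, h • b = b) → (b ∈ Q ↔ b ∈ Q')) :
    ∃ h ∈ H, ∀ b, b ∈ Q' ↔ h • b ∈ Q := by
  have _ : CompactSpace H := isCompact_iff_compactSpace.mp hH.isCompact
  let _ : TopologicalSpace (integralClosure ℤ kb) := ⊥
  have _ : DiscreteTopology (integralClosure ℤ kb) := ⟨rfl⟩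
  have _ : ContinuousSMul H (integralClosure ℤ kb) := actB_cont H
  let A : Subring (integralClosure ℤ kb) := FixedPoints.subring (integralClosure ℤ kb) H
  have hinv : Algebra.IsInvariant A (integralClosure ℤ kb) H := ⟨fun b hb => ⟨⟨b, hb⟩, rfl⟩⟩
  have htd : TotallyDisconnectedSpace H := inferInstance
  have hcomm : SMulCommClass H A (integralClosure ℤ kb) := ⟨fun g r b => by
    change g • ((r : integralClosure ℤ kb) * b) = (r : integralClosure ℤ kb) * (g • b)
    rw [smul_mul']
    congr 1
    exact r.2 g⟩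
  have hunder : Q.under A = Q'.under A := by
    ext r
    exact hQ r fun h hh => r.2 ⟨h, hh⟩
  obtain ⟨g, hg⟩ := Algebra.IsInvariant.exists_smul_of_under_eq_of_profinite (A := A)
      (G := H) Q Q' hunder
  refine ⟨(g⁻¹ : H), (g⁻¹ : H).2, fun b => ?_⟩
  rw [hg, Ideal.mem_pointwise_smul_iff_inv_smul_mem]
  rfl

end

end Pool.Agent.Lib.MP_2f3286_ag.Fer.Ty
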