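import Pool.Agent.Lib.MP_2f3286_ag.Fer.Z0

/-!
# Inertia groups of ramified Kummer extensions of number fields
-/

open IsDedekindDomain NumberField
open scoped WithZero

namespace Pool.Agent.Lib.MP_2f3286_ag.Fer.Ty

/-- trivial inertia groups, for one prime -/
theorem unr_one {F N : Type*} [Field F] [NumberField F] [Field N] [NumberField N] [Algebra F N]
    [IsGalois F N] (Q : HeightOneSpectrum (𝓞 N)) (w : HeightOneSpectrum (𝓞 F))
    (hw : Q.asIdeal.comap (algebraMap (𝓞 F) (𝓞 N)) = w.asIdeal)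
    (h : ∀ τ : Gal(N/F), (∀ x : 𝓞 N, τ • x - x ∈ Q.asIdeal) → τ = 1) :
    ¬ w.asIdeal.map (algebraMap (𝓞 F) (𝓞 N)) ≤ Q.asIdeal ^ 2 := by
  intro hle
  have hlo : Q.asIdeal.LiesOver w.asIdeal := ⟨hw.symm⟩
  have hwne : w.asIdeal.map (algebraMap (𝓞 F) (𝓞 N)) ≠ ⊥ := by
    rw [Ne, Ideal.map_eq_bot_iff_of_injective (FaithfulSMul.algebraMap_injective _ _)]
    exact w.ne_bot
  have hbot : Q.asIdeal.inertia Gal(N/F) = ⊥ := by
    rw [eq_bot_iff]
    intro τ hτ
    rw [Subgroup.mem_bot]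
    exact h τ fun x => hτ x
  have hcard : Nat.card (Q.asIdeal.inertia Gal(N/F)) = Ideal.ramificationIdxIn w.asIdeal (𝓞 N) :=
    Ideal.card_inertia_eq_ramificationIdxIn w.asIdeal Q.asIdeal
  rw [hbot, Subgroup.card_bot,
    Ideal.ramificationIdxIn_eq_ramificationIdx w.asIdeal Q.asIdeal Gal(N/F),
    Ideal.IsDedekindDomain.ramificationIdx_eq_multiplicity w.asIdeal Q.asIdeal hwne] at hcard
  have hdvd : Q.asIdeal ^ 2 ∣ w.asIdeal.map (algebraMap (𝓞 F) (𝓞 N)) := Ideal.dvd_iff_le.mpr hle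
  have hfin : FiniteMultiplicity Q.asIdeal (w.asIdeal.map (algebraMap (𝓞 F) (𝓞 N))) := by
    refine FiniteMultiplicity.of_not_isUnit ?_ hwne
    exact Q.prime.not_unit
  have h7 := hfin.le_multiplicity_of_pow_dvd hdvd
  omega

/-- the inertia group of a ramified extension is not trivial -/
theorem exists_inert {p : ℕ} (hp : p.Prime) {F N : Type*} [Field F] [NumberField F] [Field N]
    [NumberField N] [Algebra F N] [IsGalois F N] (Q : HeightOneSpectrum (𝓞 N))
    (w : HeightOneSpectrum (𝓞 F))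
    (hw : Q.asIdeal.comap (algebraMap (𝓞 F) (𝓞 N)) = w.asIdeal) {c : F} (hc0 : c ≠ 0)
    (hc : ¬ PV p w c) {γ : N} (hγ : γ ^ p = algebraMap F N c) :
    ∃ τ : Gal(N/F), τ ≠ 1 ∧ ∀ x : 𝓞 N, τ • x - x ∈ Q.asIdeal := by
  by_contra hcon
  push Not at hcon
  have hlo : Q.asIdeal.LiesOver w.asIdeal := ⟨hw.symm⟩
  refine unr_one Q w hw (fun τ hτ => by
    by_contra hne
    obtain ⟨x, hx⟩ := hcon τ hne
    exact hx (hτ x)) ?_
  set e := w.asIdeal.ramificationIdx' Q.asIdeal with he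
  have hval : ∀ x : F, w.valuation F x ^ e = Q.valuation N (algebraMap F N x) :=
    fun x => HeightOneSpectrum.valuation_liesOver N w Q x
  -- `p` divides `e`
  have hpe : p ∣ e := by
    have h1 : Q.valuation N γ ^ p = w.valuation F c ^ e := by rw [← map_pow, hγ, hval]
    have h2 := congrArg WithZero.log h1
    rw [WithZero.log_pow, WithZero.log_pow, nsmul_eq_mul, nsmul_eq_mul] at h2
    have h3 : (p : ℤ) ∣ (e : ℤ) * WithZero.log (w.valuation F c) := ⟨_, h2.symm⟩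
    rcases (Nat.prime_iff_prime_int.1 hp).dvd_or_dvd h3 with h4 | h4
    · exact_mod_cast h4
    · exact absurd ((pv_iff_dvd hp.ne_zero w hc0).2 h4) hc
  have he0 : e ≠ 0 := Ideal.IsDedekindDomain.ramificationIdx'_ne_zero_of_liesOver Q.asIdeal w.ne_bot
  have he2 : 2 ≤ e := by
    have h1 := Nat.le_of_dvd (Nat.pos_of_ne_zero he0) hpe
    have h2 := hp.two_le
    omega
  rw [Ideal.map_le_iff_le_comap]
  intro x hx
  rw [Ideal.mem_comap]
  have h1 : w.intValuation x ≤ WithZero.exp (-((1 : ℕ) : ℤ)) := by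
    rw [HeightOneSpectrum.intValuation_le_pow_iff_mem, pow_one]
    exact hx
  rw [← HeightOneSpectrum.intValuation_le_pow_iff_mem,
    ← HeightOneSpectrum.intValuation_liesOver w Q]
  calc w.intValuation x ^ e ≤ WithZero.exp (-((1 : ℕ) : ℤ)) ^ e :=
        pow_le_pow_left₀ zero_le h1 e
    _ ≤ WithZero.exp (-((2 : ℕ) : ℤ)) := by
      rw [← WithZero.exp_nsmul, WithZero.exp_le_exp, nsmul_eq_mul]
      push_cast
      have : (2 : ℤ) ≤ e := by exact_mod_cast he2
      linarith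

end Pool.Agent.Lib.MP_2f3286_ag.Fer.Ty
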