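import Pool.Agent.Lib.MP_2f3286_ag.Fer.Ty.LA
import Pool.Agent.Lib.MP_2f3286_ag.Fer.Ty.LB1
import Pool.Agent.Lib.MP_2f3286_ag.Full.Gauss

/-!
# Valuation rings of the algebraic closure above a finite place
-/

open IsDedekindDomain NumberField
open scoped Pointwise

namespace Pool.Agent.Lib.MP_2f3286_ag.Fer.Ty

/-- a valuation ring of `kb` and its prime ideal in the ring of integral elements -/
structure BV (kb : Type*) [Field kb] where
  Q : Ideal (integralClosure ℤ kb)
  prime : Q.IsPrime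
  V : ValuationSubring kb
  mem : ∀ a : integralClosure ℤ kb, (a : kb) ∈ V
  lt : ∀ a ∈ Q, V.valuation (a : kb) < 1
  eq : ∀ a ∉ Q, V.valuation (a : kb) = 1
  repr : ∀ x ∈ V, ∃ a b : integralClosure ℤ kb, b ∉ Q ∧ x * b = a

section

variable {F : Type*} [Field F] {kb : Type*} [Field kb] [Algebra F kb]

/-- the integers of `F` in the ring of integral elements -/
noncomputable def jB (F kb : Type*) [Field F] [Field kb] [Algebra F kb] :
    𝓞 F →+* integralClosure ℤ kb :=
  ((algebraMap F kb).comp (algebraMap (𝓞 F) F)).codRestrict (integralClosure ℤ kb)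
    fun a => (RingOfIntegers.isIntegral_coe a).algebraMap

theorem jB_coe (a : 𝓞 F) : ((jB F kb a : integralClosure ℤ kb) : kb) = algebraMap F kb a := rfl

variable [IsGalois F kb]

/-- integral elements of the fixed field of the whole group -/
theorem exists_of_fixed (b : integralClosure ℤ kb) (hb : ∀ g : Gal(kb/F), g • b = b) :
    ∃ a : 𝓞 F, jB F kb a = b := by
  have h1 : ∀ g : Gal(kb/F), g (b : kb) = b := fun g => congrArg Subtype.val (hb g)
  have h2 : (b : kb) ∈ (⊥ : IntermediateField F kb) :=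
    (InfiniteGalois.mem_bot_iff_fixed (b : kb)).2 h1
  obtain ⟨a, ha⟩ := IntermediateField.mem_bot.1 h2
  have h4 : IsIntegral ℤ a := by
    have h5 : IsIntegral ℤ (b : kb) := b.2
    rw [← ha] at h5
    exact (isIntegral_algebraMap_iff (FaithfulSMul.algebraMap_injective F kb)).1 h5
  refine ⟨⟨a, h4⟩, Subtype.ext ?_⟩
  rw [jB_coe, ← ha]
  rfl

omit [IsGalois F kb] in
theorem BV.stab (D : BV kb) {g : Gal(kb/F)} (hg : ∀ b : integralClosure ℤ kb, g • b ∈ D.Q ↔ b ∈ D.Q)
    (x : kb) : g x ∈ D.V ↔ x ∈ D.V := by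
  have hmemV : ∀ (x : kb) (a b : integralClosure ℤ kb), b ∉ D.Q → x * b = a → x ∈ D.V := by
    intro x a b hb hab
    rw [← D.V.valuation_le_one_iff]
    have h4 := congrArg D.V.valuation hab
    rw [map_mul, D.eq b hb, mul_one] at h4
    rw [h4, D.V.valuation_le_one_iff]
    exact D.mem a
  constructor
  · intro hx
    obtain ⟨a, b, hb, hab⟩ := D.repr _ hx
    have e1 : x * ((g⁻¹ • b : integralClosure ℤ kb) : kb) =
        ((g⁻¹ • a : integralClosure ℤ kb) : kb) := by
      change x * g⁻¹ (b : kb) = g⁻¹ (a : kb)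
      rw [← hab, map_mul]
      congr 1
      exact (g.symm_apply_apply x).symm
    refine hmemV x _ _ ?_ e1
    rw [← hg, smul_inv_smul]
    exact hb
  · intro hx
    obtain ⟨a, b, hb, hab⟩ := D.repr _ hx
    have e1 : g x * ((g • b : integralClosure ℤ kb) : kb) =
        ((g • a : integralClosure ℤ kb) : kb) := by
      change g x * g (b : kb) = g (a : kb)
      rw [← hab, map_mul]
    refine hmemV _ _ _ ?_ e1
    rw [hg]
    exact hb

omit [IsGalois F kb] in
/-- congruences on the integral elements give congruences on the valuation ring -/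
theorem BV.approx (D : BV kb) {g : Gal(kb/F)} {n : ℕ}
    (hg : ∀ b : integralClosure ℤ kb, g • b ∈ D.Q ↔ b ∈ D.Q)
    (hgn : ∀ b : integralClosure ℤ kb, g • b - b ^ n ∈ D.Q) {x : kb} (hx : x ∈ D.V) :
    D.V.valuation (g x - x ^ n) < 1 := by
  obtain ⟨a, b, hb, hab⟩ := D.repr _ hx
  have e1 : g x * ((g • b : integralClosure ℤ kb) : kb) =
      ((g • a : integralClosure ℤ kb) : kb) := by
    change g x * g (b : kb) = g (a : kb)
    rw [← hab, map_mul]
  have v1 := D.eq b hb
  have v2 := D.eq (g • b) (by rw [hg]; exact hb)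
  have e2 : (g x - x ^ n) * (((g • b : integralClosure ℤ kb) : kb) * (b : kb) ^ n) =
      ((((g • a - a ^ n) * b ^ n - a ^ n * (g • b - b ^ n) : integralClosure ℤ kb)) : kb) := by
    push_cast
    have e3 : (x * (b : kb)) ^ n = (a : kb) ^ n := by rw [hab]
    rw [mul_pow] at e3
    linear_combination (b : kb) ^ n * e1 - ((g • b : integralClosure ℤ kb) : kb) * e3
  have e4 := congrArg D.V.valuation e2
  rw [map_mul, map_mul, map_pow, v1, v2, one_pow, one_mul, mul_one] at e4
  rw [e4]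
  exact D.lt ((g • a - a ^ n) * b ^ n - a ^ n * (g • b - b ^ n))
    (D.Q.sub_mem (D.Q.mul_mem_right _ (hgn a)) (D.Q.mul_mem_left _ (hgn b)))

end

variable {F : Type*} [Field F] [NumberField F] {kb : Type*} [Field kb] [Algebra F kb]
  [IsGalois F kb]

/-- existence -/
theorem exists_BV (w : HeightOneSpectrum (𝓞 F)) :
    ∃ D : BV kb, D.Q.IsMaximal ∧ ∀ a : 𝓞 F, jB F kb a ∈ D.Q ↔ a ∈ w.asIdeal := by
  let iA : Algebra (𝓞 F) (integralClosure ℤ kb) := (jB F kb).toAlgebra
  have hchar : CharZero kb := charZero_of_injective_algebraMap (algebraMap F kb).injective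
  have hintZ : Algebra.IsIntegral ℤ (integralClosure ℤ kb) := integralClosure.AlgebraIsIntegral
  have t1 : IsScalarTower ℤ (𝓞 F) (integralClosure ℤ kb) :=
    IsScalarTower.of_algebraMap_eq fun a => by
      rw [eq_intCast, eq_intCast, map_intCast]
  have hintB : Algebra.IsIntegral (𝓞 F) (integralClosure ℤ kb) :=
    Algebra.IsIntegral.tower_top ℤ
  have hinj : Function.Injective (algebraMap (𝓞 F) (integralClosure ℤ kb)) := by
    intro a b hab
    have h1 := congrArg Subtype.val hab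
    have h2 : algebraMap F kb (a : F) = algebraMap F kb (b : F) := h1
    exact RingOfIntegers.ext ((algebraMap F kb).injective h2)
  have hwm : w.asIdeal.IsMaximal := w.isMaximal
  obtain ⟨Q, hQ, hQw⟩ := Ideal.exists_ideal_over_maximal_of_isIntegral
    (S := integralClosure ℤ kb) w.asIdeal (by
      rw [(RingHom.injective_iff_ker_eq_bot _).1 hinj]
      exact bot_le)
  have hQmem : ∀ a : 𝓞 F, jB F kb a ∈ Q ↔ a ∈ w.asIdeal := by
    intro a
    rw [← hQw]
    rfl
  have hQp : Q.IsPrime := hQ.isPrime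
  -- the residue characteristic
  have hfin : Finite (𝓞 F ⧸ w.asIdeal) := Ideal.finiteQuotientOfFreeOfNeBot w.asIdeal w.ne_bot
  let iF : Field (𝓞 F ⧸ w.asIdeal) := Ideal.Quotient.field w.asIdeal
  obtain ⟨l, hl⟩ := CharP.exists (𝓞 F ⧸ w.asIdeal)
  have hlp : l.Prime := by
    rcases CharP.char_is_prime_or_zero (𝓞 F ⧸ w.asIdeal) l with h | h
    · exact h
    · exfalso
      subst h
      have : CharZero (𝓞 F ⧸ w.asIdeal) := CharP.charP_to_charZero _
      exact not_finite (𝓞 F ⧸ w.asIdeal)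
  have hlw : (l : 𝓞 F) ∈ w.asIdeal := by
    rw [← Ideal.Quotient.eq_zero_iff_mem, map_natCast]
    exact CharP.cast_eq_zero _ l
  have hlQ : (l : integralClosure ℤ kb) ∈ Q := by
    have h1 := (hQmem l).2 hlw
    rwa [map_natCast] at h1
  obtain ⟨V, h1, h2, h3⟩ := Full.exists_dominating (algebraMap (integralClosure ℤ kb) kb) Q
    (fun a ha => by
      have : a = 0 := Subtype.ext ha
      rw [this]; exact Q.zero_mem)
  have halgQ : ∀ x : kb, IsAlgebraic ℚ x := fun x =>
    (Algebra.IsAlgebraic.trans ℚ F kb).isAlgebraic x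
  have hrepr : ∀ x ∈ V, ∃ a b : integralClosure ℤ kb, b ∉ Q ∧ x * b = a := by
    intro x hx
    by_cases hx0 : x = 0
    · refine ⟨0, 1, ?_, by simp [hx0]⟩
      intro h
      exact hQp.ne_top ((Ideal.eq_top_iff_one _).2 h)
    obtain ⟨a, b, hb, hab⟩ := Full.exists_frac_repr (integralClosure ℤ kb) (fun x hx => hx) Q l hlp
      hlQ x hx0 (halgQ x)
    rcases hab with hab | hab
    · exact ⟨a, b, hb, hab⟩
    · refine ⟨b, a, ?_, ?_⟩
      · intro ha
        have h4 := h2 a ha
        have h5 := h3 b hb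
        have h6 : algebraMap (integralClosure ℤ kb) kb a =
            x⁻¹ * algebraMap (integralClosure ℤ kb) kb b := hab.symm
        rw [h6, map_mul, h5, mul_one, map_inv₀] at h4
        have h7 : V.valuation x ≤ 1 := (V.valuation_le_one_iff _).2 hx
        have h8 : V.valuation x ≠ 0 := by
          rw [Ne, map_eq_zero]; exact hx0
        have h9 : V.valuation x ≠ 1 := by
          intro h10
          rw [h10, inv_one] at h4
          exact lt_irrefl _ h4
        have h10 := mul_lt_mul'' h4 (lt_of_le_of_ne h7 h9) zero_le zero_le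
        rw [inv_mul_cancel₀ h8, one_mul] at h10
        exact lt_irrefl _ h10
      · rw [← hab, mul_inv_cancel_left₀ hx0]
  exact ⟨⟨Q, hQp, V, h1, h2, h3, hrepr⟩, hQ, hQmem⟩

/-- Frobenius elements -/
theorem BV.exists_frob (D : BV kb) (hDm : D.Q.IsMaximal) (w : HeightOneSpectrum (𝓞 F))
    (hw : ∀ a : 𝓞 F, jB F kb a ∈ D.Q ↔ a ∈ w.asIdeal) :
    ∃ (Φ : Gal(kb/F)) (q : ℕ), 2 ≤ q ∧ (∀ b : integralClosure ℤ kb, Φ • b ∈ D.Q ↔ b ∈ D.Q) ∧
      ∀ b : integralClosure ℤ kb, Φ • b - b ^ q ∈ D.Q := by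
  have hprime := D.prime
  let iA : Algebra (𝓞 F) (integralClosure ℤ kb) := (jB F kb).toAlgebra
  have hintZ : Algebra.IsIntegral ℤ (integralClosure ℤ kb) := integralClosure.AlgebraIsIntegral
  have t1 : IsScalarTower ℤ (𝓞 F) (integralClosure ℤ kb) :=
    IsScalarTower.of_algebraMap_eq fun a => by
      rw [eq_intCast, eq_intCast, map_intCast]
  have hintB : Algebra.IsIntegral (𝓞 F) (integralClosure ℤ kb) :=
    Algebra.IsIntegral.tower_top ℤ
  have hwm : w.asIdeal.IsMaximal := w.isMaximal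
  have hlo : D.Q.LiesOver w.asIdeal := ⟨by
    ext a
    exact (hw a).symm⟩
  have hfin : Finite (𝓞 F ⧸ w.asIdeal) := Ideal.finiteQuotientOfFreeOfNeBot w.asIdeal w.ne_bot
  let iF : Field (𝓞 F ⧸ w.asIdeal) := Ideal.Quotient.field w.asIdeal
  let iFt : Fintype (𝓞 F ⧸ w.asIdeal) := Fintype.ofFinite _
  let iL : Field (integralClosure ℤ kb ⧸ D.Q) := Ideal.Quotient.field D.Q
  have hint : Algebra.IsIntegral (𝓞 F ⧸ w.asIdeal) (integralClosure ℤ kb ⧸ D.Q) := inferInstance
  have halg : Algebra.IsAlgebraic (𝓞 F ⧸ w.asIdeal) (integralClosure ℤ kb ⧸ D.Q) := inferInstance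
  let σ₀ : (integralClosure ℤ kb ⧸ D.Q) ≃ₐ[𝓞 F ⧸ w.asIdeal] (integralClosure ℤ kb ⧸ D.Q) :=
    FiniteField.frobeniusAlgEquivOfAlgebraic (𝓞 F ⧸ w.asIdeal) (integralClosure ℤ kb ⧸ D.Q)
  have hσ₀ : ∀ x, σ₀ x = x ^ Fintype.card (𝓞 F ⧸ w.asIdeal) := fun x => rfl
  obtain ⟨Φ, -, h1, h2⟩ := lift_residue (H := (⊤ : Subgroup Gal(kb/F))) isClosed_univ D.Q
    (σ₀ : _ ≃+* _) (fun b hb => by
      obtain ⟨a, rfl⟩ := exists_of_fixed (F := F) b fun g => hb g (Subgroup.mem_top g)
      exact σ₀.commutes (Ideal.Quotient.mk w.asIdeal a))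
  refine ⟨Φ, Fintype.card (𝓞 F ⧸ w.asIdeal), Fintype.one_lt_card, h1, fun b => ?_⟩
  rw [← Ideal.Quotient.eq, h2, map_pow]
  rfl

end Pool.Agent.Lib.MP_2f3286_ag.Fer.Ty
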