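import Pool.Agent.Lib.MP_2f3286_ag.Fer.Ty.LB2

/-!
# Elements of the inertia group which move a ramified root
-/

open IsDedekindDomain NumberField
open scoped Pointwise

namespace Pool.Agent.Lib.MP_2f3286_ag.Fer.Ty

variable {F : Type*} [Field F] [NumberField F] {kb : Type*} [Field kb] [Algebra F kb]
  [IsGalois F kb]

omit [NumberField F] [IsGalois F kb] in
/-- the residue automorphism of an element of the decomposition group -/
theorem exists_residue (Q : Ideal (integralClosure ℤ kb)) {g : Gal(kb/F)}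
    (hg : ∀ b : integralClosure ℤ kb, g • b ∈ Q ↔ b ∈ Q) :
    ∃ τ : (integralClosure ℤ kb ⧸ Q) ≃+* (integralClosure ℤ kb ⧸ Q),
      ∀ b, τ (Ideal.Quotient.mk Q b) = Ideal.Quotient.mk Q (g • b) := by
  refine ⟨Ideal.quotientEquiv Q Q (MulSemiringAction.toRingEquiv Gal(kb/F)
    (integralClosure ℤ kb) g) ?_, fun b => Ideal.quotientEquiv_mk _ _ _ _ b⟩
  ext y
  change y ∈ Q ↔ y ∈ Ideal.map (MulSemiringAction.toRingEquiv Gal(kb/F)
    (integralClosure ℤ kb) g) Q
  rw [Ideal.mem_map_of_equiv]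
  constructor
  · intro hy
    refine ⟨g⁻¹ • y, ?_, ?_⟩
    · rw [← hg, smul_inv_smul]
      exact hy
    · change g • g⁻¹ • y = y
      rw [smul_inv_smul]
  · rintro ⟨x, hx, rfl⟩
    exact (hg x).2 hx

theorem exists_inertia [IsAlgClosed kb] (Q : Ideal (integralClosure ℤ kb)) [Q.IsPrime]
    (w : HeightOneSpectrum (𝓞 F))
    (hw : ∀ a : 𝓞 F, jB F kb a ∈ Q ↔ a ∈ w.asIdeal) {p : ℕ} (hp : p.Prime) {ζ : F}
    (hζ : IsPrimitiveRoot ζ p) {c : F} (hc0 : c ≠ 0) (hc : ¬ PV p w c) {γ : kb}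
    (hγ : γ ^ p = algebraMap F kb c) :
    ∃ δ : Gal(kb/F), (∀ b : integralClosure ℤ kb, δ • b ∈ Q ↔ b ∈ Q) ∧
      (∀ b : integralClosure ℤ kb, δ • b - b ∈ Q) ∧ δ γ ≠ γ := by
  have hchar : CharZero kb := charZero_of_injective_algebraMap (algebraMap F kb).injective
  have hint : IsIntegral F γ := Algebra.IsIntegral.isIntegral γ
  let N : IntermediateField F kb := IntermediateField.adjoin F {γ}
  have hfd : FiniteDimensional F N := IntermediateField.adjoin.finiteDimensional hint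
  have hNF : NumberField N := NumberField.of_module_finite F N
  have hγN : γ ∈ N := IntermediateField.mem_adjoin_simple_self F γ
  have hγ0 : γ ≠ 0 := by
    rintro rfl
    rw [zero_pow hp.ne_zero] at hγ
    exact hc0 ((algebraMap F kb).injective (by rw [← hγ, map_zero]))
  have hnorm : Normal F N := by
    rw [IntermediateField.normal_iff_forall_map_le']
    intro σ
    rw [IntermediateField.adjoin_map, Set.image_singleton, IntermediateField.adjoin_simple_le_iff]
    change σ γ ∈ N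
    have h1 : (σ γ / γ) ^ p = 1 := by
      rw [div_pow, ← map_pow, hγ, AlgEquiv.commutes, div_self]
      rw [← hγ]
      exact pow_ne_zero _ hγ0
    have : NeZero p := ⟨hp.ne_zero⟩
    obtain ⟨i, -, hi⟩ := (hζ.map_of_injective (algebraMap F kb).injective).eq_pow_of_pow_eq_one h1
    have h2 : σ γ = algebraMap F kb ζ ^ i * γ := by rw [hi, div_mul_cancel₀ _ hγ0]
    rw [h2]
    exact mul_mem (pow_mem (N.algebraMap_mem ζ) i) hγN
  have hgal : IsGalois F N := IsGalois.mk
  have hgalN : IsGalois N kb := IsGalois.tower_top_intermediateField N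
  let H : Subgroup Gal(kb/F) := N.fixingSubgroup
  have hH : IsClosed (H : Set Gal(kb/F)) := N.fixingSubgroup_isClosed
  have hHfix : ∀ h ∈ H, ∀ x : N, h (x : kb) = x := by
    intro h hh x
    exact hh x
  -- elements fixed by `H`
  have hfixed : ∀ b : integralClosure ℤ kb, (∀ h ∈ H, h • b = b) → ∃ a : 𝓞 N, jB N kb a = b := by
    intro b hb
    have h1 : (b : kb) ∈ IntermediateField.fixedField H := by
      rw [IntermediateField.mem_fixedField_iff]
      intro h hh
      exact congrArg Subtype.val (hb h hh)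
    rw [InfiniteGalois.fixedField_fixingSubgroup] at h1
    have h4 : IsIntegral ℤ (⟨b, h1⟩ : N) := by
      have h5 : IsIntegral ℤ (b : kb) := b.2
      exact (isIntegral_algebraMap_iff (FaithfulSMul.algebraMap_injective N kb)).1 h5
    exact ⟨⟨⟨b, h1⟩, h4⟩, Subtype.ext rfl⟩
  -- the prime of `N`
  have hjN : ∀ a : 𝓞 F, jB N kb (algebraMap (𝓞 F) (𝓞 N) a) = jB F kb a := fun a =>
    Subtype.ext rfl
  let q : Ideal (𝓞 N) := Q.comap (jB N kb)
  have hqw : q.comap (algebraMap (𝓞 F) (𝓞 N)) = w.asIdeal := by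
    ext a
    rw [← hw, ← hjN]
    rfl
  have hqbot : q ≠ ⊥ := by
    intro h0
    apply w.ne_bot
    rw [← hqw, h0]
    exact Ideal.comap_bot_of_injective _ (FaithfulSMul.algebraMap_injective _ _)
  let q' : HeightOneSpectrum (𝓞 N) := ⟨q, Ideal.comap_isPrime (jB N kb) Q, hqbot⟩
  obtain ⟨τ, hτ1, hτ⟩ := exists_inert hp q' w hqw hc0 hc (γ := (⟨γ, hγN⟩ : N))
    (Subtype.ext hγ)
  have hτQ : ∀ a : 𝓞 N, jB N kb (τ • a) - jB N kb a ∈ Q := by
    intro a
    rw [← map_sub]
    exact hτ a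
  let g₀ : Gal(kb/F) := τ.liftNormal kb
  have hg₀ : ∀ x : N, g₀ (x : kb) = (τ x : N) := fun x => τ.liftNormal_commutes kb x
  have hg₀j : ∀ a : 𝓞 N, g₀ • jB N kb a = jB N kb (τ • a) := by
    intro a
    exact Subtype.ext (hg₀ (a : N))
  let Q' : Ideal (integralClosure ℤ kb) :=
    Q.comap (MulSemiringAction.toRingHom Gal(kb/F) (integralClosure ℤ kb) g₀)
  have hQ'mem : ∀ b, b ∈ Q' ↔ g₀ • b ∈ Q := fun b => Iff.rfl
  have hQ'p : Q'.IsPrime := Ideal.comap_isPrime _ Q
  obtain ⟨h, hh, hhQ⟩ := trans_prime hH Q Q' (fun b hb => by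
    obtain ⟨a, rfl⟩ := hfixed b hb
    rw [hQ'mem, hg₀j]
    constructor
    · intro h1
      have h2 := Q.add_mem (hτQ a) h1
      rwa [sub_add_cancel] at h2
    · intro h1
      have h2 := Q.sub_mem h1 (hτQ a)
      rwa [sub_sub_cancel] at h2)
  set g := g₀ * h⁻¹ with hg
  have hgQ : ∀ b : integralClosure ℤ kb, g • b ∈ Q ↔ b ∈ Q := by
    intro b
    rw [hg, mul_smul, ← hQ'mem, hhQ, smul_inv_smul]
  obtain ⟨τg, hτg⟩ := exists_residue Q hgQ
  obtain ⟨h', hh', h'Q, hh'τ⟩ := lift_residue hH Q τg (fun b hb => by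
    obtain ⟨a, rfl⟩ := hfixed b hb
    rw [hτg, Ideal.Quotient.eq, hg, mul_smul, hb _ (H.inv_mem hh), hg₀j]
    exact hτQ a)
  have hδg : h' * (h'⁻¹ * g) = g := mul_inv_cancel_left h' g
  refine ⟨h'⁻¹ * g, fun b => ?_, fun b => ?_, ?_⟩
  · rw [← hgQ b, ← h'Q, ← mul_smul, hδg]
  · rw [← Ideal.Quotient.eq]
    apply τg.injective
    rw [← hh'τ, ← mul_smul, hδg, hτg]
  · intro h1
    apply hτ1
    have h2 : (τ ⟨γ, hγN⟩ : N) = ⟨γ, hγN⟩ := by
      apply Subtype.ext
      rw [← hg₀]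
      have h3 : g γ = g₀ γ := by
        rw [hg, AlgEquiv.mul_apply, hHfix _ (H.inv_mem hh) ⟨γ, hγN⟩]
      have h4 : g γ = h' ((h'⁻¹ * g) γ) := by rw [← AlgEquiv.mul_apply, hδg]
      rw [h1, hHfix _ hh' ⟨γ, hγN⟩] at h4
      rw [← h3]
      exact h4
    have h3 : (τ : N →ₐ[F] N) = AlgHom.id F N := by
      refine IntermediateField.algHom_ext_of_eq_adjoin F (S := N) (s := {γ}) rfl fun x hx => ?_
      rw [Set.mem_singleton_iff] at hx
      subst hx
      exact h2
    apply AlgEquiv.ext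
    intro x
    exact DFunLike.congr_fun h3 x

end Pool.Agent.Lib.MP_2f3286_ag.Fer.Ty
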