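import Pool.Agent.Lib.MP_2f3286_ag.Fer.Ty.LB3

/-!
# Inertia and Frobenius elements at a place which does not divide `p`
-/

open IsDedekindDomain NumberField
open scoped Pointwise

namespace Pool.Agent.Lib.MP_2f3286_ag.Fer.Ty

/-! ### the smallest field closed under `p`-th roots -/

section pcl

variable (p : ℕ) (F kb : Type*) [Field F] [Field kb] [Algebra F kb]

/-- the smallest intermediate field which is closed under `p`-th roots -/
def pcl : IntermediateField F kb := sInf {E | ∀ x : kb, x ^ p ∈ E → x ∈ E}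

variable {p F kb}

theorem pcl_le {E : IntermediateField F kb} (hE : ∀ x : kb, x ^ p ∈ E → x ∈ E) :
    pcl p F kb ≤ E := sInf_le hE

theorem pcl_root {x : kb} (hx : x ^ p ∈ pcl p F kb) : x ∈ pcl p F kb := by
  rw [pcl, IntermediateField.mem_sInf] at hx ⊢
  intro E hE
  exact hE x (hx E hE)

theorem pcl_root_pow {x : kb} (n : ℕ) (hx : x ^ p ^ n ∈ pcl p F kb) : x ∈ pcl p F kb := by
  induction n generalizing x with
  | zero => rwa [pow_zero, pow_one] at hx
  | succ n ih =>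
    apply pcl_root
    apply ih
    rwa [← pow_mul, ← pow_succ']

theorem pcl_map (σ : Gal(kb/F)) {x : kb} (hx : x ∈ pcl p F kb) : σ x ∈ pcl p F kb := by
  have h1 : pcl p F kb ≤ (pcl p F kb).comap (σ : kb →ₐ[F] kb) := by
    apply pcl_le
    intro y hy
    apply pcl_root
    have h2 : σ (y ^ p) ∈ pcl p F kb := hy
    rwa [map_pow] at h2
  exact h1 hx

theorem pcl_fix {ρ : Gal(kb/F)} (h : ∀ x : kb, ρ (x ^ p) = x ^ p → ρ x = x) {x : kb}
    (hx : x ∈ pcl p F kb) : ρ x = x := by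
  have h1 : pcl p F kb ≤ IntermediateField.fixedField (Subgroup.zpowers ρ) := by
    apply pcl_le
    intro y hy
    rw [IntermediateField.mem_fixedField_iff] at hy ⊢
    have h2 := h y (hy ρ (Subgroup.mem_zpowers ρ))
    have h3 : Subgroup.zpowers ρ ≤ MulAction.stabilizer Gal(kb/F) y := by
      rw [Subgroup.zpowers_le, MulAction.mem_stabilizer_iff]
      exact h2
    intro g hg
    exact h3 hg
  have h2 := h1 hx
  rw [IntermediateField.mem_fixedField_iff] at h2
  exact h2 ρ (Subgroup.mem_zpowers ρ)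

end pcl

/-! ### roots of unity -/

section units

variable {kb : Type*} [Field kb] {p : ℕ} (hp : p.Prime) (V : ValuationSubring kb)
  (hVp : V.valuation (p : kb) = 1)

theorem mem_of_root {z : kb} {n : ℕ} (hn : n ≠ 0) (hz : z ^ n = 1) : z ∈ V := by
  rw [← V.valuation_le_one_iff]
  have h1 : V.valuation z ^ n = 1 := by rw [← map_pow, hz, map_one]
  exact (pow_le_one_iff hn).1 h1.le

include hp hVp in
theorem val_one_sub {z : kb} {n : ℕ} (hz : z ^ p ^ n = 1) (hz1 : z ≠ 1) :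
    V.valuation (1 - z) = 1 := by
  obtain ⟨k, -, hk⟩ := (Nat.dvd_prime_pow hp).1 (orderOf_dvd_of_pow_eq_one hz)
  have hk0 : k ≠ 0 := by
    rintro rfl
    rw [pow_zero, orderOf_eq_one_iff] at hk
    exact hz1 hk
  obtain ⟨j, rfl⟩ := Nat.exists_eq_succ_of_ne_zero hk0
  have hprim : IsPrimitiveRoot z (p ^ (j + 1)) := hk ▸ IsPrimitiveRoot.orderOf z
  have hy : IsPrimitiveRoot (z ^ p ^ j) p :=
    hprim.pow (pow_pos hp.pos _) (by rw [pow_succ])
  have hVz : ∀ i : ℕ, z ^ i ∈ V := fun i => pow_mem (mem_of_root V (pow_ne_zero _ hp.ne_zero) hz) i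
  have hle : ∀ i : ℕ, V.valuation (1 - z ^ i) ≤ 1 := fun i =>
    (V.valuation_le_one_iff _).2 (sub_mem (one_mem V) (hVz i))
  obtain ⟨m, rfl⟩ : ∃ m, p = m + 1 := ⟨p - 1, by have := hp.one_lt; omega⟩
  have h1 := hy.prod_one_sub_pow_eq_order
  have h2 : V.valuation (1 - z ^ (m + 1) ^ j) = 1 := by
    have h3 : ∏ k ∈ Finset.range m, V.valuation (1 - (z ^ (m + 1) ^ j) ^ (k + 1)) = 1 := by
      rw [← map_prod, h1, ← hVp]
      push_cast
      rfl
    have hm : m ≠ 0 := by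
      rintro rfl
      exact hp.one_lt.ne' rfl
    have h4 : (0 : ℕ) ∈ Finset.range m := Finset.mem_range.2 (Nat.pos_of_ne_zero hm)
    rw [← Finset.mul_prod_erase _ _ h4, zero_add, pow_one] at h3
    refine le_antisymm (hle _) ?_
    rw [← h3]
    refine mul_le_of_le_one_right' (Finset.prod_le_one' fun k _ => ?_)
    rw [← pow_mul]
    exact hle _
  have h3 : (1 - z) * ∑ i ∈ Finset.range ((m + 1) ^ j), z ^ i = 1 - z ^ (m + 1) ^ j := by
    have h4 := geom_sum_mul z ((m + 1) ^ j)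
    linear_combination -h4
  have h4 : V.valuation (∑ i ∈ Finset.range ((m + 1) ^ j), z ^ i) ≤ 1 :=
    (V.valuation_le_one_iff _).2 (sum_mem fun i _ => hVz i)
  have h5 := congrArg V.valuation h3
  rw [h2, map_mul] at h5
  refine le_antisymm (by simpa using hle 1) ?_
  rw [← h5]
  exact mul_le_of_le_one_right' h4

include hp hVp in
/-- roots of unity which are congruent to one -/
theorem root_eq_one {z : kb} {n : ℕ} (hz : z ^ p ^ n = 1) (h : V.valuation (z - 1) < 1) : z = 1 := by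
  by_contra hz1
  rw [Valuation.map_sub_swap, val_one_sub hp V hVp hz hz1] at h
  exact lt_irrefl _ h

/-- one-units -/
theorem one_unit_val {x : kb} (hx : V.valuation (x - 1) < 1) : V.valuation x = 1 := by
  have h1 : x = 1 + (x - 1) := by ring
  rw [h1]
  exact Valuation.map_one_add_of_lt _ hx

theorem one_unit_mul {x y : kb} (hx : V.valuation (x - 1) < 1) (hy : V.valuation (y - 1) < 1) :
    V.valuation (x * y - 1) < 1 := by
  have h1 : x * y - 1 = x * (y - 1) + (x - 1) := by ring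
  rw [h1]
  refine V.valuation.map_add_lt ?_ hx
  rw [map_mul, one_unit_val V hx, one_mul]
  exact hy

theorem one_unit_inv {x : kb} (hx : V.valuation (x - 1) < 1) : V.valuation (x⁻¹ - 1) < 1 := by
  have h0 := one_unit_val V hx
  have hx0 : x ≠ 0 := by
    rintro rfl
    rw [map_zero] at h0
    exact zero_ne_one h0
  have h1 : x⁻¹ - 1 = -(x⁻¹ * (x - 1)) := by
    field_simp
    ring
  rw [h1, Valuation.map_neg, map_mul, map_inv₀, h0, inv_one, one_mul]
  exact hx

theorem one_unit_div {x y : kb} (hx : V.valuation (x - 1) < 1) (hy : V.valuation (y - 1) < 1) :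
    V.valuation (x / y - 1) < 1 := by
  rw [div_eq_mul_inv]
  exact one_unit_mul V hx (one_unit_inv V hy)

theorem one_unit_pow {x : kb} (hx : V.valuation (x - 1) < 1) (n : ℕ) :
    V.valuation (x ^ n - 1) < 1 := by
  induction n with
  | zero => rw [pow_zero, sub_self, map_zero]; exact zero_lt_one
  | succ n ih => rw [pow_succ]; exact one_unit_mul V ih hx

/-- congruent units -/
theorem one_unit_of_sub {x y : kb} (hy : V.valuation y = 1) (h : V.valuation (x - y) < 1) :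
    V.valuation (x / y - 1) < 1 := by
  have hy0 : y ≠ 0 := by
    rintro rfl
    rw [map_zero] at hy
    exact zero_ne_one hy
  have h1 : x / y - 1 = (x - y) / y := by rw [sub_div, div_self hy0]
  rw [h1, map_div₀, hy, div_one]
  exact h

end units

/-! ### automorphisms which preserve the valuation ring -/

section act

variable {F : Type*} [Field F] {kb : Type*} [Field kb] [Algebra F kb] [Algebra.IsAlgebraic F kb]
  {V : ValuationSubring kb}

omit [Algebra.IsAlgebraic F kb] in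
theorem stab_le {g : Gal(kb/F)} (hg : ∀ x, g x ∈ V ↔ x ∈ V) {x y : kb} :
    V.valuation (g x) ≤ V.valuation (g y) ↔ V.valuation x ≤ V.valuation y := by
  rcases eq_or_ne y 0 with rfl | hy
  · rw [map_zero, map_zero, le_zero_iff, le_zero_iff, Valuation.zero_iff, Valuation.zero_iff,
      map_eq_zero]
  · have hgy : g y ≠ 0 := by rwa [Ne, EmbeddingLike.map_eq_zero_iff]
    have h1 : V.valuation x ≤ V.valuation y ↔ x / y ∈ V := by
      rw [← V.valuation_le_one_iff, map_div₀, div_le_one₀ (zero_lt_iff.2 (by rwa [Ne, map_eq_zero]))]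
    have h2 : V.valuation (g x) ≤ V.valuation (g y) ↔ g x / g y ∈ V := by
      rw [← V.valuation_le_one_iff, map_div₀, div_le_one₀ (zero_lt_iff.2 (by rwa [Ne, map_eq_zero]))]
    rw [h1, h2, ← map_div₀, hg]

omit [Algebra.IsAlgebraic F kb] in
theorem stab_lt {g : Gal(kb/F)} (hg : ∀ x, g x ∈ V ↔ x ∈ V) {x y : kb} :
    V.valuation (g x) < V.valuation (g y) ↔ V.valuation x < V.valuation y := by
  rw [← not_le, ← not_le, stab_le hg]

/-- finite orbits -/
theorem exists_pow_fix (g : Gal(kb/F)) (x : kb) : ∃ n : ℕ, 1 ≤ n ∧ (g ^ n) x = x := by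
  classical
  have hint : IsIntegral F x := Algebra.IsIntegral.isIntegral x
  have hfin : {y : kb | Polynomial.aeval y (minpoly F x) = 0}.Finite := by
    have h1 : {y : kb | Polynomial.aeval y (minpoly F x) = 0} ⊆
        ((minpoly F x).rootSet kb) := by
      intro y hy
      rw [Polynomial.mem_rootSet]
      exact ⟨minpoly.ne_zero hint, hy⟩
    exact ((minpoly F x).rootSet_finite kb).subset h1
  have : Finite {y : kb | Polynomial.aeval y (minpoly F x) = 0} := hfin
  obtain ⟨m₁, m₂, hne, heq⟩ := Finite.exists_ne_map_eq_of_infinite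
    (fun m : ℕ => (⟨(g ^ m) x, by
      change Polynomial.aeval ((g ^ m) x) (minpoly F x) = 0
      have h2 := Polynomial.aeval_algHom_apply ((g ^ m : Gal(kb/F)) : kb →ₐ[F] kb) x (minpoly F x)
      rw [minpoly.aeval, map_zero] at h2
      exact h2⟩ :
        {y : kb | Polynomial.aeval y (minpoly F x) = 0}))
  have h1 : (g ^ m₁) x = (g ^ m₂) x := congrArg Subtype.val heq
  have key : ∀ m₁ m₂ : ℕ, m₁ < m₂ → (g ^ m₁) x = (g ^ m₂) x → (g ^ (m₂ - m₁)) x = x := by
    intro m₁ m₂ hlt h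
    apply (g ^ m₁).injective
    rw [← AlgEquiv.mul_apply, ← pow_add, Nat.add_sub_cancel' hlt.le, h]
  rcases lt_or_gt_of_ne hne with hlt | hlt
  · exact ⟨m₂ - m₁, by omega, key _ _ hlt h1⟩
  · exact ⟨m₁ - m₂, by omega, key _ _ hlt h1.symm⟩

theorem stab_val {g : Gal(kb/F)} (hg : ∀ x, g x ∈ V ↔ x ∈ V) (x : kb) :
    V.valuation (g x) = V.valuation x := by
  have key : ∀ g : Gal(kb/F), (∀ x, g x ∈ V ↔ x ∈ V) → ¬ V.valuation x < V.valuation (g x) := by
    intro g hg hlt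
    have h1 : ∀ n : ℕ, V.valuation x < V.valuation ((g ^ (n + 1)) x) := by
      intro n
      induction n with
      | zero => rwa [zero_add, pow_one]
      | succ n ih =>
        refine hlt.trans ?_
        rw [pow_succ', AlgEquiv.mul_apply, stab_lt hg]
        exact ih
    obtain ⟨n, hn, hx⟩ := exists_pow_fix g x
    have h2 := h1 (n - 1)
    rw [Nat.sub_add_cancel hn, hx] at h2
    exact lt_irrefl _ h2
  have hg' : ∀ x, g⁻¹ x ∈ V ↔ x ∈ V := by
    intro x
    rw [← hg (g⁻¹ x)]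
    have h1 : g (g⁻¹ x) = x := g.apply_symm_apply x
    rw [h1]
  rcases lt_trichotomy (V.valuation x) (V.valuation (g x)) with h | h | h
  · exact absurd h (key g hg)
  · exact h.symm
  · exfalso
    apply key g⁻¹ hg'
    have h1 : g (g⁻¹ x) = x := g.apply_symm_apply x
    rw [← stab_lt hg, h1]
    exact h

theorem stab_one_unit {g : Gal(kb/F)} (hg : ∀ x, g x ∈ V ↔ x ∈ V) {x : kb}
    (hx : V.valuation (x - 1) < 1) : V.valuation (g x - 1) < 1 := by
  have h1 : g x - 1 = g (x - 1) := by rw [map_sub, map_one]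
  rw [h1, stab_val hg]
  exact hx

omit [Algebra.IsAlgebraic F kb] in
theorem stab_pow {g : Gal(kb/F)} (hg : ∀ x, g x ∈ V ↔ x ∈ V) (n : ℕ) (x : kb) :
    (g ^ n) x ∈ V ↔ x ∈ V := by
  induction n with
  | zero => rw [pow_zero, AlgEquiv.one_apply]
  | succ n ih => rw [pow_succ', AlgEquiv.mul_apply, hg, ih]

omit [Algebra.IsAlgebraic F kb] in
theorem stab_inv {g : Gal(kb/F)} (hg : ∀ x, g x ∈ V ↔ x ∈ V) (x : kb) :
    g⁻¹ x ∈ V ↔ x ∈ V := by
  rw [← hg (g⁻¹ x)]
  have h1 : g (g⁻¹ x) = x := g.apply_symm_apply x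
  rw [h1]

variable {δ Φ : Gal(kb/F)} (hδ : ∀ x, δ x ∈ V ↔ x ∈ V) (hΦ : ∀ x, Φ x ∈ V ↔ x ∈ V)
  (hδ1 : ∀ x ∈ V, V.valuation (δ x - x) < 1) {q : ℕ}
  (hΦq : ∀ x ∈ V, V.valuation (Φ x - x ^ q) < 1)

omit [Algebra.IsAlgebraic F kb] in
include hδ1 in
/-- the inertia element on units -/
theorem inert_unit {x : kb} (hx : V.valuation x = 1) : V.valuation (δ x / x - 1) < 1 :=
  one_unit_of_sub V hx (hδ1 x ((V.valuation_le_one_iff x).1 hx.le))

omit [Algebra.IsAlgebraic F kb] in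
include hδ1 in
theorem inert_class {x y : kb} (hx : x ≠ 0) (hy : y ≠ 0) (h : V.valuation x = V.valuation y) :
    V.valuation ((δ x / x) / (δ y / y) - 1) < 1 := by
  have h1 : V.valuation (x / y) = 1 := by
    rw [map_div₀, h, div_self]
    rwa [Ne, map_eq_zero]
  have h2 := inert_unit hδ1 h1
  have hδy : δ y ≠ 0 := by rwa [Ne, EmbeddingLike.map_eq_zero_iff]
  have h3 : δ (x / y) / (x / y) = (δ x / x) / (δ y / y) := by
    rw [map_div₀]
    field_simp
  rwa [h3] at h2

include hδ hδ1 in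
theorem inert_pow {x : kb} (hx : x ≠ 0) (m : ℕ) :
    V.valuation ((δ ^ m) x / x / (δ x / x) ^ m - 1) < 1 := by
  have hδx : δ x ≠ 0 := by rwa [Ne, EmbeddingLike.map_eq_zero_iff]
  induction m with
  | zero =>
    rw [pow_zero, pow_zero, AlgEquiv.one_apply, div_self hx, div_one, sub_self, map_zero]
    exact zero_lt_one
  | succ m ih =>
    have hm : (δ ^ m) x ≠ 0 := by rwa [Ne, EmbeddingLike.map_eq_zero_iff]
    have h1 := inert_class hδ1 (x := (δ ^ m) x) (y := x) hm hx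
      (stab_val (stab_pow hδ m) x)
    have h2 := one_unit_mul V h1 ih
    have h3 : δ ((δ ^ m) x) / (δ ^ m) x / (δ x / x) * ((δ ^ m) x / x / (δ x / x) ^ m) =
        (δ ^ (m + 1)) x / x / (δ x / x) ^ (m + 1) := by
      rw [pow_succ' δ m, AlgEquiv.mul_apply, pow_succ (δ x / x) m]
      field_simp
    rwa [h3] at h2

include hδ hΦ hδ1 hΦq in
/-- the relation, up to one-units -/
theorem rel_one_unit {x : kb} (hx : x ≠ 0) :
    V.valuation (Φ (δ x) / (δ ^ q) (Φ x) - 1) < 1 := by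
  have hδx : δ x ≠ 0 := by rwa [Ne, EmbeddingLike.map_eq_zero_iff]
  have hΦx : Φ x ≠ 0 := by rwa [Ne, EmbeddingLike.map_eq_zero_iff]
  have hδΦx : δ (Φ x) ≠ 0 := by rwa [Ne, EmbeddingLike.map_eq_zero_iff]
  have hqx : (δ ^ q) (Φ x) ≠ 0 := by rwa [Ne, EmbeddingLike.map_eq_zero_iff]
  have hΦδx : Φ (δ x) ≠ 0 := by rwa [Ne, EmbeddingLike.map_eq_zero_iff]
  -- `Φ (δ x / x)` and `(δ x / x) ^ q`
  have h1 : V.valuation (δ x / x) = 1 := by
    rw [map_div₀, stab_val hδ, div_self]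
    rwa [Ne, map_eq_zero]
  have h2 : V.valuation (Φ (δ x / x) / (δ x / x) ^ q - 1) < 1 :=
    one_unit_of_sub V (by rw [map_pow, h1, one_pow])
      (hΦq _ ((V.valuation_le_one_iff _).1 h1.le))
  have h3 := inert_pow hδ hδ1 hΦx q
  have h4 := one_unit_pow V (inert_class hδ1 hΦx hx (stab_val hΦ x)) q
  have h5 := one_unit_div V h2 (one_unit_mul V h3 h4)
  have h6 : Φ (δ x / x) / (δ x / x) ^ q /
      ((δ ^ q) (Φ x) / Φ x / (δ (Φ x) / Φ x) ^ q * (δ (Φ x) / Φ x / (δ x / x)) ^ q) =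
      Φ (δ x) / (δ ^ q) (Φ x) := by
    rw [map_div₀, div_pow (δ (Φ x) / Φ x) (δ x / x) q]
    have e1 : (δ x / x) ^ q ≠ 0 := pow_ne_zero _ (div_ne_zero hδx hx)
    have e2 : (δ (Φ x) / Φ x) ^ q ≠ 0 := pow_ne_zero _ (div_ne_zero hδΦx hΦx)
    generalize (δ x / x) ^ q = A at *
    generalize (δ (Φ x) / Φ x) ^ q = B at *
    field_simp
  rwa [h6] at h5

include hδ hΦ hδ1 hΦq in
/-- the relation on the smallest field closed under `p`-th roots -/
theorem rel_pcl {p : ℕ} (hp : p.Prime) (hVp : V.valuation (p : kb) = 1) {t : kb}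
    (ht : t ∈ pcl p F kb) : Φ (δ t) = (δ ^ q) (Φ t) := by
  set ψ : Gal(kb/F) := (δ ^ q * Φ)⁻¹ with hψ
  have hψV : ∀ x, ψ x ∈ V ↔ x ∈ V := by
    apply stab_inv
    intro x
    rw [AlgEquiv.mul_apply, stab_pow hδ, hΦ]
  have h1 : ∀ x : kb, ψ ((δ ^ q) (Φ x)) = x := by
    intro x
    have h2 : ψ ((δ ^ q * Φ) x) = x := (δ ^ q * Φ).symm_apply_apply x
    exact h2
  have h2 : (ψ * (Φ * δ)) t = t := by
    refine pcl_fix (p := p) (fun x hx => ?_) ht
    rcases eq_or_ne x 0 with rfl | hx0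
    · rw [map_zero]
    have h3 := stab_one_unit hψV (rel_one_unit hδ hΦ hδ1 hΦq hx0)
    rw [map_div₀, h1] at h3
    have h4 : (ψ (Φ (δ x)) / x) ^ p ^ 1 = 1 := by
      rw [pow_one, div_pow, ← map_pow, ← map_pow, ← map_pow]
      have h5 : ψ (Φ (δ (x ^ p))) = x ^ p := hx
      rw [h5, div_self (pow_ne_zero _ hx0)]
    have h5 := root_eq_one hp V hVp h4 h3
    exact (div_eq_one_iff_eq hx0).1 h5
  have h3 : (δ ^ q * Φ) ((ψ * (Φ * δ)) t) = (δ ^ q * Φ) t := by rw [h2]
  have h4 : (δ ^ q * Φ) ((ψ * (Φ * δ)) t) = Φ (δ t) := (δ ^ q * Φ).apply_symm_apply (Φ (δ t))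
  rw [← h4, h3]
  rfl

end act

variable {F : Type*} [Field F] [NumberField F] {kb : Type*} [Field kb] [Algebra F kb]
  [IsGalois F kb]

omit [IsGalois F kb] in
/-- elements of `F` which are units at `w` -/
theorem BV.val_of_unit (D : BV kb) {w : HeightOneSpectrum (𝓞 F)}
    (hw : ∀ a : 𝓞 F, jB F kb a ∈ D.Q ↔ a ∈ w.asIdeal) {x : F} (hx : w.valuation F x = 1) :
    D.V.valuation (algebraMap F kb x) = 1 := by
  obtain ⟨a, ⟨b, hb⟩, hab⟩ := w.exists_primeCompl_mul_eq_of_integer x hx.le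
  have hb' : b ∉ w.asIdeal := hb
  have hvb : w.valuation F (b : F) = 1 :=
    (HeightOneSpectrum.valuation_eq_one_iff_notMem (K := F) w (r := b)).mpr hb'
  have h1 : x * (b : F) = (a : F) := hab
  have hva : w.valuation F (a : F) = 1 := by rw [← h1, map_mul, hx, hvb, one_mul]
  have ha' : a ∉ w.asIdeal :=
    (HeightOneSpectrum.valuation_eq_one_iff_notMem (K := F) w (r := a)).mp hva
  have e1 := D.eq (jB F kb b) (by rw [hw]; exact hb')
  have e2 := D.eq (jB F kb a) (by rw [hw]; exact ha')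
  rw [jB_coe] at e1 e2
  rw [← h1, map_mul, map_mul, e1, mul_one] at e2
  exact e2

/-- **Inertia and Frobenius elements.** -/
theorem local_pair [IsAlgClosed kb] {p : ℕ} (hp : p.Prime) {ζ : F} (hζ : IsPrimitiveRoot ζ p)
    (w : HeightOneSpectrum (𝓞 F)) (hpw : (p : 𝓞 F) ∉ w.asIdeal) {c : F} (hc0 : c ≠ 0)
    (hc : ¬ PV p w c) {γ : kb} (hγ : γ ^ p = algebraMap F kb c) :
    ∃ (δ Φ : Gal(kb/F)) (q : ℕ), 2 ≤ q ∧ δ γ ≠ γ ∧
      (∀ (n : ℕ) (z : kb), z ^ p ^ n = 1 → δ z = z ∧ Φ z = z ^ q) ∧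
      (∀ e : F, e ≠ 0 → PV p w e → ∀ y : kb, y ^ p = algebraMap F kb e → δ y = y) ∧
      (∀ (n m : ℕ) (z y : kb), z ^ p ^ n = 1 → z ≠ 1 → y ^ p ^ m = 1 - z → δ y = y) ∧
      ∀ t ∈ pcl p F kb, Φ (δ t) = (δ ^ q) (Φ t) := by
  obtain ⟨D, hDm, hD⟩ := exists_BV (F := F) (kb := kb) w
  have hDp := D.prime
  obtain ⟨Φ, q, hq, hΦQ, hΦ⟩ := D.exists_frob hDm w hD
  obtain ⟨δ, hδQ, hδ, hδγ⟩ := exists_inertia D.Q w hD hp hζ hc0 hc hγ
  have hδV := D.stab hδQ
  have hΦV := D.stab hΦQ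
  have hδ1 : ∀ x ∈ D.V, D.V.valuation (δ x - x) < 1 := by
    intro x hx
    have h1 := D.approx (n := 1) hδQ (fun b => by rw [pow_one]; exact hδ b) hx
    rwa [pow_one] at h1
  have hΦq : ∀ x ∈ D.V, D.V.valuation (Φ x - x ^ q) < 1 := fun x hx => D.approx hΦQ hΦ hx
  have hVp : D.V.valuation (p : kb) = 1 := by
    have h1 := D.eq (jB F kb (p : 𝓞 F)) (by rw [hD]; exact hpw)
    rw [jB_coe] at h1
    have h2 : algebraMap F kb ((p : 𝓞 F) : F) = (p : kb) := by
      have h3 : ((p : 𝓞 F) : F) = (p : F) := map_natCast (algebraMap (𝓞 F) F) p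
      rw [h3, map_natCast]
    rwa [h2] at h1
  -- roots of fixed units
  have key : ∀ (n : ℕ) (u y : kb), D.V.valuation u = 1 → δ u = u → y ^ p ^ n = u → δ y = y := by
    intro n u y hu hδu hy
    have hn : p ^ n ≠ 0 := pow_ne_zero _ hp.ne_zero
    have hvy : D.V.valuation y = 1 := by
      have h1 : D.V.valuation y ^ p ^ n = 1 := by rw [← map_pow, hy, hu]
      exact (pow_eq_one_iff.1 h1).resolve_right hn
    have hy0 : y ≠ 0 := by
      rintro rfl
      rw [map_zero] at hvy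
      exact zero_ne_one hvy
    have hu0 : u ≠ 0 := by
      rintro rfl
      rw [map_zero] at hu
      exact zero_ne_one hu
    have h1 := inert_unit hδ1 hvy
    have h2 : (δ y / y) ^ p ^ n = 1 := by
      rw [div_pow, ← map_pow, hy, hδu, div_self hu0]
    exact (div_eq_one_iff_eq hy0).1 (root_eq_one hp D.V hVp h2 h1)
  have hz : ∀ (n : ℕ) (z : kb), z ^ p ^ n = 1 → δ z = z := fun n z hz =>
    key n 1 z (map_one _) (map_one δ) hz
  refine ⟨δ, Φ, q, hq, hδγ, fun n z hzn => ⟨hz n z hzn, ?_⟩, ?_, ?_, fun t ht =>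
    rel_pcl hδV hΦV hδ1 hΦq hp hVp ht⟩
  · have hn : p ^ n ≠ 0 := pow_ne_zero _ hp.ne_zero
    have hzV := mem_of_root D.V hn hzn
    have hvz : D.V.valuation z = 1 := by
      have h1 : D.V.valuation z ^ p ^ n = 1 := by rw [← map_pow, hzn, map_one]
      exact (pow_eq_one_iff.1 h1).resolve_right hn
    have hz0 : z ≠ 0 := by
      rintro rfl
      rw [map_zero] at hvz
      exact zero_ne_one hvz
    have h1 := one_unit_of_sub D.V (by rw [map_pow, hvz, one_pow]) (hΦq z hzV)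
    have h2 : (Φ z / z ^ q) ^ p ^ n = 1 := by
      rw [div_pow, ← map_pow, hzn, map_one, ← pow_mul, mul_comm, pow_mul, hzn, one_pow, div_one]
    exact (div_eq_one_iff_eq (pow_ne_zero _ hz0)).1 (root_eq_one hp D.V hVp h2 h1)
  · rintro e he ⟨t, ht, het⟩ y hy
    have ht' : algebraMap F kb t ≠ 0 := by rwa [Ne, map_eq_zero]
    have h1 : w.valuation F (e / t ^ p) = 1 := by
      rw [map_div₀, map_pow, het, div_self]
      exact pow_ne_zero _ (by rwa [Ne, Valuation.zero_iff])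
    have h2 := key 1 (algebraMap F kb (e / t ^ p)) (y / algebraMap F kb t) (D.val_of_unit hD h1)
      (δ.commutes _) (by rw [pow_one, div_pow, hy, map_div₀, map_pow])
    rw [map_div₀, δ.commutes] at h2
    exact (div_left_inj' ht').1 h2
  · intro n m z y hzn hz1 hy
    exact key m (1 - z) y (val_one_sub hp D.V hVp hzn hz1) (by rw [map_sub, map_one, hz n z hzn]) hy

end Pool.Agent.Lib.MP_2f3286_ag.Fer.Ty
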