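import Pool.Agent.Lib.MP_2f3286_ag.Fer.Ty.V
import Pool.Agent.Lib.MP_2f3286_ag.Fer.Ty.LC
import Pool.Agent.Lib.MP_2f3286_ag.Fer.Rt
import Pool.Agent.Lib.MP_2f3286_ag.Koe.Restrict

/-!
# The units of `M` fixed by the elements which are trivial on the field closed under `p`-th roots
-/

open IsDedekindDomain NumberField
open Pool.Agent.Lib.MP_2f3286_ag.Koe

namespace Pool.Agent.Lib.MP_2f3286_ag.Fer.Ty

/-- a compatible system of roots of unity which starts with a given one -/
theorem exists_zet {p : ℕ} (hp : p.Prime) {kb : Type*} [Field kb] [IsAlgClosed kb] {ζ : kb}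
    (hζ : IsPrimitiveRoot ζ p) : ∃ Z : Zet p kb, Z.z 1 = ζ := by
  have h1 : ∀ x : kb, ∃ y : kb, y ^ p = x := fun x => IsAlgClosed.exists_pow_nat_eq x hp.pos
  choose g hg using h1
  let f : ℕ → kb := fun n => g^[n] ζ
  have hf : ∀ n, f (n + 1) ^ p = f n := by
    intro n
    change (g^[n + 1] ζ) ^ p = g^[n] ζ
    rw [Function.iterate_succ_apply', hg]
  have hprim : ∀ n, IsPrimitiveRoot (f n) (p ^ (n + 1)) := by
    intro n
    induction n with
    | zero =>
      rw [zero_add, pow_one]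
      exact hζ
    | succ n ih =>
      have : Fact p.Prime := ⟨hp⟩
      rw [IsPrimitiveRoot.iff_orderOf]
      apply orderOf_eq_prime_pow
      · rw [pow_succ' p n, pow_mul, hf]
        have h2 := ih
        intro h3
        have h4 := h2.dvd_of_pow_eq_one _ h3
        have h5 := Nat.le_of_dvd (pow_pos hp.pos n) h4
        exact absurd h5 (not_le.2 (Nat.pow_lt_pow_right hp.one_lt (Nat.lt_succ_self n)))
      · rw [pow_succ' p (n + 1), pow_mul, hf, ih.pow_eq_one]
  refine ⟨⟨fun n => match n with | 0 => 1 | n + 1 => f n, ?_, ?_⟩, rfl⟩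
  · intro n
    cases n with
    | zero => rw [pow_zero]; exact IsPrimitiveRoot.one
    | succ n => exact hprim n
  · intro n
    cases n with
    | zero =>
      change ζ ^ p = 1
      exact hζ.pow_eq_one
    | succ n => exact hf n

section

variable {F kb K M : Type*} [Field F] [Field kb] [Algebra F kb] [IsGalois F kb] [IsAlgClosed kb]
  [Field K] [Field M] [Algebra K M] [Algebra kb M] [Algebra.IsAlgebraic K M]
  (s : Gal(kb/F) →* Gal(M/K)) (hs : Continuous s)
  (hsec : ∀ σ a, s σ (algebraMap kb M a) = algebraMap kb M (σ a)) (p : ℕ)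

/-- the elements of `M` fixed by `s σ` for all `σ` trivial on the field closed under `p`-th roots -/
def nF : IntermediateField K M := fixF s (pcl p F kb)

variable {p}

omit [IsGalois F kb] [IsAlgClosed kb] [Algebra kb M] [Algebra.IsAlgebraic K M] in
theorem mem_nF {x : M} : x ∈ nF s p ↔ ∀ σ : Gal(kb/F), (∀ t ∈ pcl p F kb, σ t = t) →
    s σ x = x := by
  constructor
  · intro h σ hσ
    exact h σ fun a => hσ a a.2
  · intro h σ hσ
    exact h σ fun t ht => hσ ⟨t, ht⟩

omit [IsGalois F kb] [IsAlgClosed kb] [Algebra.IsAlgebraic K M] in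
include hsec in
theorem const_nF {t : kb} (ht : t ∈ pcl p F kb) : algebraMap kb M t ∈ nF s p := by
  rw [mem_nF]
  intro σ hσ
  rw [hsec, hσ t ht]

omit [IsGalois F kb] [IsAlgClosed kb] [Algebra kb M] [Algebra.IsAlgebraic K M] in
theorem smul_nF (σ : Gal(kb/F)) {x : M} (hx : x ∈ nF s p) : s σ x ∈ nF s p := by
  rw [mem_nF] at hx ⊢
  intro τ hτ
  have h1 : s τ (s σ x) = s σ (s (σ⁻¹ * τ * σ) x) := by
    rw [← AlgEquiv.mul_apply, ← AlgEquiv.mul_apply, ← map_mul, ← map_mul]
    congr 2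
    group
  rw [h1, hx]
  intro t ht
  change σ⁻¹ (τ (σ t)) = t
  rw [hτ _ (pcl_map σ ht)]
  exact σ.symm_apply_apply t

omit [IsGalois F kb] [IsAlgClosed kb] [Algebra kb M] [Algebra.IsAlgebraic K M] in
/-- a relation on the field closed under `p`-th roots gives one on `nF` -/
theorem rel_nF {σ τ : Gal(kb/F)} (h : ∀ t ∈ pcl p F kb, σ t = τ t) {x : M} (hx : x ∈ nF s p) :
    s σ x = s τ x := by
  rw [mem_nF] at hx
  have h1 := hx (τ⁻¹ * σ) (fun t ht => by
    change τ⁻¹ (σ t) = t
    rw [h t ht]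
    exact τ.symm_apply_apply t)
  rw [map_mul, map_inv] at h1
  have h2 := congrArg (s τ) h1
  rw [← h2]
  change s σ x = s τ ((s τ)⁻¹ (s σ x))
  exact ((s τ).apply_symm_apply (s σ x)).symm

include hs hsec in
/-- `nF` is closed under `p`-th roots -/
theorem root_nF (hp : p.Prime) {u : M} (hu : u ^ p ∈ nF s p) : u ∈ nF s p := by
  rcases eq_or_ne u 0 with rfl | hu0
  · exact zero_mem _
  let T := pcl p F kb
  have hT : Algebra.IsAlgebraic T kb := Algebra.IsAlgebraic.tower_top (K := F) T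
  have : IsGalois T kb := inferInstance
  let N := nF s p
  have hL : ∀ σ : Gal(kb/F), (∀ a : T, σ (algebraMap T kb a) = algebraMap T kb a) →
      ∀ x : N, s σ (algebraMap N M x) = algebraMap N M x := fun σ hσ x => x.2 σ hσ
  let s' : Gal(kb/T) →* Gal(M/N) := resS s (AlgEquiv.refl : kb ≃ₐ[T] kb) hL
  have hs' : Continuous s' := resS_continuous s AlgEquiv.refl hL hs
  have hsec' : ∀ σ a, s' σ (algebraMap kb M a) = algebraMap kb M (σ a) := by
    intro σ a
    change s (resG AlgEquiv.refl σ) (algebraMap kb M a) = _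
    rw [hsec]
    rfl
  have hN : Algebra.IsAlgebraic N M := Algebra.IsAlgebraic.tower_top (K := K) N
  obtain ⟨a, ha, y, hy, -, hxy⟩ := kum_root s' hs' hsec' (x := u ^ p) (T := u)
    (fun σ => hL _ (resG_fix AlgEquiv.refl σ) ⟨_, hu⟩) (pow_ne_zero _ hu0) hp.one_lt.le rfl
  obtain ⟨b, hb⟩ := IsAlgClosed.exists_pow_nat_eq ((a : kb)) hp.pos
  have hbT : b ∈ pcl p F kb := by
    apply pcl_root
    rw [hb]
    exact a.2
  have hyN : y ∈ nF s p := by
    intro σ hσ
    obtain ⟨τ, hτ, -⟩ := resG_surj (k := F) (AlgEquiv.refl : kb ≃ₐ[T] kb) σ hσ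
    rw [← hτ]
    exact hy τ
  have hbN := const_nF s hsec hbT
  have hb0 : b ≠ 0 := by
    rintro rfl
    rw [zero_pow hp.ne_zero] at hb
    exact ha (Subtype.ext hb.symm)
  have hy0 : y ≠ 0 := by
    rintro rfl
    rw [zero_pow hp.ne_zero, mul_zero] at hxy
    exact pow_ne_zero _ hu0 hxy
  have hby : algebraMap kb M b * y ≠ 0 := mul_ne_zero ((_root_.map_ne_zero _).2 hb0) hy0
  have h1 : (u / (algebraMap kb M b * y)) ^ p = 1 := by
    rw [div_pow, div_eq_one_iff_eq (pow_ne_zero _ hby), hxy, mul_pow, ← map_pow, hb]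
    rfl
  obtain ⟨c, hc⟩ := root_of_unity_mem kb M hp.pos h1
  have hcT : c ∈ pcl p F kb := by
    apply pcl_root
    have h2 : c ^ p = 1 := by
      apply (algebraMap kb M).injective
      rw [map_pow, hc, h1, map_one]
    rw [h2]
    exact one_mem _
  have h3 : u = algebraMap kb M c * (algebraMap kb M b * y) := by
    rw [hc, div_mul_cancel₀ _ hby]
  rw [h3]
  exact mul_mem (const_nF s hsec hcT) (mul_mem hbN hyN)

end

end Pool.Agent.Lib.MP_2f3286_ag.Fer.Ty
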