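import Pool.Agent.Lib.MP_2f3286_ag.Fer.Ty.TA

/-!
# The types lemmas for a section at a place which does not divide `p`
-/

open IsDedekindDomain NumberField
open Pool.Agent.Lib.MP_2f3286_ag.Koe

namespace Pool.Agent.Lib.MP_2f3286_ag.Fer.Ty

/-- the units at the valuation rings of `𝒱` -/
def UnV {M : Type*} [Field M] (𝒱 : Set (ValuationSubring M)) (x : M) : Prop :=
  x ≠ 0 ∧ ∀ V ∈ 𝒱, x ∈ V ∧ x⁻¹ ∈ V

section UnV

variable {M : Type*} [Field M] {𝒱 : Set (ValuationSubring M)} {x y : M}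

theorem mem_of_pow' (V : ValuationSubring M) {x : M} {n : ℕ} (hn : n ≠ 0)
    (h : x ^ n ∈ V) : x ∈ V := by
  rw [← V.valuation_le_one_iff] at h ⊢
  rw [map_pow] at h
  exact (pow_le_one_iff hn).1 h

theorem UnV.mul (hx : UnV 𝒱 x) (hy : UnV 𝒱 y) : UnV 𝒱 (x * y) :=
  ⟨mul_ne_zero hx.1 hy.1, fun V hV => ⟨mul_mem (hx.2 V hV).1 (hy.2 V hV).1, by
    rw [mul_inv]; exact mul_mem (hx.2 V hV).2 (hy.2 V hV).2⟩⟩

theorem UnV.inv (hx : UnV 𝒱 x) : UnV 𝒱 x⁻¹ :=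
  ⟨inv_ne_zero hx.1, fun V hV => ⟨(hx.2 V hV).2, by rw [inv_inv]; exact (hx.2 V hV).1⟩⟩

theorem UnV.one : UnV 𝒱 (1 : M) :=
  ⟨one_ne_zero, fun V _ => ⟨one_mem V, by rw [inv_one]; exact one_mem V⟩⟩

theorem UnV.neg (hx : UnV 𝒱 x) : UnV 𝒱 (-x) :=
  ⟨neg_ne_zero.2 hx.1, fun V hV => ⟨neg_mem (hx.2 V hV).1, by
    rw [inv_neg]; exact neg_mem (hx.2 V hV).2⟩⟩

theorem UnV.pow (hx : UnV 𝒱 x) (n : ℕ) : UnV 𝒱 (x ^ n) := by
  induction n with
  | zero => rw [pow_zero]; exact UnV.one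
  | succ n ih => rw [pow_succ]; exact ih.mul hx

theorem UnV.of_pow {n : ℕ} (hn : n ≠ 0) (hx : UnV 𝒱 (x ^ n)) : UnV 𝒱 x := by
  refine ⟨?_, fun V hV => ⟨mem_of_pow' V hn (hx.2 V hV).1, mem_of_pow' V hn ?_⟩⟩
  · rintro rfl
    exact hx.1 (zero_pow hn)
  · rw [inv_pow]
    exact (hx.2 V hV).2

/-- factors of units -/
theorem UnV.of_mul {y : M} (h : UnV 𝒱 (x * y)) (hx : ∀ V ∈ 𝒱, x ∈ V) (hy : ∀ V ∈ 𝒱, y ∈ V) :
    UnV 𝒱 x := by
  have hx0 : x ≠ 0 := left_ne_zero_of_mul h.1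
  have hy0 : y ≠ 0 := right_ne_zero_of_mul h.1
  refine ⟨hx0, fun V hV => ⟨hx V hV, ?_⟩⟩
  have h1 : x⁻¹ = (x * y)⁻¹ * y := by
    rw [mul_inv, mul_assoc, inv_mul_cancel₀ hy0, mul_one]
  rw [h1]
  exact mul_mem (h.2 V hV).2 (hy V hV)

theorem UnV.of_const {C : Type*} [Field C] [Algebra C M]
    (h : ∀ V ∈ 𝒱, ∀ a : C, algebraMap C M a ∈ V) {a : C} (ha : a ≠ 0) :
    UnV 𝒱 (algebraMap C M a) :=
  ⟨(_root_.map_ne_zero _).2 ha, fun V hV => ⟨h V hV a, by rw [← map_inv₀]; exact h V hV _⟩⟩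

theorem UnV.val (hx : UnV 𝒱 x) {V : ValuationSubring M} (hV : V ∈ 𝒱) : V.valuation x = 1 := by
  obtain ⟨h1, h2⟩ := hx.2 V hV
  have e1 := (V.valuation_le_one_iff _).2 h1
  have e2 := (V.valuation_le_one_iff _).2 h2
  rw [map_inv₀] at e2
  have e3 : V.valuation x ≠ 0 := by rw [Ne, Valuation.zero_iff]; exact hx.1
  exact le_antisymm e1 ((inv_le_one₀ (zero_lt_iff.2 e3)).1 e2)

end UnV

section

variable {F kb K M : Type*} [Field F] [NumberField F] [Field kb] [Algebra F kb] [IsGalois F kb]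
  [IsAlgClosed kb] [Field K] [Field M] [Algebra K M] [Algebra kb M] [Algebra.IsAlgebraic K M]
  (s : Gal(kb/F) →* Gal(M/K)) (hs : Continuous s)
  (hsec : ∀ σ a, s σ (algebraMap kb M a) = algebraMap kb M (σ a)) {p : ℕ} (hp : p.Prime)
  (𝒱 : Set (ValuationSubring M)) (h𝒱 : ∀ V ∈ 𝒱, ∀ a : kb, algebraMap kb M a ∈ V)
  (hrad : ∀ ρ : M, UnV 𝒱 ρ → ∃ β : M, β ^ p = ρ)
  (h𝒱s : ∀ V ∈ 𝒱, ∀ σ, V.comap (s σ : M →+* M) ∈ 𝒱)

omit [NumberField F] [IsGalois F kb] [IsAlgClosed kb] [Algebra kb M] [Algebra.IsAlgebraic K M] in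
include h𝒱s in
theorem UnV.smul {x : M} (hx : UnV 𝒱 x) (σ : Gal(kb/F)) : UnV 𝒱 (s σ x) := by
  refine ⟨(_root_.map_ne_zero _).2 hx.1, fun V hV => ?_⟩
  obtain ⟨h1, h2⟩ := hx.2 _ (h𝒱s V hV σ)
  refine ⟨h1, ?_⟩
  rw [← map_inv₀]
  exact h2

include hs hsec hp h𝒱 hrad in
/-- the roots of unity and the units -/
theorem exists_WS {ζ : kb} (hζ : IsPrimitiveRoot ζ p) :
    ∃ (Z : Zet p kb) (S : WS p M), Z.z 1 = ζ ∧ (∀ n, S.z n = algebraMap kb M (Z.z n)) ∧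
      ∀ x, x ∈ S.W ↔ x ∈ nF s p ∧ UnV 𝒱 x := by
  have hp0 : p ≠ 0 := hp.ne_zero
  obtain ⟨Z, hZ⟩ := exists_zet hp hζ
  have hZp : ∀ n, Z.z n ∈ pcl p F kb := by
    intro n
    apply pcl_root_pow n
    rw [(Z.prim n).pow_eq_one]
    exact one_mem _
  have hZN : ∀ n i, algebraMap kb M (Z.z n ^ i) ∈ nF s p := fun n i =>
    const_nF s hsec (pow_mem (hZp n) i)
  have hroot : ∀ v : M, v ^ p ∈ nF s p ∧ UnV 𝒱 (v ^ p) → v ∈ nF s p ∧ UnV 𝒱 v := fun v hv =>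
    ⟨root_nF s hs hsec hp hv.1, hv.2.of_pow hp0⟩
  refine ⟨Z, { z := fun n => algebraMap kb M (Z.z n)
               prim := fun n => (Z.prim n).map_of_injective (algebraMap kb M).injective
               comp := fun n => by rw [← map_pow, Z.comp]
               W := {x | x ∈ nF s p ∧ UnV 𝒱 x}
               ne_zero := fun u hu => hu.2.1
               mul_mem := fun u hu v hv => ⟨mul_mem hu.1 hv.1, hu.2.mul hv.2⟩
               inv_mem := fun u hu => ⟨inv_mem hu.1, hu.2.inv⟩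
               neg_one_mem := ⟨neg_mem (one_mem _), UnV.one.neg⟩
               z_mem := fun n => ?_
               root := fun u hu => ?_
               root_mem := fun v hv => hroot v hv
               one_sub := fun x hx hxp => ?_
               diff := fun n i hi => ?_ }, hZ, fun n => rfl, fun x => Iff.rfl⟩
  · have h1 := hZN n 1
    rw [pow_one] at h1
    exact ⟨h1, UnV.of_const h𝒱 (Z.ne_zero' hp0 n)⟩
  · obtain ⟨β, hβ⟩ := hrad u hu.2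
    exact ⟨β, hroot β (by rw [hβ]; exact hu), hβ⟩
  · refine ⟨sub_mem (one_mem _) hx.1, ?_⟩
    have h1 := mul_neg_geom_sum x p
    have h2 : UnV 𝒱 ((1 - x) * ∑ i ∈ Finset.range p, x ^ i) := by rw [h1]; exact hxp.2
    exact h2.of_mul (fun V hV => sub_mem (one_mem V) (hx.2.2 V hV).1)
      (fun V hV => sum_mem fun i _ => pow_mem (hx.2.2 V hV).1 i)
  · have h1 : (1 : M) - algebraMap kb M (Z.z n) ^ i = algebraMap kb M (1 - Z.z n ^ i) := by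
      rw [map_sub, map_one, map_pow]
    change (1 : M) - algebraMap kb M (Z.z n) ^ i ∈ nF s p ∧
      UnV 𝒱 ((1 : M) - algebraMap kb M (Z.z n) ^ i)
    rw [h1]
    refine ⟨const_nF s hsec (sub_mem (one_mem _) (pow_mem (hZp n) i)), UnV.of_const h𝒱 ?_⟩
    rw [sub_ne_zero]
    intro h2
    apply hi
    change algebraMap kb M (Z.z n) ^ i = 1
    rw [← map_pow, ← h2, map_one]

end

end Pool.Agent.Lib.MP_2f3286_ag.Fer.Ty
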