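import Pool.Agent.Lib.MP_2f3286_ag.Fer.Ty.TB

/-!
# The classes of units of a section at the places which do not divide `p`
-/

open IsDedekindDomain NumberField
open Pool.Agent.Lib.MP_2f3286_ag.Koe

namespace Pool.Agent.Lib.MP_2f3286_ag.Fer.Ty

section

variable {F kb K M : Type*} [Field F] [NumberField F] [Field kb] [Algebra F kb] [IsGalois F kb]
  [IsAlgClosed kb] [Field K] [Field M] [Algebra K M] [Algebra kb M] [Algebra.IsAlgebraic K M]
  (s : Gal(kb/F) →* Gal(M/K)) (hs : Continuous s)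
  (hsec : ∀ σ a, s σ (algebraMap kb M a) = algebraMap kb M (σ a)) {p : ℕ} (hp : p.Prime)
  (𝒱 : Set (ValuationSubring M)) (h𝒱 : ∀ V ∈ 𝒱, ∀ a : kb, algebraMap kb M a ∈ V)
  (hrad : ∀ ρ : M, UnV 𝒱 ρ → ∃ β : M, β ^ p = ρ)
  (h𝒱s : ∀ V ∈ 𝒱, ∀ σ, V.comap (s σ : M →+* M) ∈ 𝒱)

omit [IsGalois F kb] [Algebra.IsAlgebraic K M] [Algebra K M] [NumberField F] [Algebra F kb]
  [Field F] [Field K] in
/-- roots of constants are constants -/
theorem root_const {n : ℕ} (hn : 0 < n) {a : kb} (ha : a ≠ 0) {v : M}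
    (hv : v ^ n = algebraMap kb M a) : ∃ b : kb, b ^ n = a ∧ algebraMap kb M b = v := by
  obtain ⟨b, hb⟩ := IsAlgClosed.exists_pow_nat_eq a hn
  have hb0 : b ≠ 0 := by
    rintro rfl
    rw [zero_pow hn.ne'] at hb
    exact ha hb.symm
  have hbM : algebraMap kb M b ≠ 0 := (_root_.map_ne_zero _).2 hb0
  have h1 : (v / algebraMap kb M b) ^ n = 1 := by
    rw [div_pow, hv, ← map_pow, hb, div_self ((_root_.map_ne_zero _).2 ha)]
  obtain ⟨c, hc⟩ := root_of_unity_mem kb M hn h1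
  refine ⟨c * b, ?_, ?_⟩
  · apply (algebraMap kb M).injective
    rw [map_pow, map_mul, hc, div_mul_cancel₀ _ hbM, hv]
  · rw [map_mul, hc, div_mul_cancel₀ _ hbM]

include hs hsec hp h𝒱 hrad h𝒱s in
/-- **Inertia and Frobenius elements acting on the units of `M`.** -/
theorem exists_act {ζ : F} (hζ : IsPrimitiveRoot ζ p) (w : HeightOneSpectrum (𝓞 F))
    (hpw : (p : 𝓞 F) ∉ w.asIdeal) {c : F} (hc0 : c ≠ 0) (hc : ¬ PV p w c) {γ : kb}
    (hγ : γ ^ p = algebraMap F kb c) [Fact p.Prime] :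
    ∃ (S : WS p M) (δ Φ : Gal(kb/F)) (q : ℕ), S.Act (s δ) (s Φ) q ∧
      S.z 1 = algebraMap kb M (algebraMap F kb ζ) ∧
      (∀ x, x ∈ S.W ↔ x ∈ nF s p ∧ UnV 𝒱 x) ∧ δ γ ≠ γ ∧
      ∀ e : F, e ≠ 0 → PV p w e → ∀ y : kb, y ^ p = algebraMap F kb e → δ y = y := by
  have hζ' : IsPrimitiveRoot (algebraMap F kb ζ) p :=
    hζ.map_of_injective (algebraMap F kb).injective
  obtain ⟨Z, S, hZ1, hSz, hSW⟩ := exists_WS s hs hsec hp 𝒱 h𝒱 hrad hζ'
  obtain ⟨δ, Φ, q, hq, hδγ, hroot, hPV, h1z, hrel⟩ := local_pair hp hζ w hpw hc0 hc hγ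
  have hZn : ∀ n, Z.z n ^ p ^ n = 1 := fun n => (Z.prim n).pow_eq_one
  refine ⟨S, δ, Φ, q, ⟨fun u hu => ?_, fun u hu => ?_, fun n => ?_, fun n => ?_, ?_, hq,
    fun u hu => ?_, fun n i hi => ?_⟩, by rw [hSz, hZ1], hSW, hδγ, hPV⟩
  · rw [hSW] at hu ⊢
    exact ⟨smul_nF s δ hu.1, hu.2.smul s 𝒱 h𝒱s δ⟩
  · rw [hSW] at hu ⊢
    exact ⟨smul_nF s Φ hu.1, hu.2.smul s 𝒱 h𝒱s Φ⟩
  · change s δ (S.z n) = S.z n
    rw [hSz, hsec, (hroot n _ (hZn n)).1]
  · change s Φ (S.z n) = S.z n ^ q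
    rw [hSz, hsec, (hroot n _ (hZn n)).2, map_pow]
  · change s Φ (S.z 1) = S.z 1
    rw [hSz, hsec, hZ1, AlgEquiv.commutes]
  · rw [hSW] at hu
    have h1 : s (Φ * δ) u = s (δ ^ q * Φ) u := rel_nF s (p := p) (fun t ht => hrel t ht) hu.1
    rw [map_mul, map_mul, map_pow] at h1
    exact h1
  · have hi' : Z.z n ^ i ≠ 1 := by
      intro h2
      apply hi
      rw [hSz, ← map_pow, h2, map_one]
    have h1 : (1 : M) - S.z n ^ i = algebraMap kb M (1 - Z.z n ^ i) := by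
      rw [map_sub, map_one, map_pow, hSz]
    have hi0 : 1 - Z.z n ^ i ≠ 0 := by
      rw [sub_ne_zero]
      exact hi'.symm
    have hzi : (Z.z n ^ i) ^ p ^ n = 1 := by
      rw [← pow_mul, mul_comm, pow_mul, hZn, one_pow]
    refine ⟨?_, fun m v hv => ?_⟩
    · change s δ (1 - S.z n ^ i) = 1 - S.z n ^ i
      rw [h1, hsec, map_sub, map_one, map_pow, (hroot n _ (hZn n)).1]
    · rw [h1] at hv
      obtain ⟨b, hb, rfl⟩ := root_const (pow_pos hp.pos m) hi0 hv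
      rw [S.toZet.pw_zero, one_mul]
      change s δ (algebraMap kb M b) = algebraMap kb M b
      rw [hsec, h1z n m _ b hzi hi' hb]

end

section

variable {F kb K M : Type*} [Field F] [Field kb] [Algebra F kb] [Field K] [Field M] [Algebra K M]
  [Algebra kb M] {s : Gal(kb/F) →* Gal(M/K)}
  (hsec : ∀ σ a, s σ (algebraMap kb M a) = algebraMap kb M (σ a)) {p : ℕ} [Fact p.Prime]
  {S : WS p M}

omit [Fact p.Prime] in
/-- elements fixed by the section are in `nF` -/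
theorem fixed_nF {x : M} (hx : ∀ σ, s σ x = x) : x ∈ nF s p := by
  rw [mem_nF]
  exact fun σ _ => hx σ

include hsec in
/-- a constant whose exponent is divisible by `p` has a fixed root -/
theorem fix_of_dvd {δ : Gal(kb/F)} {c : F} {x : ℤ_[p]}
    (h : S.E (s δ) (algebraMap kb M (algebraMap F kb c)) x) (hx : (p : ℤ_[p]) ∣ x) {γ : kb}
    (hγ : γ ^ p = algebraMap F kb c) : δ γ = γ := by
  have h1 := h.2 1 (algebraMap kb M γ) (by rw [pow_one, ← map_pow, hγ])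
  rw [(S.toZet.pw_eq_one_iff (n := 1)).2 (by rwa [pow_one]), one_mul] at h1
  apply (algebraMap kb M).injective
  rw [← hsec]
  exact h1

include hsec in
/-- a constant with a fixed root has an exponent divisible by `p` -/
theorem dvd_of_fix {δ : Gal(kb/F)} {c : F} (hc : c ≠ 0) {x : ℤ_[p]}
    (h : S.E (s δ) (algebraMap kb M (algebraMap F kb c)) x) {γ : kb}
    (hγ : γ ^ p = algebraMap F kb c) (hδ : δ γ = γ) : (p : ℤ_[p]) ∣ x := by
  have hp := (Fact.out : p.Prime)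
  have h1 := h.2 1 (algebraMap kb M γ) (by rw [pow_one, ← map_pow, hγ])
  have hγ0 : γ ≠ 0 := by
    rintro rfl
    rw [zero_pow hp.ne_zero] at hγ
    exact (_root_.map_ne_zero (algebraMap F kb)).2 hc hγ.symm
  have hγM : algebraMap kb M γ ≠ 0 := (_root_.map_ne_zero _).2 hγ0
  have h2 : S.toZet.pw 1 x = 1 := by
    apply mul_right_cancel₀ hγM
    rw [← h1, one_mul]
    change s δ (algebraMap kb M γ) = _
    rw [hsec, hδ]
  have h3 := (S.toZet.pw_eq_one_iff (n := 1)).1 h2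
  rwa [pow_one] at h3

end

section

variable {F kb K M : Type*} [Field F] [NumberField F] [Field kb] [Algebra F kb] [IsGalois F kb]
  [IsAlgClosed kb] [Field K] [Field M] [Algebra K M] [Algebra kb M] [Algebra.IsAlgebraic K M]
  (s : Gal(kb/F) →* Gal(M/K)) (hs : Continuous s)
  (hsec : ∀ σ a, s σ (algebraMap kb M a) = algebraMap kb M (σ a)) {p : ℕ} (hp : p.Prime)
  (hp2 : p ≠ 2)
  (𝒱 : Set (ValuationSubring M)) (h𝒱 : ∀ V ∈ 𝒱, ∀ a : kb, algebraMap kb M a ∈ V)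
  (hrad : ∀ ρ : M, UnV 𝒱 ρ → ∃ β : M, β ^ p = ρ)
  (h𝒱s : ∀ V ∈ 𝒱, ∀ σ, V.comap (s σ : M →+* M) ∈ 𝒱)

include hs hsec hp hp2 h𝒱 hrad h𝒱s in
/-- **The quotients of the factors of `r ^ p + 1`.** -/
theorem pv_quot {ζ : F} (hζ : IsPrimitiveRoot ζ p) (w : HeightOneSpectrum (𝓞 F))
    (hpw : (p : 𝓞 F) ∉ w.asIdeal) {r : M} (hr : ∀ σ, s σ r = r) (hrU : UnV 𝒱 r)
    (hri : ∀ i : ℕ, UnV 𝒱 (r + algebraMap kb M (algebraMap F kb (ζ ^ i)))) {e : F} (he : e ≠ 0)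
    (hPe : PV p w e) {q : M} (hq : ∀ σ, s σ q = q)
    (hrq : r ^ p + 1 = algebraMap kb M (algebraMap F kb e) * q ^ p) {i j : ℕ} (hi : i < p)
    (hj : j < p) {c : F} (hc : c ≠ 0) {g : M} (hg : ∀ σ, s σ g = g)
    (h : r + algebraMap kb M (algebraMap F kb (ζ ^ i)) =
      algebraMap kb M (algebraMap F kb c) * g ^ p *
        (r + algebraMap kb M (algebraMap F kb (ζ ^ j)))) : PV p w c := by
  classical
  by_contra hPc
  have : Fact p.Prime := ⟨hp⟩
  obtain ⟨γ, hγ⟩ := IsAlgClosed.exists_pow_nat_eq (algebraMap F kb c) hp.pos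
  obtain ⟨S, δ, Φ, q', hA, hz1, hSW, hδγ, hfix⟩ :=
    exists_act s hs hsec hp 𝒱 h𝒱 hrad h𝒱s hζ w hpw hc hPc hγ
  apply hδγ
  have hz := hA.δz
  have hcst : ∀ a : F, a ≠ 0 → algebraMap kb M (algebraMap F kb a) ∈ S.W := by
    intro a ha
    rw [hSW]
    refine ⟨fixed_nF fun σ => by rw [hsec, AlgEquiv.commutes], ?_⟩
    exact UnV.of_const h𝒱 ((_root_.map_ne_zero _).2 ha)
  have hcfix : ∀ a : F, s δ (algebraMap kb M (algebraMap F kb a)) =
      algebraMap kb M (algebraMap F kb a) := by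
    intro a
    rw [hsec, AlgEquiv.commutes]
  have hzi : ∀ i : ℕ, algebraMap kb M (algebraMap F kb (ζ ^ i)) = S.z 1 ^ i := by
    intro i
    rw [hz1, map_pow, map_pow]
  have hW : ∀ i : ℕ, r + S.z 1 ^ i ∈ S.W := by
    intro i
    rw [← hzi, hSW]
    refine ⟨fixed_nF fun σ => ?_, hri i⟩
    rw [map_add, hr, hsec, AlgEquiv.commutes]
  have hrW : r ∈ S.W := (hSW r).2 ⟨fixed_nF hr, hrU⟩
  have hWfix : ∀ i : ℕ, s δ (r + S.z 1 ^ i) = r + S.z 1 ^ i := by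
    intro i
    rw [← hzi, map_add, hr, hcfix]
  choose x hx using fun i => WS.exists_E (g := s δ) hz (hW i) (hWfix i)
  -- the constant `e`
  obtain ⟨xe, hxe⟩ := WS.exists_E (g := s δ) hz (hcst e he) (hcfix e)
  obtain ⟨y, hy⟩ := IsAlgClosed.exists_pow_nat_eq (algebraMap F kb e) hp.pos
  have hde : (p : ℤ_[p]) ∣ xe := dvd_of_fix hsec he hxe hy (hfix e he hPe y hy)
  -- the element `q`
  have hprodW : r ^ p + 1 ∈ S.W := by
    rw [prod_add (S := S) hp2]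
    exact (WS.E.prod (g := s δ) hz (Finset.range p) (fun i _ => hW i) (fun i _ => hx i)).2
  have hqW : q ∈ S.W := by
    apply S.root_mem
    have h1 : q ^ p = (r ^ p + 1) / algebraMap kb M (algebraMap F kb e) := by
      rw [hrq, mul_div_cancel_left₀ _ (S.ne_zero _ (hcst e he))]
    rw [h1]
    exact S.div_mem hprodW (hcst e he)
  obtain ⟨xq, hxq⟩ := WS.exists_E (g := s δ) hz hqW (hq δ)
  have hsum : (p : ℤ_[p]) ∣ ∑ i ∈ Finset.range p, x i := by
    have h1 := (WS.E.prod (g := s δ) hz (Finset.range p) (fun i _ => hW i) (fun i _ => hx i)).1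
    rw [← prod_add (S := S) hp2, hrq] at h1
    have h2 := hxe.mul hz (hcst e he) (S.pow_mem hqW p) (hxq.pow hz hqW p)
    rw [h1.unique (S.mul_mem _ (hcst e he) _ (S.pow_mem hqW p)) h2]
    exact dvd_add hde (Dvd.intro _ rfl)
  have hv := WS.vtypes hp2 hA hrW (hr δ) (hr Φ) hW x (fun i _ => hx i) hsum hi hj
  -- the constant `c`
  obtain ⟨xc, hxc⟩ := WS.exists_E (g := s δ) hz (hcst c hc) (hcfix c)
  rw [hzi, hzi] at h
  have hgW : g ∈ S.W := by
    apply S.root_mem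
    have h1 : g ^ p = (r + S.z 1 ^ i) / (r + S.z 1 ^ j) / algebraMap kb M (algebraMap F kb c) := by
      rw [h, mul_div_cancel_right₀ _ (S.ne_zero _ (hW j)),
        mul_div_cancel_left₀ _ (S.ne_zero _ (hcst c hc))]
    rw [h1]
    exact S.div_mem (S.div_mem (hW i) (hW j)) (hcst c hc)
  obtain ⟨xg, hxg⟩ := WS.exists_E (g := s δ) hz hgW (hg δ)
  have h2 := (hxc.mul hz (hcst c hc) (S.pow_mem hgW p) (hxg.pow hz hgW p)).mul hz
    (S.mul_mem _ (hcst c hc) _ (S.pow_mem hgW p)) (hW j) (hx j)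
  rw [← h] at h2
  have h3 := (hx i).unique (hW i) h2
  refine fix_of_dvd hsec hxc ?_ hγ
  have h4 : xc = (x i - x j) - p * xg := by rw [h3]; ring
  rw [h4]
  exact dvd_sub hv (Dvd.intro _ rfl)

end

end Pool.Agent.Lib.MP_2f3286_ag.Fer.Ty
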