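import Pool.Agent.Lib.MP_2f3286_ag.Fer.Ty.D

/-!
# The exponents of the factors of `r ^ p + 1`
-/

namespace Pool.Agent.Lib.MP_2f3286_ag.Fer.Ty

variable {p : ℕ} [Fact p.Prime] {M : Type*} [Field M] {S : WS p M}
  {G : Type*} [Group G] [MulSemiringAction G M]

/-- powers of the roots of unity have exponent zero -/
theorem E_z {g : G} (hg : ∀ n, g • S.z n = S.z n) (N i : ℕ) : S.E g (S.z N ^ i) 0 := by
  have hp := (Fact.out : p.Prime)
  refine ⟨by rw [smul_pow', hg], fun n v hv => ?_⟩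
  rw [S.toZet.pw_zero, one_mul]
  have h3 : v ^ p ^ (N + n) = 1 := by
    rw [add_comm, pow_add, pow_mul, hv, ← pow_mul, mul_comm, pow_mul, (S.prim N).pow_eq_one,
      one_pow]
  have : NeZero (p ^ (N + n)) := ⟨pow_ne_zero _ hp.ne_zero⟩
  obtain ⟨j, -, rfl⟩ := (S.prim (N + n)).eq_pow_of_pow_eq_one h3
  rw [smul_pow', hg]

/-- minus one has exponent zero -/
theorem E_neg_one (hp2 : p ≠ 2) {g : G} (hg : ∀ n, g • S.z n = S.z n) : S.E g (-1 : M) 0 := by
  have hp := (Fact.out : p.Prime)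
  have hodd : Odd p := hp.odd_of_ne_two hp2
  refine ⟨by rw [smul_neg, smul_one], fun n v hv => ?_⟩
  rw [S.toZet.pw_zero, one_mul]
  have h3 : (-v) ^ p ^ n = 1 := by rw [(hodd.pow).neg_pow, hv, neg_neg]
  have : NeZero (p ^ n) := ⟨pow_ne_zero _ hp.ne_zero⟩
  obtain ⟨j, -, hj⟩ := (S.prim n).eq_pow_of_pow_eq_one h3
  have h4 : v = -(S.z n ^ j) := by rw [hj, neg_neg]
  rw [h4, smul_neg, smul_pow', hg]

/-- `- z⁻ⁱ r` and `r` have the same exponents, and `1 + z⁻ⁱ r` and `r + zⁱ` -/
theorem E_factor (hp2 : p ≠ 2) {g : G} (hg : ∀ n, g • S.z n = S.z n) {r : M} (hr : r ∈ S.W)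
    {ρ : ℤ_[p]} (hρ : S.E g r ρ) (i : ℕ) :
    -(S.z 1 ^ i)⁻¹ * r ∈ S.W ∧ S.E g (-(S.z 1 ^ i)⁻¹ * r) ρ := by
  have h1 := S.pow_mem (S.z_mem 1) i
  have h2 : -(S.z 1 ^ i)⁻¹ * r = (-1) * ((S.z 1 ^ i)⁻¹ * r) := by ring
  rw [h2]
  have h3 := S.mul_mem _ (S.inv_mem _ h1) _ hr
  refine ⟨S.mul_mem _ S.neg_one_mem _ h3, ?_⟩
  have h4 := ((E_z hg 1 i).inv hg h1).mul hg (S.inv_mem _ h1) hr hρ
  have h5 := (E_neg_one hp2 hg).mul hg S.neg_one_mem h3 h4
  rwa [neg_zero, zero_add, zero_add] at h5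

theorem E_factor' {g : G} (hg : ∀ n, g • S.z n = S.z n) {r : M} {i : ℕ}
    (hW : r + S.z 1 ^ i ∈ S.W) {e : ℤ_[p]} (he : S.E g (r + S.z 1 ^ i) e) :
    1 - -(S.z 1 ^ i)⁻¹ * r ∈ S.W ∧ S.E g (1 - -(S.z 1 ^ i)⁻¹ * r) e := by
  have h1 := S.pow_mem (S.z_mem 1) i
  have h0 : S.z 1 ^ i ≠ 0 := S.ne_zero _ h1
  have h2 : 1 - -(S.z 1 ^ i)⁻¹ * r = (S.z 1 ^ i)⁻¹ * (r + S.z 1 ^ i) := by
    field_simp
    ring
  rw [h2]
  refine ⟨S.mul_mem _ (S.inv_mem _ h1) _ hW, ?_⟩
  have h4 := ((E_z hg 1 i).inv hg h1).mul hg (S.inv_mem _ h1) hW he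
  rwa [neg_zero, zero_add] at h4

theorem prod_add (hp2 : p ≠ 2) (r : M) :
    r ^ p + 1 = ∏ i ∈ Finset.range p, (r + S.z 1 ^ i) := by
  have hp := (Fact.out : p.Prime)
  have hodd : Odd p := hp.odd_of_ne_two hp2
  have h := prod_one_sub (S := S) (n := 1) (-r⁻¹)
  rcases eq_or_ne r 0 with rfl | hr
  · rw [zero_pow hp.ne_zero, zero_add]
    simp only [zero_add]
    have h1 : ∀ i ∈ Finset.range p, S.z 1 ^ i = 1 - (1 - S.z 1 ^ i) := fun i _ => by ring
    rw [Finset.prod_pow_eq_pow_sum, Finset.sum_range_id]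
    have h2 : p ∣ p * (p - 1) / 2 := by
      obtain ⟨k, hk⟩ := hodd
      have h3 : p * (p - 1) / 2 = p * k := by
        rw [hk, Nat.add_sub_cancel, mul_comm 2 k, ← mul_assoc, Nat.mul_div_cancel _ (by norm_num)]
      rw [h3]
      exact Dvd.intro k rfl
    have h4 := (S.prim 1).pow_eq_one
    rw [pow_one] at h4
    obtain ⟨k, hk⟩ := h2
    rw [hk, pow_mul, h4, one_pow]
  · rw [pow_one] at h
    have h1 : ∀ i ∈ Finset.range p, r + S.z 1 ^ i = r * (1 - S.z 1 ^ i * -r⁻¹) := by
      intro i _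
      field_simp
      ring
    rw [Finset.prod_congr rfl h1, Finset.prod_mul_distrib, ← h, Finset.prod_const,
      Finset.card_range, hodd.neg_pow, inv_pow]
    field_simp
    ring

/-- **The exponents of the factors of `r ^ p + 1`.** -/
theorem WS.vtypes (hp2 : p ≠ 2) {δ Φ : G} {q : ℕ} (h : S.Act δ Φ q) {r : M} (hr : r ∈ S.W)
    (hδ : δ • r = r) (hΦ : Φ • r = r) (hW : ∀ i, r + S.z 1 ^ i ∈ S.W) (e : ℕ → ℤ_[p])
    (he : ∀ i < p, S.E δ (r + S.z 1 ^ i) (e i))
    (hsum : (p : ℤ_[p]) ∣ ∑ i ∈ Finset.range p, e i) {i j : ℕ} (hi : i < p) (hj : j < p) :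
    (p : ℤ_[p]) ∣ e i - e j := by
  classical
  have hp := (Fact.out : p.Prime)
  have hodd : Odd p := hp.odd_of_ne_two hp2
  have hz := h.δz
  obtain ⟨ρ, hρ⟩ := WS.exists_E hz hr hδ
  have hΦz1 : ∀ i, Φ • S.z 1 ^ i = S.z 1 ^ i := by
    intro i
    rw [smul_pow', h.Φ1]
  by_cases hρ0 : ρ = 0
  · -- at most one exponent is not zero
    rw [hρ0] at hρ
    obtain ⟨R, hR0, hRW, hRs⟩ := S.exists_seq hr
    have hRn := seq_root hR0 hRs
    have hRne : ∀ n, R n ≠ 0 := fun n => S.ne_zero _ (hRW n)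
    obtain ⟨c, hc⟩ := S.toZet.exists_pw (fun n => Φ • R n / R n) (fun n => by
      rw [div_pow, ← smul_pow', hRn, hΦ, div_self (S.ne_zero _ hr)]) (fun n => by
      rw [div_pow, ← smul_pow', hRs])
    have hΦR : ∀ n, Φ • R n = S.toZet.pw n c * R n := by
      intro n
      rw [← hc, div_mul_cancel₀ _ (hRne n)]
    have hq := h.hq
    obtain ⟨q', hq'⟩ : ∃ q', q - 1 = p * q' := by
      have h1 := h.mod
      have h2 : ((q - 1 : ℕ) : ZMod p) = 0 := by
        rw [Nat.cast_sub (by omega), h1, Nat.cast_one, sub_self]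
      exact (ZMod.natCast_eq_zero_iff _ _).1 h2
    have hq'0 : q' ≠ 0 := by
      rintro rfl
      omega
    have hqZ : (q : ℤ_[p]) - 1 = p * q' := by
      have h4 : ((q - 1 : ℕ) : ℤ_[p]) = (q : ℤ_[p]) - 1 := by
        rw [Nat.cast_sub (by omega), Nat.cast_one]
      rw [← h4, hq']
      push_cast
      ring
    have key : ∀ i, i < p → e i ≠ 0 → ((q : ℤ_[p]) - 1) ∣ c - i * q' := by
      intro i hi hei
      by_contra hcon
      apply hei
      obtain ⟨h1, h2⟩ := E_factor' hz (hW i) (he i hi)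
      have h3 := WS.tprime h (fun n => -(S.z (n + 1) ^ i)⁻¹ * R n) (fun n => by
          have h4 : -(S.z (n + 1) ^ i)⁻¹ * R n = (-1) * ((S.z (n + 1) ^ i)⁻¹ * R n) := by ring
          rw [h4]
          exact S.mul_mem _ S.neg_one_mem _ (S.mul_mem _ (S.inv_mem _
            (S.pow_mem (S.z_mem (n + 1)) i)) _ (hRW n))) (fun n => by
          rw [mul_pow, hodd.neg_pow, inv_pow, ← pow_mul, mul_comm i, pow_mul, S.comp, hRs])
        (fun n => by
          rw [smul_mul', smul_neg, smul_inv'', smul_pow', hz, hρ.2 n _ (hRn n), S.toZet.pw_zero,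
            one_mul]) (c - i * q') (fun n => by
          have h5 : S.z (n + 1) ^ q = S.z (n + 1) * S.z n ^ q' := by
            have h6 : q = 1 + p * q' := by omega
            rw [h6, pow_add, pow_one, pow_mul, S.comp]
          rw [smul_mul', smul_neg, smul_inv'', smul_pow', h.Φz, hΦR, h5, S.toZet.pw_sub,
            S.toZet.pw_nsmul, S.toZet.pw_nat, mul_pow, mul_inv, ← pow_mul, mul_comm q' i]
          have h7 : S.z n ^ (q' * i) ≠ 0 := pow_ne_zero _ (S.toZet.ne_zero' hp.ne_zero n)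
          have h8 : S.z (n + 1) ^ i ≠ 0 := pow_ne_zero _ (S.toZet.ne_zero' hp.ne_zero (n + 1))
          field_simp) hcon (by
          rw [hR0]
          exact h1)
      rw [hR0] at h3
      exact h2.unique h1 h3
    have huniq : ∀ i j, i < p → j < p → e i ≠ 0 → e j ≠ 0 → i = j := by
      have hlt : ∀ i j, i < j → j < p → e i ≠ 0 → e j ≠ 0 → False := by
        intro i j hij hj hei hej
        have h1 := dvd_sub (key i (by omega) hei) (key j hj hej)
        have h2 : c - i * q' - (c - j * q') = ((j - i : ℕ) : ℤ_[p]) * q' := by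
          rw [Nat.cast_sub hij.le]
          ring
        rw [h2, hqZ] at h1
        have h3 := (mul_dvd_mul_iff_right (Nat.cast_ne_zero.2 hq'0)).1 h1
        have h4 : (p : ℤ_[p]) ^ 1 ∣ ((j - i : ℕ) : ℤ_[p]) := by rwa [pow_one]
        rw [dvd_nat, pow_one] at h4
        have h5 := Nat.le_of_dvd (by omega) h4
        omega
      intro i j hi hj hei hej
      rcases lt_trichotomy i j with h1 | h1 | h1
      · exact (hlt i j h1 hj hei hej).elim
      · exact h1
      · exact (hlt j i h1 hi hej hei).elim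
    have hall : ∀ i, i < p → (p : ℤ_[p]) ∣ e i := by
      intro i hi
      by_cases hei : e i = 0
      · rw [hei]; exact dvd_zero _
      have h1 : ∑ i ∈ Finset.range p, e i = e i := by
        refine Finset.sum_eq_single_of_mem i (Finset.mem_range.2 hi) fun j hj hji => ?_
        by_contra hej
        exact hji (huniq j i (Finset.mem_range.1 hj) hi hej hei)
      rwa [h1] at hsum
    exact dvd_sub (hall i hi) (hall j hj)
  · -- all the exponents are zero or all are `ρ`
    have h01 : ∀ i, i < p → e i = 0 ∨ e i = ρ := by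
      intro i hi
      obtain ⟨h1, h2⟩ := E_factor hp2 hz hr hρ i
      obtain ⟨h3, h4⟩ := E_factor' hz (hW i) (he i hi)
      rcases WS.types h h1 h3 (by
          rw [smul_mul', smul_neg, smul_inv'', hΦz1, hΦ]) h2 h4 with h5 | h5 | h5
      · exact absurd h5 hρ0
      · exact Or.inl h5
      · exact Or.inr h5.symm
    have hprod := WS.E.prod hz (Finset.range p) (fun i _ => hW i)
      (fun i hi => he i (Finset.mem_range.1 hi))
    rw [← prod_add hp2] at hprod
    have hneg : S.E δ (-(r ^ p)) (p * ρ) := by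
      have h1 := (E_neg_one hp2 hz).mul hz S.neg_one_mem (S.pow_mem hr p) (hρ.pow hz hr p)
      rwa [zero_add, neg_one_mul] at h1
    have hnegW : -(r ^ p) ∈ S.W := by
      have h1 := S.mul_mem _ S.neg_one_mem _ (S.pow_mem hr p)
      rwa [neg_one_mul] at h1
    have h1sub : 1 - -(r ^ p) = r ^ p + 1 := by ring
    have hcount : ∑ i ∈ Finset.range p, e i =
        ((Finset.range p).filter fun i => e i = ρ).card * ρ := by
      rw [Finset.card_filter, Nat.cast_sum, Finset.sum_mul]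
      refine Finset.sum_congr rfl fun i hi => ?_
      rcases h01 i (Finset.mem_range.1 hi) with h5 | h5
      · rw [if_neg (fun h6 => hρ0 (by rw [← h6, h5])), Nat.cast_zero, zero_mul, h5]
      · rw [if_pos h5, Nat.cast_one, one_mul, h5]
    have h2 := WS.types h hnegW (by rw [h1sub]; exact hprod.2) (by
      rw [smul_neg, smul_pow', hΦ]) hneg (by rw [h1sub]; exact hprod.1)
    have h3 : (∀ i, i < p → e i = 0) ∨ ∀ i, i < p → e i = ρ := by
      rcases h2 with h4 | h4 | h4
      · rcases mul_eq_zero.1 h4 with h5 | h5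
        · exact absurd h5 (Nat.cast_ne_zero.2 hp.ne_zero)
        · exact absurd h5 hρ0
      · left
        rw [hcount] at h4
        rcases mul_eq_zero.1 h4 with h5 | h5
        · intro i hi
          rw [Nat.cast_eq_zero, Finset.card_eq_zero] at h5
          rcases h01 i hi with h6 | h6
          · exact h6
          · exfalso
            have h7 : i ∈ (Finset.range p).filter fun i => e i = ρ :=
              Finset.mem_filter.2 ⟨Finset.mem_range.2 hi, h6⟩
            rw [h5] at h7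
            exact absurd h7 (Finset.notMem_empty i)
        · exact absurd h5 hρ0
      · right
        rw [hcount] at h4
        have h5 := mul_right_cancel₀ hρ0 h4
        have h6 : ((Finset.range p).filter fun i => e i = ρ).card = p :=
          (Nat.cast_injective h5).symm
        have h7 : (Finset.range p).filter (fun i => e i = ρ) = Finset.range p := by
          apply Finset.eq_of_subset_of_card_le (Finset.filter_subset _ _)
          rw [h6, Finset.card_range]
        intro i hi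
        have h8 : i ∈ (Finset.range p).filter fun i => e i = ρ := by
          rw [h7]
          exact Finset.mem_range.2 hi
        exact (Finset.mem_filter.1 h8).2
    rcases h3 with h3 | h3
    · rw [h3 i hi, h3 j hj, sub_self]; exact dvd_zero _
    · rw [h3 i hi, h3 j hj, sub_self]; exact dvd_zero _

end Pool.Agent.Lib.MP_2f3286_ag.Fer.Ty
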